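import Mathlib

/-! # Project HC: a collar inequality for fillings of the round sphere `S^d`, `d ≥ 2`

Definitions and the statements of the parts (`T_...`). -/

set_option autoImplicit false

open Real Set MeasureTheory Metric
open scoped ENNReal

namespace Pool.Agent.Y499.HC

/-- The space `ℝ^(d+1)`. -/
abbrev E (d : ℕ) : Type := EuclideanSpace ℝ (Fin (d + 1))

/-- The unit sphere `S^d`. -/
abbrev Sph (d : ℕ) : Type := sphere (0 : EuclideanSpace ℝ (Fin (d + 1))) 1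

/-- The surface measure of the unit sphere `S^d`. -/
noncomputable abbrev σ (d : ℕ) : Measure (Sph d) :=
  (volume : Measure (EuclideanSpace ℝ (Fin (d + 1)))).toSphere

/-- The value `g(v, v)` of the quadratic form with the matrix `g`. -/
def quad {d : ℕ} (g : Matrix (Fin (d + 1)) (Fin (d + 1)) ℝ) (v : EuclideanSpace ℝ (Fin (d + 1))) :
    ℝ :=
  ∑ i, ∑ j, g i j * v i * v j

/-- The trace of the restriction of the quadratic form `g` to the orthogonal complement of the unit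
vector `x`, the tangent space of the unit sphere at `x`. -/
def trTan {d : ℕ} (g : Matrix (Fin (d + 1)) (Fin (d + 1)) ℝ)
    (x : EuclideanSpace ℝ (Fin (d + 1))) : ℝ :=
  ∑ i, g i i - quad g x

/-- The determinant of the restriction of the quadratic form `g` to the orthogonal complement of the
unit vector `x` (with respect to orthonormal bases): the determinant of `P g P + x xᵀ`,
`P = 1 - x xᵀ`. -/
def detTan {d : ℕ} (g : Matrix (Fin (d + 1)) (Fin (d + 1)) ℝ)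
    (x : EuclideanSpace ℝ (Fin (d + 1))) : ℝ :=
  Matrix.det ((1 - Matrix.of fun i j => x i * x j) * g * (1 - Matrix.of fun i j => x i * x j) +
    Matrix.of fun i j => x i * x j)

/-- The data of a metric on the collar `[0, π/2) × S^d`: the square of the length of the tangent
vector `(p, v)` at `(s, x)`, `v` orthogonal to `x`, is `a p² + 2 p ⟪β, v⟫ + g(v, v)`. -/
structure Met (d : ℕ) where
  a : ℝ → EuclideanSpace ℝ (Fin (d + 1)) → ℝ
  β : ℝ → EuclideanSpace ℝ (Fin (d + 1)) → EuclideanSpace ℝ (Fin (d + 1))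
  g : ℝ → EuclideanSpace ℝ (Fin (d + 1)) → Matrix (Fin (d + 1)) (Fin (d + 1)) ℝ

/-- The square of the length of the tangent vector `(p, v)` at `(s, x)`. -/
noncomputable def Met.sq {d : ℕ} (m : Met d) (s : ℝ) (x : EuclideanSpace ℝ (Fin (d + 1))) (p : ℝ)
    (v : EuclideanSpace ℝ (Fin (d + 1))) : ℝ :=
  m.a s x * p ^ 2 + 2 * p * inner ℝ (m.β s x) v + quad (m.g s x) v

/-- `m` is a continuous field of symmetric positive semidefinite quadratic forms on the tangent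
spaces of the collar, and `∂/∂s` has length at most one. -/
structure Met.Good {d : ℕ} (m : Met d) : Prop where
  cont_a : ContinuousOn (fun p : ℝ × EuclideanSpace ℝ (Fin (d + 1)) => m.a p.1 p.2)
    (Ico 0 (π / 2) ×ˢ sphere 0 1)
  cont_β : ContinuousOn (fun p : ℝ × EuclideanSpace ℝ (Fin (d + 1)) => m.β p.1 p.2)
    (Ico 0 (π / 2) ×ˢ sphere 0 1)
  cont_g : ContinuousOn (fun p : ℝ × EuclideanSpace ℝ (Fin (d + 1)) => m.g p.1 p.2)
    (Ico 0 (π / 2) ×ˢ sphere 0 1)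
  symm : ∀ s ∈ Ico 0 (π / 2), ∀ x ∈ sphere (0 : EuclideanSpace ℝ (Fin (d + 1))) 1,
    (m.g s x).IsSymm
  nonneg : ∀ s ∈ Ico 0 (π / 2), ∀ x ∈ sphere (0 : EuclideanSpace ℝ (Fin (d + 1))) 1,
    ∀ (p : ℝ) (v : EuclideanSpace ℝ (Fin (d + 1))), inner ℝ x v = 0 → 0 ≤ m.sq s x p v
  lapse : ∀ s ∈ Ico 0 (π / 2), ∀ x ∈ sphere (0 : EuclideanSpace ℝ (Fin (d + 1))) 1, m.a s x ≤ 1

/-- Every `C¹` curve in the collar which joins two antipodal points of the boundary sphere `s = 0`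
has length at least `π`. -/
def Met.NonShort {d : ℕ} (m : Met d) : Prop :=
  ∀ (l : ℝ) (s : ℝ → ℝ) (y : ℝ → EuclideanSpace ℝ (Fin (d + 1))), 0 < l → ContDiff ℝ 1 s →
    ContDiff ℝ 1 y → (∀ t ∈ Icc 0 l, s t ∈ Ico 0 (π / 2)) → (∀ t, y t ∈ sphere 0 1) → s 0 = 0 →
    s l = 0 → y l = -y 0 →
    π ≤ ∫ t in (0 : ℝ)..l, √(m.sq (s t) (y t) (deriv s t) (deriv y t))

/-- The integral over the collar of the slice energies `(tr g_s / d)^(d/2)`. -/
noncomputable def Met.energy {d : ℕ} (m : Met d) : ℝ≥0∞ :=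
  ∫⁻ s in Ioo 0 (π / 2), ∫⁻ x : Sph d, ENNReal.ofReal ((trTan (m.g s x) x / d) ^ ((d : ℝ) / 2)) ∂(σ d)

/-- The coordinate `s` is the distance from the boundary: `m = ds² + g_s`. -/
def Met.Fermi {d : ℕ} (m : Met d) : Prop :=
  ∀ s ∈ Ico 0 (π / 2), ∀ x ∈ sphere (0 : EuclideanSpace ℝ (Fin (d + 1))) 1,
    m.a s x = 1 ∧ ∀ v : EuclideanSpace ℝ (Fin (d + 1)), inner ℝ x v = 0 → inner ℝ (m.β s x) v = 0

/-- The volume of the collar for a metric `ds² + g_s`. -/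
noncomputable def Met.vol {d : ℕ} (m : Met d) : ℝ≥0∞ :=
  ∫⁻ s in Ioo 0 (π / 2), ∫⁻ x : Sph d, ENNReal.ofReal (√(detTan (m.g s x) x)) ∂(σ d)

/-- The volume `vol(S^d) ∫_0^{π/2} cos^d = vol(S^(d+1)) / 2` of the round hemisphere of dimension
`d + 1`. -/
noncomputable def hemi (d : ℕ) : ℝ≥0∞ :=
  (σ d) univ * ENNReal.ofReal (∫ θ in (0 : ℝ)..(π / 2), Real.cos θ ^ d)

/-! ## Frames -/

/-- Orthonormal frames of `ℝ^(d+1)`. -/
abbrev Fr (d : ℕ) : Type := {b : Fin (d + 1) → E d // Orthonormal ℝ b}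

lemma orthonormal_mul {d : ℕ} (A : Matrix.orthogonalGroup (Fin (d + 1)) ℝ)
    {b : Fin (d + 1) → E d} (hb : Orthonormal ℝ b) :
    Orthonormal ℝ (fun j => ∑ i, (A : Matrix (Fin (d + 1)) (Fin (d + 1)) ℝ) i j • b i) := by
  rw [orthonormal_iff_ite]
  intro j k
  rw [hb.inner_sum]
  have h := (Matrix.mem_orthogonalGroup_iff' _ _).1 A.2
  have h2 := congrFun (congrFun h j) k
  rw [Matrix.mul_apply, Matrix.one_apply] at h2
  simpa using h2

/-- The frame `b A`. -/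
noncomputable def rotF {d : ℕ} (A : Matrix.orthogonalGroup (Fin (d + 1)) ℝ) (b : Fr d) : Fr d :=
  ⟨fun j => ∑ i, (A : Matrix (Fin (d + 1)) (Fin (d + 1)) ℝ) i j • b.1 i, orthonormal_mul A b.2⟩

/-- The vector number `i` of a frame is in the unit sphere. -/
def vecF {d : ℕ} (b : Fr d) (i : Fin (d + 1)) : Sph d :=
  ⟨b.1 i, mem_sphere_zero_iff_norm.2 (b.2.norm_eq_one i)⟩

/-- `μ` is the uniform probability measure on the orthonormal frames. -/
structure IsFrameMeasure (d : ℕ) (μ : Measure (Fr d)) : Prop where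
  prob : IsProbabilityMeasure μ
  inv : ∀ (A : Matrix.orthogonalGroup (Fin (d + 1)) ℝ) (f : Fr d → ℝ), Continuous f →
    ∫ b, f (rotF A b) ∂μ = ∫ b, f b ∂μ
  marg : ∀ f : Sph d → ℝ, Continuous f →
    ((σ d) univ).toReal * ∫ b, f (vecF b 0) ∂μ = ∫ x, f x ∂(σ d)

/-- JOB HC-FRAME. -/
def T_FRAME : Prop := ∀ d : ℕ, ∃ μ : Measure (Fr d), IsFrameMeasure d μ

/-- JOB HC-AVG: the average over the frames of the length of a vector in the plane of the first two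
vectors of the frame. -/
def T_AVG : Prop := ∀ (d : ℕ), 1 ≤ d → ∀ μ : Measure (Fr d), IsFrameMeasure d μ →
  ∀ (a : Sph d → ℝ) (β : Sph d → E d) (g : Sph d → Matrix (Fin (d + 1)) (Fin (d + 1)) ℝ),
    Continuous a → Continuous β → Continuous g → (∀ x, a x ≤ 1) →
    (∀ (x : Sph d) (p : ℝ) (v : E d), inner ℝ (x : E d) v = 0 →
      0 ≤ a x * p ^ 2 + 2 * p * inner ℝ (β x) v + quad (g x) v) →
    ∀ (c s p q : ℝ), c ^ 2 + s ^ 2 = 1 →
    ∀ X : Fr d → Sph d, (∀ b, (X b : E d) = c • b.1 0 + s • b.1 1) →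
      ∫ b, √(a (X b) * p ^ 2 + 2 * p * inner ℝ (β (X b)) (q • ((-s) • b.1 0 + c • b.1 1)) +
        quad (g (X b)) (q • ((-s) • b.1 0 + c • b.1 1))) ∂μ ≤
      ∫ b, √(p ^ 2 + q ^ 2 * (trTan (g (vecF b 0)) (vecF b 0) / d)) ∂μ

/-- `cos` of the latitude of the great semicircle with the angle `α`, at the time `τ`. -/
noncomputable def C (α τ : ℝ) : ℝ := √(1 - (Real.sin α * Real.sin τ) ^ 2)

/-- The latitude. -/
noncomputable def S (α τ : ℝ) : ℝ := Real.arcsin (Real.sin α * Real.sin τ)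

/-- JOB HC-CURVE: the lengths of the curves which run in the collar as the great semicircle with the
angle `α` runs in the hemisphere. -/
def T_CURVE : Prop := ∀ (d : ℕ), 1 ≤ d → ∀ m : Met d, m.Good → m.NonShort →
  ∀ α ∈ Ioo 0 (π / 2), ∀ b : Fr d,
    π ≤ ∫ τ in (0 : ℝ)..π, √(m.sq (S α τ)
      ((Real.cos τ / C α τ) • b.1 0 + (Real.cos α * Real.sin τ / C α τ) • b.1 1)
      (Real.sin α * Real.cos τ / C α τ)
      ((Real.cos α / C α τ ^ 2) •
        ((-(Real.cos α * Real.sin τ / C α τ)) • b.1 0 + (Real.cos τ / C α τ) • b.1 1)))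

/-- JOB HC-INV: the integral over all great semicircles. -/
def T_INV : Prop := ∀ d : ℕ, ∃ c : ℝ≥0∞, c ≠ 0 ∧ c ≠ ⊤ ∧ ∀ f : ℝ → ℝ≥0∞, Measurable f →
  ∫⁻ α in Ioo 0 (π / 2), ENNReal.ofReal (Real.sin α * Real.cos α ^ (d + 1)) *
    ∫⁻ τ in Ioo 0 π, ENNReal.ofReal (1 / C α τ ^ (d + 2)) * f (S α τ) =
  c * ∫⁻ s in Ioo 0 (π / 2), f s

/-- JOB HC-DET: conformally round slices. -/
def T_DET : Prop := ∀ (d : ℕ) (g : Matrix (Fin (d + 1)) (Fin (d + 1)) ℝ), g.IsSymm →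
  ∀ x : E d, ‖x‖ = 1 → ∀ k : ℝ, (∀ v : E d, inner ℝ x v = 0 → quad g v = k ^ 2 * ‖v‖ ^ 2) →
    trTan g x = d * k ^ 2 ∧ detTan g x = (k ^ 2) ^ d

/-- JOB HC-TAN: the tangent line inequality. -/
def T_TAN : Prop := ∀ (d : ℕ), 2 ≤ d → ∀ (p q c y : ℝ), 0 < c → 0 ≤ y →
  p ^ 2 + q ^ 2 * c ^ 2 = 1 →
  √(p ^ 2 + q ^ 2 * y) ≤ 1 + q ^ 2 / (d * c ^ (d - 2)) * (y ^ ((d : ℝ) / 2) - c ^ d)

end Pool.Agent.Y499.HC
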