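import Pool.Agent.Y499.HC.MainR2

set_option autoImplicit false
set_option maxHeartbeats 400000

open Real Set MeasureTheory Metric Filter Topology
open scoped ENNReal

namespace Pool.Agent.Y499.HR

open Pool.Agent.Y499.HC

/-- Integration by parts. -/
lemma parts {d : ℕ} {w : ℝ → ℝ} (hw : Continuous w) {ρ : ℝ} (hρ : 0 ≤ ρ) :
    ∫ s in (0 : ℝ)..ρ, Real.cos s ^ (d + 1) * w s =
      Real.cos ρ ^ (d + 1) * (∫ s in (0 : ℝ)..ρ, w s) +
        ∫ s in (0 : ℝ)..ρ, (d + 1) * Real.cos s ^ d * Real.sin s * ∫ t in (0 : ℝ)..s, w t := by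
  have hH : ∀ s, HasDerivAt (fun s => ∫ t in (0 : ℝ)..s, w t) (w s) s := fun s =>
    hw.integral_hasStrictDerivAt 0 s |>.hasDerivAt
  have hHc : Continuous (fun s => ∫ t in (0 : ℝ)..s, w t) :=
    continuous_iff_continuousAt.2 fun s => (hH s).continuousAt
  have hG : ∀ s ∈ uIcc 0 ρ, HasDerivAt (fun s => Real.cos s ^ (d + 1) * ∫ t in (0 : ℝ)..s, w t)
      (Real.cos s ^ (d + 1) * w s - (d + 1) * Real.cos s ^ d * Real.sin s *
        ∫ t in (0 : ℝ)..s, w t) s := by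
    intro s _
    have h1 := ((Real.hasDerivAt_cos s).fun_pow (d + 1)).mul (hH s)
    refine h1.congr_deriv ?_
    push_cast
    ring
  have c1 : Continuous (fun s => Real.cos s ^ (d + 1) * w s) := by fun_prop
  have c2 : Continuous (fun s => (d + 1) * Real.cos s ^ d * Real.sin s *
        ∫ t in (0 : ℝ)..s, w t) := by fun_prop
  have h2 := intervalIntegral.integral_eq_sub_of_hasDerivAt hG
    ((c1.sub c2).intervalIntegrable 0 ρ)
  rw [intervalIntegral.integral_sub (c1.intervalIntegrable 0 ρ) (c2.intervalIntegrable 0 ρ)] at h2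
  simp only [intervalIntegral.integral_same, mul_zero, sub_zero] at h2
  linarith

/-- The lower bound for the integral. -/
lemma parts_ge {d : ℕ} {w : ℝ → ℝ} (hw : Continuous w) {ρ₀ ρ : ℝ} (h0 : 0 ≤ ρ₀) (hρ : ρ₀ ≤ ρ)
    (hρ2 : ρ ≤ π / 2) (hH : ∀ s ∈ Icc 0 ρ, 0 ≤ ∫ t in (0 : ℝ)..s, w t) :
    ∫ s in (0 : ℝ)..ρ₀, (d + 1) * Real.cos s ^ d * Real.sin s * (∫ t in (0 : ℝ)..s, w t) ≤
      ∫ s in (0 : ℝ)..ρ, Real.cos s ^ (d + 1) * w s := by
  have hHd : ∀ s, HasDerivAt (fun s => ∫ t in (0 : ℝ)..s, w t) (w s) s := fun s =>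
    hw.integral_hasStrictDerivAt 0 s |>.hasDerivAt
  have hHc : Continuous (fun s => ∫ t in (0 : ℝ)..s, w t) :=
    continuous_iff_continuousAt.2 fun s => (hHd s).continuousAt
  have c2 : Continuous (fun s => (d + 1) * Real.cos s ^ d * Real.sin s *
        ∫ t in (0 : ℝ)..s, w t) := by fun_prop
  have hcos : ∀ s ∈ Icc 0 ρ, 0 ≤ Real.cos s := fun s hs =>
    Real.cos_nonneg_of_mem_Icc ⟨by linarith [hs.1, Real.pi_pos], by linarith [hs.2]⟩
  have hsin : ∀ s ∈ Icc 0 ρ, 0 ≤ Real.sin s := fun s hs =>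
    Real.sin_nonneg_of_nonneg_of_le_pi hs.1 (by linarith [hs.2, Real.pi_pos])
  rw [parts hw (h0.trans hρ)]
  have h1 : 0 ≤ Real.cos ρ ^ (d + 1) * (∫ s in (0 : ℝ)..ρ, w s) :=
    mul_nonneg (pow_nonneg (hcos ρ ⟨h0.trans hρ, le_rfl⟩) _) (hH ρ ⟨h0.trans hρ, le_rfl⟩)
  have h2 := intervalIntegral.integral_add_adjacent_intervals
    (c2.intervalIntegrable (μ := volume) 0 ρ₀) (c2.intervalIntegrable (μ := volume) ρ₀ ρ)
  have h3 : 0 ≤ ∫ s in ρ₀..ρ, (d + 1) * Real.cos s ^ d * Real.sin s *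
      (∫ t in (0 : ℝ)..s, w t) := by
    refine intervalIntegral.integral_nonneg hρ fun s hs => ?_
    have hs' : s ∈ Icc 0 ρ := ⟨h0.trans hs.1, hs.2⟩
    have e1 := hcos s hs'
    have e2 := hsin s hs'
    have e3 := hH s hs'
    positivity
  linarith

/-- The lower bound is positive. -/
lemma parts_pos {d : ℕ} {w : ℝ → ℝ} (hw : Continuous w) {ρ₀ : ℝ} (h0 : 0 < ρ₀)
    (hρ2 : ρ₀ < π / 2) (hH : ∀ s ∈ Icc 0 ρ₀, 0 ≤ ∫ t in (0 : ℝ)..s, w t)
    (hp : 0 < ∫ t in (0 : ℝ)..ρ₀, w t) :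
    0 < ∫ s in (0 : ℝ)..ρ₀, (d + 1) * Real.cos s ^ d * Real.sin s * (∫ t in (0 : ℝ)..s, w t) := by
  have hHd : ∀ s, HasDerivAt (fun s => ∫ t in (0 : ℝ)..s, w t) (w s) s := fun s =>
    hw.integral_hasStrictDerivAt 0 s |>.hasDerivAt
  have hHc : Continuous (fun s => ∫ t in (0 : ℝ)..s, w t) :=
    continuous_iff_continuousAt.2 fun s => (hHd s).continuousAt
  have c2 : Continuous (fun s => (d + 1) * Real.cos s ^ d * Real.sin s *
        ∫ t in (0 : ℝ)..s, w t) := by fun_prop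
  have hcos : ∀ s ∈ Icc 0 ρ₀, 0 < Real.cos s := fun s hs =>
    Real.cos_pos_of_mem_Ioo ⟨by linarith [hs.1, Real.pi_pos], by linarith [hs.2]⟩
  have hsin : ∀ s ∈ Icc 0 ρ₀, 0 ≤ Real.sin s := fun s hs =>
    Real.sin_nonneg_of_nonneg_of_le_pi hs.1 (by linarith [hs.2, Real.pi_pos])
  refine intervalIntegral.integral_pos h0 c2.continuousOn (fun s hs => ?_)
    ⟨ρ₀, ⟨h0.le, le_rfl⟩, ?_⟩
  · have hs' : s ∈ Icc 0 ρ₀ := ⟨hs.1.le, hs.2⟩
    have e1 := (hcos s hs').le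
    have e2 := hsin s hs'
    have e3 := hH s hs'
    positivity
  · have e1 := hcos ρ₀ ⟨h0.le, le_rfl⟩
    have e2 : 0 < Real.sin ρ₀ := Real.sin_pos_of_pos_of_lt_pi h0 (by linarith [Real.pi_pos])
    positivity

/-- A continuous function with vanishing primitive vanishes. -/
lemma eq_zero_of_prim {w : ℝ → ℝ} (hw : Continuous w) {R : ℝ}
    (h : ∀ s ∈ Ioo 0 R, ∫ t in (0 : ℝ)..s, w t = 0) : ∀ s ∈ Ioo 0 R, w s = 0 := by
  intro s hs
  have hHd : HasDerivAt (fun s => ∫ t in (0 : ℝ)..s, w t) (w s) s :=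
    hw.integral_hasStrictDerivAt 0 s |>.hasDerivAt
  have h0 : HasDerivAt (fun _ : ℝ => (0 : ℝ)) 0 s := hasDerivAt_const s 0
  have he : (fun s => ∫ t in (0 : ℝ)..s, w t) =ᶠ[𝓝 s] fun _ => (0 : ℝ) := by
    filter_upwards [Ioo_mem_nhds hs.1 hs.2] with t ht using h t ht
  exact hHd.unique (h0.congr_of_eventuallyEq he)

end Pool.Agent.Y499.HR
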