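import Pool.Agent.Y499.HC.FinalR

set_option autoImplicit false
set_option maxHeartbeats 400000

open Real Set MeasureTheory Metric Filter Topology
open scoped ENNReal

/-! # Project HC, third part: collars conformal to the round collar -/

namespace Pool.Agent.Y499.HK

open Pool.Agent.Y499.HC Pool.Agent.Y499.HR

variable {d : ℕ}

/-- `F` is continuous on `[0, R) × S^d`. -/
def ContC (R : ℝ) (F : ℝ → EuclideanSpace ℝ (Fin (d + 1)) → ℝ) : Prop :=
  ContinuousOn (fun p : ℝ × EuclideanSpace ℝ (Fin (d + 1)) => F p.1 p.2) (Ico 0 R ×ˢ sphere 0 1)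

/-- The average over the sphere at the level `s`. -/
noncomputable def av (μ : Measure (Fr d)) (F : ℝ → E d → ℝ) (s : ℝ) : ℝ :=
  ∫ b, F s (vecF b 0) ∂μ

/-- The average as a measurable function. -/
noncomputable def avI (μ : Measure (Fr d)) (R : ℝ) (F : ℝ → E d → ℝ) : ℝ → ℝ≥0∞ :=
  (Ico (0 : ℝ) R).indicator fun s => ENNReal.ofReal (av μ F s)

lemma av_cl_cont {μ : Measure (Fr d)} [IsProbabilityMeasure μ] {R A : ℝ} {F : ℝ → E d → ℝ}
    (hF : ContC R F) (hA : A ∈ Ico 0 R) : Continuous (fun s => av μ F (cl A s)) := by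
  unfold av
  have h1 := continuous_parametric_integral_of_continuous (μ := μ)
    (f := fun (s : ℝ) (b : Fr d) => F (cl A s) (vecF b 0)) (by
      exact (clamp_cont' hA hF).comp
        (continuous_fst.prodMk ((continuous_vecF 0).comp continuous_snd)))
    (s := univ) isCompact_univ
  simpa only [Measure.restrict_univ] using h1

lemma av_contOn {μ : Measure (Fr d)} [IsProbabilityMeasure μ] {R : ℝ} {F : ℝ → E d → ℝ}
    (hF : ContC R F) : ContinuousOn (av μ F) (Ico 0 R) := by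
  intro s hs
  set A := (s + R) / 2 with hA
  have hsA : s < A := by rw [hA]; linarith [hs.2]
  have hRm : A ∈ Ico 0 R := ⟨by linarith [hs.1], by rw [hA]; linarith [hs.2]⟩
  have h1 : ContinuousWithinAt (fun s => av μ F (cl A s)) (Ico 0 R) s :=
    (av_cl_cont hF hRm).continuousWithinAt
  refine h1.congr_of_eventuallyEq ?_ ?_
  · have h2 : ∀ᶠ t in 𝓝[Ico 0 R] s, t < A :=
      nhdsWithin_le_nhds (Iio_mem_nhds hsA)
    have h3 : ∀ᶠ t in 𝓝[Ico 0 R] s, t ∈ Ico 0 R := self_mem_nhdsWithin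
    filter_upwards [h2, h3] with t ht1 ht2
    rw [cl_eq ⟨ht2.1, ht1.le⟩]
  · rw [cl_eq ⟨hs.1, hsA.le⟩]

lemma measurable_ind {R : ℝ} {u : ℝ → ℝ} (hu : ContinuousOn u (Ico 0 R)) :
    Measurable ((Ico (0 : ℝ) R).indicator fun s => ENNReal.ofReal (u s)) := by
  classical
  have h1 : ContinuousOn (fun s => ENNReal.ofReal (u s)) (Ico 0 R) :=
    ENNReal.continuous_ofReal.comp_continuousOn hu
  rw [← Set.piecewise_eq_indicator]
  exact h1.measurable_piecewise continuousOn_const measurableSet_Ico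

lemma av_nonneg {μ : Measure (Fr d)} {R : ℝ} {F : ℝ → E d → ℝ}
    (hF : ∀ s ∈ Ico 0 R, ∀ x ∈ sphere (0 : E d) 1, 0 ≤ F s x) {s : ℝ} (hs : s ∈ Ico 0 R) :
    0 ≤ av μ F s :=
  integral_nonneg fun b => hF s hs _ (vecF b 0).2

lemma slice_cont {R : ℝ} {F : ℝ → E d → ℝ} (hF : ContC R F) {s : ℝ} (hs : s ∈ Ico 0 R) :
    Continuous (fun x : Sph d => F s x) := by
  have h4 := (clamp_cont' hs hF).comp
    ((continuous_const (y := s)).prodMk (continuous_id (X := Sph d)))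
  have h5 : cl s s = s := cl_eq ⟨hs.1, le_rfl⟩
  simpa only [Function.comp_def, h5, id] using h4

/-- The double integral in terms of the averages. -/
lemma lint_av {μ : Measure (Fr d)} (hμ : IsFrameMeasure d μ) {R : ℝ} {F : ℝ → E d → ℝ}
    (hF : ContC R F) (hF0 : ∀ s ∈ Ico 0 R, ∀ x ∈ sphere (0 : E d) 1, 0 ≤ F s x) :
    ∫⁻ s in Ioo 0 R, ∫⁻ x : Sph d, ENNReal.ofReal (F s x) ∂(σ d) =
      (σ d) univ * ∫⁻ s in Ioo 0 R, avI μ R F s := by
  have := hμ.prob
  have hmeas : Measurable (avI μ R F) := measurable_ind (av_contOn hF)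
  rw [← lintegral_const_mul _ hmeas]
  refine setLIntegral_congr_fun measurableSet_Ioo fun s hs => ?_
  have hsm : s ∈ Ico 0 R := ⟨hs.1.le, hs.2⟩
  have hdc := slice_cont hF hsm
  have h6 := hμ.marg (fun x => F s x) hdc
  have h7 : ∫⁻ x : Sph d, ENNReal.ofReal (F s x) ∂(σ d) =
      ENNReal.ofReal (∫ x : Sph d, F s x ∂(σ d)) := by
    rw [ofReal_integral_eq_lintegral_ofReal]
    · have := hdc.continuousOn.integrableOn_compact (μ := σ d) (isCompact_univ)
      rwa [integrableOn_univ] at this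
    · exact Filter.Eventually.of_forall fun x => hF0 s hsm x x.2
  simp only [h7]
  rw [← h6, ENNReal.ofReal_mul ENNReal.toReal_nonneg,
    ENNReal.ofReal_toReal (measure_ne_top _ _)]
  simp only [avI]
  rw [indicator_of_mem hsm]
  rfl

/-- The integrals over the semicircles control the weighted integrals (`H_nonneg` for general
functions). -/
lemma gen_H (hI : T_INV2) {R : ℝ} (hR : R ≤ π / 2) {u₁ u₂ : ℝ → ℝ}
    (h1c : ∀ A ∈ Ico 0 R, Continuous fun s => u₁ (cl A s))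
    (h2c : ∀ A ∈ Ico 0 R, Continuous fun s => u₂ (cl A s))
    (h1o : ContinuousOn u₁ (Ico 0 R)) (h2o : ContinuousOn u₂ (Ico 0 R))
    (h1p : ∀ s ∈ Ico 0 R, 0 ≤ u₁ s) (h2p : ∀ s ∈ Ico 0 R, 0 ≤ u₂ s)
    (key0 : ∀ α ∈ Ioo 0 R, 0 ≤ ∫ τ in (0 : ℝ)..π,
      1 / C α τ ^ 2 * (u₂ (cl α (S α τ)) - u₁ (cl α (S α τ))))
    {A : ℝ} (hAm : A ∈ Ico 0 R) {ρ : ℝ} (hρ : ρ ∈ Icc 0 A) :
    0 ≤ ∫ t in (0 : ℝ)..ρ, 1 / Real.cos (cl A t) * (u₂ (cl A t) - u₁ (cl A t)) := by
  rcases hρ.1.eq_or_lt with h0 | h0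
  · rw [← h0, intervalIntegral.integral_same]
  have hρR : ρ ∈ Ioo 0 R := ⟨h0, hρ.2.trans_lt hAm.2⟩
  -- one angle
  have hone : ∀ α ∈ Ioo 0 R,
      ∫⁻ τ in Ioo 0 π, ENNReal.ofReal (1 / C α τ ^ (0 + 2)) *
        ((Ico (0 : ℝ) R).indicator fun s => ENNReal.ofReal (u₁ s)) (S α τ) ≤
      ∫⁻ τ in Ioo 0 π, ENNReal.ofReal (1 / C α τ ^ (0 + 2)) *
        ((Ico (0 : ℝ) R).indicator fun s => ENNReal.ofReal (u₂ s)) (S α τ) := by
    intro α hα
    have hαm : α ∈ Ico 0 R := ⟨hα.1.le, hα.2⟩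
    have hα2 := mem_half hR hα
    have hCc := continuous_C α
    have hCp := C_pos hα2
    have key := key0 α hα
    have hw : Continuous (fun τ => 1 / C α τ ^ 2) :=
      continuous_const.div (hCc.pow _) fun τ => (pow_pos (hCp τ) _).ne'
    have hint : ∀ f : ℝ → ℝ, Continuous f → Integrable f (volume.restrict (Ioo 0 π)) :=
      fun f hf => (hf.integrableOn_Icc (a := 0) (b := π)).mono_set Ioo_subset_Icc_self
    have c1 : Continuous (fun τ => 1 / C α τ ^ 2 * u₁ (cl α (S α τ))) :=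
      hw.mul ((h1c α hαm).comp (continuous_S α))
    have c2 : Continuous (fun τ => 1 / C α τ ^ 2 * u₂ (cl α (S α τ))) :=
      hw.mul ((h2c α hαm).comp (continuous_S α))
    have key2 : ∫ τ in Ioo 0 π, 1 / C α τ ^ 2 * u₁ (cl α (S α τ)) ≤
        ∫ τ in Ioo 0 π, 1 / C α τ ^ 2 * u₂ (cl α (S α τ)) := by
      rw [intervalIntegral.integral_of_le Real.pi_pos.le, integral_Ioc_eq_integral_Ioo] at key
      have e : ∫ τ in Ioo 0 π, 1 / C α τ ^ 2 * (u₂ (cl α (S α τ)) - u₁ (cl α (S α τ))) =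
          ∫ τ in Ioo 0 π, (1 / C α τ ^ 2 * u₂ (cl α (S α τ)) -
            1 / C α τ ^ 2 * u₁ (cl α (S α τ))) :=
        integral_congr_ae (Filter.Eventually.of_forall fun τ => mul_sub _ _ _)
      rw [e, integral_sub (hint _ c2) (hint _ c1)] at key
      linarith
    have e0 : ∀ u : ℝ → ℝ, (∀ s ∈ Ico 0 R, 0 ≤ u s) →
        Continuous (fun τ => 1 / C α τ ^ 2 * u (cl α (S α τ))) →
        ∫⁻ τ in Ioo 0 π, ENNReal.ofReal (1 / C α τ ^ (0 + 2)) *
          ((Ico (0 : ℝ) R).indicator fun s => ENNReal.ofReal (u s)) (S α τ) =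
        ENNReal.ofReal (∫ τ in Ioo 0 π, 1 / C α τ ^ 2 * u (cl α (S α τ))) := by
      intro u hu hc
      rw [ofReal_integral_eq_lintegral_ofReal]
      · refine setLIntegral_congr_fun measurableSet_Ioo fun τ hτ => ?_
        have h0 := hCp τ
        have h1 := S_mem hα2 ⟨hτ.1.le, hτ.2.le⟩
        have h2 : S α τ ∈ Ico 0 R := ⟨h1.1, h1.2.trans_lt hα.2⟩
        simp only [zero_add]
        rw [indicator_of_mem h2, cl_eq h1, ← ENNReal.ofReal_mul (by positivity)]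
      · exact hint _ hc
      · refine Filter.Eventually.of_forall fun τ => ?_
        have h0 := hCp τ
        have h1 := hu _ (cl_mem' hαm (S α τ))
        show 0 ≤ 1 / C α τ ^ 2 * u (cl α (S α τ))
        positivity
    rw [e0 u₁ h1p c1, e0 u₂ h2p c2]
    exact ENNReal.ofReal_le_ofReal key2
  -- all angles
  have hρ2 := mem_half hR hρR
  have i1 := hI 0 ρ hρ2 _ (measurable_ind h1o)
  have i2 := hI 0 ρ hρ2 _ (measurable_ind h2o)
  have i3 : ENNReal.ofReal π * (∫⁻ s in Ioo 0 ρ, ENNReal.ofReal (1 / Real.cos s ^ (0 + 1)) *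
      ((Ico (0 : ℝ) R).indicator fun s => ENNReal.ofReal (u₁ s)) s) ≤
      ENNReal.ofReal π * ∫⁻ s in Ioo 0 ρ, ENNReal.ofReal (1 / Real.cos s ^ (0 + 1)) *
        ((Ico (0 : ℝ) R).indicator fun s => ENNReal.ofReal (u₂ s)) s := by
    rw [← i1, ← i2]
    refine setLIntegral_mono' measurableSet_Ioo fun α hα => ?_
    exact mul_le_mul_right (hone α ⟨hα.1, hα.2.trans hρR.2⟩) _
  have hπ : ENNReal.ofReal π ≠ 0 := by
    rw [Ne, ENNReal.ofReal_eq_zero, not_le]
    exact Real.pi_pos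
  have key := (ENNReal.mul_le_mul_iff_right hπ ENNReal.ofReal_ne_top).1 i3
  have hint : ∀ f : ℝ → ℝ, Continuous f → Integrable f (volume.restrict (Ioo 0 ρ)) :=
    fun f hf => (hf.integrableOn_Icc (a := 0) (b := ρ)).mono_set Ioo_subset_Icc_self
  have hic : Continuous (fun s => 1 / Real.cos (cl A s)) :=
    continuous_const.div (Real.continuous_cos.comp (continuous_cl A))
      fun s => (cos_cl_pos hR hAm s).ne'
  have e0 : ∀ u : ℝ → ℝ, (∀ s ∈ Ico 0 R, 0 ≤ u s) →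
      Continuous (fun s => 1 / Real.cos (cl A s) * u (cl A s)) →
      ∫⁻ s in Ioo 0 ρ, ENNReal.ofReal (1 / Real.cos s ^ (0 + 1)) *
        ((Ico (0 : ℝ) R).indicator fun s => ENNReal.ofReal (u s)) s =
      ENNReal.ofReal (∫ s in Ioo 0 ρ, 1 / Real.cos (cl A s) * u (cl A s)) := by
    intro u hu hc
    rw [ofReal_integral_eq_lintegral_ofReal (hint _ hc) (Filter.Eventually.of_forall fun s => by
      have h1 := cos_cl_pos hR hAm s
      have h2 := hu _ (cl_mem' hAm s)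
      show 0 ≤ 1 / Real.cos (cl A s) * u (cl A s)
      positivity)]
    refine setLIntegral_congr_fun measurableSet_Ioo fun s hs => ?_
    have h1 := cos_cl_pos hR hAm s
    have h2 : cl A s = s := cl_eq ⟨hs.1.le, hs.2.le.trans hρ.2⟩
    rw [h2] at h1
    have h3 : s ∈ Ico 0 R := ⟨hs.1.le, hs.2.trans hρR.2⟩
    simp only [h2, zero_add, pow_one]
    rw [indicator_of_mem h3, ← ENNReal.ofReal_mul (by positivity)]
  have c1 : Continuous (fun s => 1 / Real.cos (cl A s) * u₁ (cl A s)) := hic.mul (h1c A hAm)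
  have c2 : Continuous (fun s => 1 / Real.cos (cl A s) * u₂ (cl A s)) := hic.mul (h2c A hAm)
  rw [e0 u₁ h1p c1, e0 u₂ h2p c2] at key
  have key2 := (ENNReal.ofReal_le_ofReal_iff (integral_nonneg fun s => by
      have h1 := cos_cl_pos hR hAm s
      have h2 := h2p _ (cl_mem' hAm s)
      show 0 ≤ 1 / Real.cos (cl A s) * u₂ (cl A s)
      positivity)).1 key
  rw [intervalIntegral.integral_of_le hρ.1, integral_Ioc_eq_integral_Ioo]
  have e3 : ∫ s in Ioo 0 ρ, 1 / Real.cos (cl A s) * (u₂ (cl A s) - u₁ (cl A s)) =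
      ∫ s in Ioo 0 ρ, (1 / Real.cos (cl A s) * u₂ (cl A s) -
        1 / Real.cos (cl A s) * u₁ (cl A s)) :=
    integral_congr_ae (Filter.Eventually.of_forall fun s => mul_sub _ _ _)
  rw [e3, integral_sub (hint _ c2) (hint _ c1)]
  linarith

/-- Integration against powers of the cosine. -/
lemma pow_nonneg_int {w : ℝ → ℝ} (hw : Continuous w) {ρ : ℝ} (h0 : 0 ≤ ρ) (hρ2 : ρ ≤ π / 2)
    (hH : ∀ s ∈ Icc 0 ρ, 0 ≤ ∫ t in (0 : ℝ)..s, w t) (N : ℕ) :
    0 ≤ ∫ s in (0 : ℝ)..ρ, Real.cos s ^ N * w s := by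
  rcases N with _ | N
  · simpa using hH ρ ⟨h0, le_rfl⟩
  · have h := parts_ge (d := N) hw le_rfl h0 hρ2 hH
    simpa using h

end Pool.Agent.Y499.HK
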