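import Pool.Agent.Y499.HC.Conf1

set_option autoImplicit false
set_option maxHeartbeats 400000

open Real Set MeasureTheory Metric Filter Topology
open scoped ENNReal

namespace Pool.Agent.Y499.HK

open Pool.Agent.Y499.HC Pool.Agent.Y499.HR

variable {d : ℕ}

/-- `Λ` is a continuous bound for the stretching of lengths of the metric `m` with respect to the
round metric `ds² + cos² s g_round`. -/
structure Dom {d : ℕ} (R : ℝ) (m : Met d) (Λ : ℝ → EuclideanSpace ℝ (Fin (d + 1)) → ℝ) :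
    Prop where
  cont : ContinuousOn (fun p : ℝ × EuclideanSpace ℝ (Fin (d + 1)) => Λ p.1 p.2)
    (Ico 0 R ×ˢ sphere 0 1)
  nonneg : ∀ s ∈ Ico 0 R, ∀ x ∈ sphere (0 : EuclideanSpace ℝ (Fin (d + 1))) 1, 0 ≤ Λ s x
  le : ∀ s ∈ Ico 0 R, ∀ x ∈ sphere (0 : EuclideanSpace ℝ (Fin (d + 1))) 1,
    ∀ (p : ℝ) (v : EuclideanSpace ℝ (Fin (d + 1))), inner ℝ x v = 0 →
      m.sq s x p v ≤ Λ s x ^ 2 * (p ^ 2 + Real.cos s ^ 2 * ‖v‖ ^ 2)

lemma zero_ne_one' (hd : 1 ≤ d) : (0 : Fin (d + 1)) ≠ 1 := by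
  obtain ⟨k, rfl⟩ : ∃ k, d = k + 1 := ⟨d - 1, by omega⟩
  exact Fin.zero_ne_one

lemma WW_norm {α : ℝ} (hα : α ∈ Ioo 0 (π / 2)) (hd : 1 ≤ d) (τ : ℝ) (b : Fr d) :
    ‖WW α τ b‖ ^ 2 = 1 := by
  have h1 := b.2.norm_eq_one 0
  have h2 := b.2.norm_eq_one 1
  have h3 : inner ℝ (b.1 0) (b.1 1) = (0 : ℝ) := b.2.inner_eq_zero (zero_ne_one' hd)
  unfold WW
  rw [norm_add_sq_real, inner_smul_left, inner_smul_right, h3, norm_smul, norm_smul, h1, h2,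
    mul_one, mul_one, Real.norm_eq_abs, Real.norm_eq_abs, sq_abs, sq_abs]
  have := unit_coeff hα τ
  simp only [mul_zero, add_zero, neg_sq]
  linarith

lemma WW_inner {α : ℝ} (hα : α ∈ Ioo 0 (π / 2)) (hd : 1 ≤ d) (τ : ℝ) (b : Fr d) :
    inner ℝ (XX hα hd τ b : E d) (WW α τ b) = (0 : ℝ) := by
  have h1 : inner ℝ (b.1 0) (b.1 0) = (1 : ℝ) := by
    rw [real_inner_self_eq_norm_sq, b.2.norm_eq_one, one_pow]
  have h2 : inner ℝ (b.1 1) (b.1 1) = (1 : ℝ) := by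
    rw [real_inner_self_eq_norm_sq, b.2.norm_eq_one, one_pow]
  have h3 : inner ℝ (b.1 0) (b.1 1) = (0 : ℝ) := b.2.inner_eq_zero (zero_ne_one' hd)
  have h4 : inner ℝ (b.1 1) (b.1 0) = (0 : ℝ) := b.2.inner_eq_zero (zero_ne_one' hd).symm
  show inner ℝ ((Real.cos τ / C α τ) • b.1 0 + (Real.cos α * Real.sin τ / C α τ) • b.1 1)
    ((-(Real.cos α * Real.sin τ / C α τ)) • b.1 0 + (Real.cos τ / C α τ) • b.1 1) = (0 : ℝ)
  rw [inner_add_left, inner_add_right, inner_add_right]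
  simp only [real_inner_smul_left, real_inner_smul_right, h1, h2, h3, h4]
  ring

lemma rt_le {R : ℝ} (hR : R ≤ π / 2) {m : Met d} {Λ : ℝ → E d → ℝ} (hΛ : Dom R m Λ) {α : ℝ}
    (hα : α ∈ Ioo 0 R) (hd1 : 1 ≤ d) {τ : ℝ} (hτ : τ ∈ Icc 0 π) (b : Fr d) :
    rt m (cl α (S α τ)) (pp α τ) (qq α τ) (XX (mem_half hR hα) hd1 τ b) (WW α τ b) ≤
      Λ (cl α (S α τ)) (XX (mem_half hR hα) hd1 τ b) := by
  have hαm : α ∈ Ico 0 R := ⟨hα.1.le, hα.2⟩
  have hα2 := mem_half hR hα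
  have hs := cl_mem' hαm (S α τ)
  have hx := (XX hα2 hd1 τ b).2
  have h1 := hΛ.le _ hs _ hx (pp α τ) (qq α τ • WW α τ b)
    (by rw [inner_smul_right, WW_inner hα2 hd1, mul_zero])
  have h2 : Real.cos (cl α (S α τ)) = C α τ := by rw [cl_eq (S_mem hα2 hτ), cos_S]
  have h3 : pp α τ ^ 2 + qq α τ ^ 2 * C α τ ^ 2 = 1 := unit_speed hα2 τ
  have h4 : ‖qq α τ • WW α τ b‖ ^ 2 = qq α τ ^ 2 := by
    rw [norm_smul, mul_pow, WW_norm hα2 hd1, mul_one, Real.norm_eq_abs, sq_abs]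
  have h5 : pp α τ ^ 2 + C α τ ^ 2 * qq α τ ^ 2 = 1 := by rw [mul_comm (C α τ ^ 2), h3]
  rw [h2, h4, h5, mul_one] at h1
  unfold rt
  exact Real.sqrt_le_iff.2 ⟨hΛ.nonneg _ hs _ hx, h1⟩

lemma comp_cont {R : ℝ} (hR : R ≤ π / 2) {Λ : ℝ → E d → ℝ} (hc : ContC R Λ) {α : ℝ}
    (hα : α ∈ Ioo 0 R) (hd1 : 1 ≤ d) :
    Continuous (fun z : ℝ × Fr d =>
      Λ (cl α (S α z.1)) (XX (mem_half hR hα) hd1 z.1 z.2)) := by
  have hαm : α ∈ Ico 0 R := ⟨hα.1.le, hα.2⟩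
  have h := (clamp_cont' hαm hc).comp
    (((continuous_S α).comp (continuous_fst (X := ℝ) (Y := Fr d))).prodMk
      (continuous_XX (mem_half hR hα) hd1))
  exact h

lemma curve_lam {R : ℝ} (hR : R ≤ π / 2) {m : Met d} (hS : NonShort R m) {Λ : ℝ → E d → ℝ}
    (hΛ : Dom R m Λ) {α : ℝ} (hα : α ∈ Ioo 0 R) (hd1 : 1 ≤ d) (b : Fr d) :
    π ≤ ∫ τ in (0 : ℝ)..π, Λ (cl α (S α τ)) (XX (mem_half hR hα) hd1 τ b) := by
  refine (curve_rt hR hS hα hd1 b).trans ?_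
  rw [intervalIntegral.integral_of_le Real.pi_pos.le,
    intervalIntegral.integral_of_le Real.pi_pos.le]
  refine integral_mono_of_nonneg (Filter.Eventually.of_forall fun τ => Real.sqrt_nonneg _) ?_ ?_
  · have h0 := comp_cont hR hΛ.cont hα hd1
    have h1 : Continuous (fun τ : ℝ => ((τ, b) : ℝ × Fr d)) :=
      continuous_id.prodMk (continuous_const (y := b))
    have h := h0.comp h1
    simp only [Function.comp_def] at h
    exact (h.integrableOn_Icc (a := 0) (b := π)).mono_set Ioc_subset_Icc_self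
  · exact (ae_restrict_iff' measurableSet_Ioc).2 (Filter.Eventually.of_forall fun τ hτ =>
      rt_le hR hΛ hα hd1 ⟨hτ.1.le, hτ.2⟩ b)

lemma avg_lam (hA : T_AVGE) {μ : Measure (Fr d)} (hμ : IsFrameMeasure d μ) {R : ℝ}
    (hR : R ≤ π / 2) {Λ : ℝ → E d → ℝ} (hc : ContC R Λ) {α : ℝ} (hα : α ∈ Ioo 0 R)
    (hd1 : 1 ≤ d) (τ : ℝ) :
    ∫ b, Λ (cl α (S α τ)) (XX (mem_half hR hα) hd1 τ b) ∂μ = av μ Λ (cl α (S α τ)) := by
  have hαm : α ∈ Ico 0 R := ⟨hα.1.le, hα.2⟩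
  have hsc := slice_cont hc (cl_mem' hαm (S α τ))
  have h := hA d hd1 μ hμ (fun z : Sph d × E d => Λ (cl α (S α τ)) z.1)
    (hsc.comp continuous_fst)
    (Real.cos τ / C α τ) (Real.cos α * Real.sin τ / C α τ)
    (unit_coeff (mem_half hR hα) τ) (XX (mem_half hR hα) hd1 τ) (fun b => rfl)
  refine h.trans ?_
  unfold av
  refine integral_congr_ae (Filter.Eventually.of_forall fun b => ?_)
  have hd0 : (d : ℝ) ≠ 0 := by
    have : 0 < d := by omega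
    exact_mod_cast this.ne'
  simp only [Finset.sum_const, Finset.card_univ, Fintype.card_fin, nsmul_eq_mul]
  field_simp
  ring

lemma one_angle (hA : T_AVGE) {μ : Measure (Fr d)} (hμ : IsFrameMeasure d μ) (hd1 : 1 ≤ d)
    {R : ℝ} (hR : R ≤ π / 2) {m : Met d} (hS : NonShort R m) {Λ : ℝ → E d → ℝ}
    (hΛ : Dom R m Λ) {α : ℝ} (hα : α ∈ Ioo 0 R) :
    0 ≤ ∫ τ in (0 : ℝ)..π, (av μ Λ (cl α (S α τ)) - 1) := by
  have := hμ.prob
  have hαm : α ∈ Ico 0 R := ⟨hα.1.le, hα.2⟩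
  have hFc := comp_cont hR hΛ.cont hα hd1
  have hLc : Continuous (fun z : ℝ × Fr d => Λ (cl α (S α z.1)) (vecF z.2 0)) := by
    have h := (clamp_cont' hαm hΛ.cont).comp
      (((continuous_S α).comp (continuous_fst (X := ℝ) (Y := Fr d))).prodMk
        ((continuous_vecF 0).comp continuous_snd))
    exact h
  have hh : Continuous (fun τ => av μ Λ (cl α (S α τ)) - 1) :=
    ((av_cl_cont hΛ.cont hαm).comp (continuous_S α)).sub continuous_const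
  have h1 := abs_deficit (K := 1) hFc hLc hLc hh (fun b => curve_lam hR hS hΛ hα hd1 b)
    (fun τ => avg_lam hA hμ hR hΛ.cont hα hd1 τ) (fun τ => by
      show av μ Λ (cl α (S α τ)) = 1 + 1 * (av μ Λ (cl α (S α τ)) - 1)
      ring)
  simpa using h1

/-- The weighted difference. -/
noncomputable def wl (μ : Measure (Fr d)) (Λ : ℝ → E d → ℝ) (A s : ℝ) : ℝ :=
  Real.cos (cl A s) * (av μ Λ (cl A s) - 1)

lemma H_lam (hA : T_AVGE) (hI : T_INV2) {μ : Measure (Fr d)} (hμ : IsFrameMeasure d μ)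
    (hd1 : 1 ≤ d) {R : ℝ} (hR : R ≤ π / 2) {m : Met d} (hS : NonShort R m) {Λ : ℝ → E d → ℝ}
    (hΛ : Dom R m Λ) {A : ℝ} (hAm : A ∈ Ico 0 R) {ρ : ℝ} (hρ : ρ ∈ Icc 0 A) :
    0 ≤ ∫ t in (0 : ℝ)..ρ, wl μ Λ A t := by
  have := hμ.prob
  have hcc : ∀ A ∈ Ico 0 R, Continuous fun s => Real.cos (cl A s) ^ 2 := fun A _ =>
    (Real.continuous_cos.comp (continuous_cl A)).pow 2
  have hco : ContinuousOn (fun s => Real.cos s ^ 2) (Ico 0 R) :=
    (Real.continuous_cos.pow 2).continuousOn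
  have hkey : ∀ α ∈ Ioo 0 R, 0 ≤ ∫ τ in (0 : ℝ)..π, 1 / C α τ ^ 2 *
      (Real.cos (cl α (S α τ)) ^ 2 * av μ Λ (cl α (S α τ)) - Real.cos (cl α (S α τ)) ^ 2) := by
    intro α hα
    have h1 := one_angle hA hμ hd1 hR hS hΛ hα
    refine h1.trans (le_of_eq ?_)
    refine intervalIntegral.integral_congr fun τ hτ => ?_
    rw [uIcc_of_le Real.pi_pos.le] at hτ
    have h2 := C_pos (mem_half hR hα) τ
    have h3 : Real.cos (cl α (S α τ)) = C α τ := by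
      rw [cl_eq (S_mem (mem_half hR hα) hτ), cos_S]
    simp only [h3]
    field_simp
  have h := gen_H hI hR (u₁ := fun s => Real.cos s ^ 2) (u₂ := fun s => Real.cos s ^ 2 * av μ Λ s)
    hcc (fun A hA => (hcc A hA).mul (av_cl_cont hΛ.cont hA)) hco
    (hco.mul (av_contOn hΛ.cont)) (fun s _ => sq_nonneg _)
    (fun s hs => mul_nonneg (sq_nonneg _) (av_nonneg hΛ.nonneg hs)) hkey hAm hρ
  refine h.trans (le_of_eq ?_)
  refine intervalIntegral.integral_congr fun t _ => ?_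
  have h1 := cos_cl_pos hR hAm t
  simp only [wl]
  field_simp

/-- The excess in the inequality of Bernoulli. -/
noncomputable def bern (d : ℕ) (t : ℝ) : ℝ := t ^ (d + 1) - 1 - (d + 1) * (t - 1)

lemma bern_nonneg {t : ℝ} (ht : 0 ≤ t) : 0 ≤ bern d t := by
  unfold bern
  have h := one_add_mul_le_pow (a := t - 1) (by linarith) (d + 1)
  push_cast at h
  have e : 1 + (t - 1) = t := by ring
  rw [e] at h
  linarith

lemma bern_zero (hd : 1 ≤ d) {t : ℝ} (ht : 0 ≤ t) (h : bern d t = 0) : t = 1 := by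
  by_contra hne
  have hd0 : (1 : ℝ) ≤ d := by exact_mod_cast hd
  have h1 := one_add_mul_self_lt_rpow_one_add (s := t - 1) (by linarith) (sub_ne_zero.2 hne)
    (p := ((d + 1 : ℕ) : ℝ)) (by push_cast; linarith)
  rw [Real.rpow_natCast] at h1
  have e : 1 + (t - 1) = t := by ring
  rw [e] at h1
  push_cast at h1
  unfold bern at h
  linarith

/-- The volume density. -/
noncomputable def F3 (Λ : ℝ → E d → ℝ) (s : ℝ) (x : E d) : ℝ :=
  Λ s x ^ (d + 1) * Real.cos s ^ d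

/-- The excess density. -/
noncomputable def F2 (Λ : ℝ → E d → ℝ) (s : ℝ) (x : E d) : ℝ := bern d (Λ s x) * Real.cos s ^ d

lemma cosd_cont {R : ℝ} : ContinuousOn (fun p : ℝ × E d => Real.cos p.1 ^ d)
    (Ico 0 R ×ˢ sphere 0 1) :=
  ((Real.continuous_cos.comp continuous_fst).pow d).continuousOn

lemma F3_cont {R : ℝ} {Λ : ℝ → E d → ℝ} (hc : ContC R Λ) : ContC R (F3 Λ) :=
  ContinuousOn.mul (ContinuousOn.pow hc (d + 1)) cosd_cont

lemma F2_cont {R : ℝ} {Λ : ℝ → E d → ℝ} (hc : ContC R Λ) : ContC R (F2 Λ) := by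
  have h : ContinuousOn (fun p : ℝ × E d => Λ p.1 p.2) (Ico 0 R ×ˢ sphere 0 1) := hc
  exact ContinuousOn.mul (((h.pow (d + 1)).sub continuousOn_const).sub
    (continuousOn_const.mul (h.sub continuousOn_const))) cosd_cont

lemma cos_pos' {R : ℝ} (hR : R ≤ π / 2) {s : ℝ} (hs : s ∈ Ico 0 R) : 0 < Real.cos s :=
  Real.cos_pos_of_mem_Ioo ⟨by linarith [hs.1, Real.pi_pos], hs.2.trans_le hR⟩

lemma F2_nonneg {R : ℝ} (hR : R ≤ π / 2) {m : Met d} {Λ : ℝ → E d → ℝ} (hΛ : Dom R m Λ) :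
    ∀ s ∈ Ico 0 R, ∀ x ∈ sphere (0 : E d) 1, 0 ≤ F2 Λ s x := fun s hs x hx =>
  mul_nonneg (bern_nonneg (hΛ.nonneg s hs x hx)) (pow_nonneg (cos_pos' hR hs).le _)

lemma F3_nonneg {R : ℝ} (hR : R ≤ π / 2) {m : Met d} {Λ : ℝ → E d → ℝ} (hΛ : Dom R m Λ) :
    ∀ s ∈ Ico 0 R, ∀ x ∈ sphere (0 : E d) 1, 0 ≤ F3 Λ s x := fun s hs x hx =>
  mul_nonneg (pow_nonneg (hΛ.nonneg s hs x hx) _) (pow_nonneg (cos_pos' hR hs).le _)

lemma av_F2 {μ : Measure (Fr d)} [IsProbabilityMeasure μ] {R : ℝ} {Λ : ℝ → E d → ℝ}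
    (hc : ContC R Λ) {s : ℝ} (hs : s ∈ Ico 0 R) :
    av μ (F2 Λ) s = av μ (F3 Λ) s - Real.cos s ^ d -
      (d + 1) * (Real.cos s ^ d * (av μ Λ s - 1)) := by
  have i1 : Integrable (fun b : Fr d => F3 Λ s (vecF b 0)) μ :=
    Pool.Agent.Y249.HC.integ μ _ ((slice_cont (F3_cont hc) hs).comp (continuous_vecF 0))
  have i2 : Integrable (fun b : Fr d => Λ s (vecF b 0)) μ :=
    Pool.Agent.Y249.HC.integ μ _ ((slice_cont hc hs).comp (continuous_vecF 0))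
  have i3 : Integrable (fun b : Fr d => (((d : ℝ) + 1) * Real.cos s ^ d) * Λ s (vecF b 0)) μ :=
    i2.const_mul _
  have e : ∫ b : Fr d, F2 Λ s (vecF b 0) ∂μ = ∫ b : Fr d, (F3 Λ s (vecF b 0) -
      (((d : ℝ) + 1) * Real.cos s ^ d) * Λ s (vecF b 0) + d * Real.cos s ^ d) ∂μ := by
    refine integral_congr_ae (Filter.Eventually.of_forall fun b => ?_)
    simp only [F2, F3, bern]
    ring
  have i4 : Integrable (fun b : Fr d => F3 Λ s (vecF b 0) -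
      (((d : ℝ) + 1) * Real.cos s ^ d) * Λ s (vecF b 0)) μ := i1.sub i3
  unfold av
  rw [e, integral_add i4 (integrable_const _), integral_sub i1 i3, integral_const_mul,
    integral_const]
  simp only [probReal_univ, one_smul]
  ring

lemma int_ge (hA : T_AVGE) (hI : T_INV2) {μ : Measure (Fr d)} (hμ : IsFrameMeasure d μ)
    (hd1 : 1 ≤ d) {R : ℝ} (hR : R ≤ π / 2) {m : Met d} (hS : NonShort R m) {Λ : ℝ → E d → ℝ}
    (hΛ : Dom R m Λ) {ρ A : ℝ} (hρ : 0 ≤ ρ) (hρA : ρ ≤ A) (hAR : A < R) :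
    (∫ s in (0 : ℝ)..ρ, av μ (F2 Λ) (cl ρ s)) + ∫ s in (0 : ℝ)..A, Real.cos s ^ d ≤
      ∫ s in (0 : ℝ)..A, av μ (F3 Λ) (cl A s) := by
  have := hμ.prob
  have hAm : A ∈ Ico 0 R := ⟨hρ.trans hρA, hAR⟩
  have hwc : Continuous (wl μ Λ A) := (Real.continuous_cos.comp (continuous_cl A)).mul
    ((av_cl_cont hΛ.cont hAm).sub continuous_const)
  have h1 := pow_nonneg_int hwc hAm.1 (hAR.le.trans hR)
    (fun s hs => H_lam hA hI hμ hd1 hR hS hΛ hAm hs) (d - 1)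
  have g2c : Continuous (fun s => av μ (F2 Λ) (cl A s)) := av_cl_cont (F2_cont hΛ.cont) hAm
  have g3c : Continuous (fun s => av μ (F3 Λ) (cl A s)) := av_cl_cont (F3_cont hΛ.cont) hAm
  have c1 : Continuous (fun s : ℝ => Real.cos s ^ d) := Real.continuous_cos.pow d
  have c2 : Continuous (fun s : ℝ => ((d : ℝ) + 1) * (Real.cos s ^ (d - 1) * wl μ Λ A s)) :=
    continuous_const.mul ((Real.continuous_cos.pow _).mul hwc)
  have c3 : Continuous (fun s => av μ (F3 Λ) (cl A s) - Real.cos s ^ d) := g3c.sub c1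
  have h2 : ∫ s in (0 : ℝ)..A, av μ (F2 Λ) (cl A s) =
      (∫ s in (0 : ℝ)..A, av μ (F3 Λ) (cl A s)) - (∫ s in (0 : ℝ)..A, Real.cos s ^ d) -
        ((d : ℝ) + 1) * ∫ s in (0 : ℝ)..A, Real.cos s ^ (d - 1) * wl μ Λ A s := by
    rw [← intervalIntegral.integral_const_mul,
      ← intervalIntegral.integral_sub (g3c.intervalIntegrable 0 A) (c1.intervalIntegrable 0 A),
      ← intervalIntegral.integral_sub (c3.intervalIntegrable 0 A)
        (c2.intervalIntegrable 0 A)]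
    refine intervalIntegral.integral_congr fun s hs => ?_
    rw [uIcc_of_le hAm.1] at hs
    have h3 : s ∈ Ico 0 R := ⟨hs.1, hs.2.trans_lt hAR⟩
    simp only [wl, cl_eq hs]
    rw [av_F2 hΛ.cont h3]
    have e : Real.cos s ^ d = Real.cos s ^ (d - 1) * Real.cos s := by
      rw [← pow_succ]; congr 1; omega
    rw [e]
    ring
  have h4 : (∫ s in (0 : ℝ)..ρ, av μ (F2 Λ) (cl ρ s)) ≤
      ∫ s in (0 : ℝ)..A, av μ (F2 Λ) (cl A s) := by
    have e1 : ∫ s in (0 : ℝ)..ρ, av μ (F2 Λ) (cl ρ s) =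
        ∫ s in (0 : ℝ)..ρ, av μ (F2 Λ) (cl A s) := by
      refine intervalIntegral.integral_congr fun s hs => ?_
      rw [uIcc_of_le hρ] at hs
      simp only [cl_eq hs, cl_eq (⟨hs.1, hs.2.trans hρA⟩ : s ∈ Icc 0 A)]
    rw [e1]
    exact intervalIntegral.integral_mono_interval le_rfl hρ hρA
      (Filter.Eventually.of_forall fun s => av_nonneg (F2_nonneg hR hΛ) (cl_mem' hAm s))
      (g2c.intervalIntegrable 0 A)
  have h5 : 0 ≤ ((d : ℝ) + 1) * ∫ s in (0 : ℝ)..A, Real.cos s ^ (d - 1) * wl μ Λ A s :=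
    mul_nonneg (by positivity) h1
  linarith

lemma lint_lam (hA : T_AVGE) (hI : T_INV2) {μ : Measure (Fr d)} (hμ : IsFrameMeasure d μ)
    (hd1 : 1 ≤ d) {R : ℝ} (hR : R ≤ π / 2) {m : Met d} (hS : NonShort R m) {Λ : ℝ → E d → ℝ}
    (hΛ : Dom R m Λ) {ρ : ℝ} (hρ : 0 ≤ ρ) (hρR : ρ < R) :
    ENNReal.ofReal ((∫ s in (0 : ℝ)..ρ, av μ (F2 Λ) (cl ρ s)) +
      ∫ s in (0 : ℝ)..R, Real.cos s ^ d) ≤ ∫⁻ s in Ioo 0 R, avI μ R (F3 Λ) s := by
  have := hμ.prob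
  have hH : ∀ s : ℝ, HasDerivAt (fun A => ∫ s in (0 : ℝ)..A, Real.cos s ^ d) (Real.cos s ^ d) s :=
    fun s => (Real.continuous_cos.pow d).integral_hasStrictDerivAt 0 s |>.hasDerivAt
  have hc : ContinuousAt (fun A => ENNReal.ofReal ((∫ s in (0 : ℝ)..ρ, av μ (F2 Λ) (cl ρ s)) +
      ∫ s in (0 : ℝ)..A, Real.cos s ^ d)) R := by
    refine ENNReal.continuous_ofReal.continuousAt.comp ?_
    exact continuousAt_const.add (hH R).continuousAt
  refine le_of_tendsto (hc.tendsto.mono_left (nhdsWithin_le_nhds (s := Iio R))) ?_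
  filter_upwards [Ioo_mem_nhdsLT hρR] with A hAA
  have hAm : A ∈ Ico 0 R := ⟨hρ.trans hAA.1.le, hAA.2⟩
  have h1 := int_ge hA hI hμ hd1 hR hS hΛ hρ hAA.1.le hAA.2
  refine (ENNReal.ofReal_le_ofReal h1).trans ?_
  rw [intervalIntegral.integral_of_le hAm.1, integral_Ioc_eq_integral_Ioo,
    ofReal_integral_eq_lintegral_ofReal]
  · refine le_trans (le_of_eq ?_) (lintegral_mono_set (Ioo_subset_Ioo_right hAA.2.le))
    refine setLIntegral_congr_fun measurableSet_Ioo fun s hs => ?_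
    have h3 : s ∈ Ico 0 R := ⟨hs.1.le, hs.2.trans hAA.2⟩
    simp only [avI]
    rw [indicator_of_mem h3, cl_eq ⟨hs.1.le, hs.2.le⟩]
  · exact ((av_cl_cont (F3_cont hΛ.cont) hAm).integrableOn_Icc (a := 0) (b := A)).mono_set
      Ioo_subset_Icc_self
  · exact Filter.Eventually.of_forall fun s => av_nonneg (F3_nonneg hR hΛ) (cl_mem' hAm s)

/-- The inequality. -/
theorem lam_ge (hF : T_FRAME) (hA : T_AVGE) (hI : T_INV2) (hd1 : 1 ≤ d) {R : ℝ} (hR0 : 0 < R)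
    (hR : R ≤ π / 2) {m : Met d} (hS : NonShort R m) {Λ : ℝ → E d → ℝ} (hΛ : Dom R m Λ) :
    hemiCollar d R ≤
      ∫⁻ s in Ioo 0 R, ∫⁻ x : Sph d, ENNReal.ofReal (Λ s x ^ (d + 1) * Real.cos s ^ d) ∂(σ d) := by
  obtain ⟨μ, hμ⟩ := hF d
  have h := lint_av hμ (F3_cont hΛ.cont) (F3_nonneg hR hΛ)
  have h' : ∫⁻ s in Ioo 0 R, ∫⁻ x : Sph d,
      ENNReal.ofReal (Λ s x ^ (d + 1) * Real.cos s ^ d) ∂(σ d) =
      (σ d) univ * ∫⁻ s in Ioo 0 R, avI μ R (F3 Λ) s := h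
  rw [h']
  unfold hemiCollar
  refine mul_le_mul_right ?_ _
  refine le_trans ?_ (lint_lam hA hI hμ hd1 hR hS hΛ le_rfl hR0)
  refine ENNReal.ofReal_le_ofReal ?_
  rw [intervalIntegral.integral_same, zero_add]

/-- The case of equality. -/
theorem lam_eq (hF : T_FRAME) (hA : T_AVGE) (hI : T_INV2) (hO : T_POS) (hd1 : 1 ≤ d) {R : ℝ}
    (hR0 : 0 < R) (hR : R ≤ π / 2) {m : Met d} (hS : NonShort R m) {Λ : ℝ → E d → ℝ}
    (hΛ : Dom R m Λ)
    (h : ∫⁻ s in Ioo 0 R, ∫⁻ x : Sph d,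
      ENNReal.ofReal (Λ s x ^ (d + 1) * Real.cos s ^ d) ∂(σ d) = hemiCollar d R) :
    ∀ s ∈ Ico 0 R, ∀ x ∈ sphere (0 : E d) 1, Λ s x = 1 := by
  obtain ⟨μ, hμ⟩ := hF d
  have := hμ.prob
  have h' : ∫⁻ s in Ioo 0 R, ∫⁻ x : Sph d,
      ENNReal.ofReal (Λ s x ^ (d + 1) * Real.cos s ^ d) ∂(σ d) =
      (σ d) univ * ∫⁻ s in Ioo 0 R, avI μ R (F3 Λ) s :=
    lint_av hμ (F3_cont hΛ.cont) (F3_nonneg hR hΛ)
  rw [h', hemiCollar] at h
  have h1 : ∫⁻ s in Ioo 0 R, avI μ R (F3 Λ) s =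
      ENNReal.ofReal (∫ θ in (0 : ℝ)..R, Real.cos θ ^ d) :=
    (ENNReal.mul_right_inj sigma_ne_zero (measure_ne_top _ _)).1 h
  have hI0 : 0 ≤ ∫ θ in (0 : ℝ)..R, Real.cos θ ^ d := by
    refine intervalIntegral.integral_nonneg hR0.le fun s hs => ?_
    exact pow_nonneg (Real.cos_nonneg_of_mem_Icc
      ⟨by linarith [hs.1, Real.pi_pos], by linarith [hs.2]⟩) _
  intro s hs x hx
  obtain ⟨ρ, hρ1, hρ2⟩ := exists_between hs.2
  have hρ0 : 0 < ρ := hs.1.trans_lt hρ1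
  have hρm : ρ ∈ Ico 0 R := ⟨hρ0.le, hρ2⟩
  have h3 := lint_lam hA hI hμ hd1 hR hS hΛ hρ0.le hρ2
  rw [h1, ENNReal.ofReal_le_ofReal_iff hI0] at h3
  have h4 : ∫ s in (0 : ℝ)..ρ, av μ (F2 Λ) (cl ρ s) ≤ 0 := by linarith
  have gc : Continuous (fun s => av μ (F2 Λ) (cl ρ s)) := av_cl_cont (F2_cont hΛ.cont) hρm
  have h5 : av μ (F2 Λ) s = 0 := by
    have h6 := av_nonneg (μ := μ) (F2_nonneg hR hΛ) hs
    by_contra hne
    have h7 : 0 < av μ (F2 Λ) s := lt_of_le_of_ne h6 (Ne.symm hne)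
    have h8 := intervalIntegral.integral_pos hρ0 gc.continuousOn
      (fun t _ => av_nonneg (F2_nonneg hR hΛ) (cl_mem' hρm t))
      ⟨s, ⟨hs.1, hρ1.le⟩, by rw [cl_eq ⟨hs.1, hρ1.le⟩]; exact h7⟩
    linarith
  have h6 := hO d μ hμ (fun b => F2 Λ s (vecF b 0))
    ((slice_cont (F2_cont hΛ.cont) hs).comp (continuous_vecF 0))
    (fun b => F2_nonneg hR hΛ s hs _ (vecF b 0).2) h5
  obtain ⟨b, hb⟩ := frame_one x (mem_sphere_zero_iff_norm.1 hx)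
  have h7 := h6 b
  have h8 : (vecF b 0 : E d) = x := hb
  simp only [h8, F2] at h7
  exact bern_zero hd1 (hΛ.nonneg s hs x hx)
    ((mul_eq_zero.1 h7).resolve_right (pow_pos (cos_pos' hR hs) _).ne')

end Pool.Agent.Y499.HK
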