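import Pool.Agent.Y499.HC.Conf2

set_option autoImplicit false
set_option maxHeartbeats 400000

open Real Set MeasureTheory Metric Filter Topology
open scoped ENNReal

namespace Pool.Agent.Y499.HK

open Pool.Agent.Y499.HC Pool.Agent.Y499.HR

variable {d : ℕ}

/-- The determinant of the quadratic form of the metric `m` at `(s, x)` on the tangent space
`ℝ × xᗮ` of the collar, with respect to orthonormal bases: the determinant of the block matrix with
the blocks `a`, `P β` (twice) and `P g P + x xᵀ`, `P = 1 - x xᵀ`. -/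
noncomputable def detM {d : ℕ} (m : Met d) (s : ℝ) (x : EuclideanSpace ℝ (Fin (d + 1))) : ℝ :=
  (Matrix.fromBlocks (Matrix.of fun (_ _ : Unit) => m.a s x)
    (Matrix.of fun (_ : Unit) j => m.β s x j - inner ℝ x (m.β s x) * x j)
    (Matrix.of fun i (_ : Unit) => m.β s x i - inner ℝ x (m.β s x) * x i)
    ((1 - Matrix.of fun i j => x i * x j) * m.g s x * (1 - Matrix.of fun i j => x i * x j) +
      Matrix.of fun i j => x i * x j)).det

/-- The Riemannian volume of the collar `[0, R) × S^d`. -/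
noncomputable def volM {d : ℕ} (R : ℝ) (m : Met d) : ℝ≥0∞ :=
  ∫⁻ s in Ioo 0 R, ∫⁻ x : Sph d, ENNReal.ofReal (√(detM m s x)) ∂(σ d)

/-- The metric `m` is `φ²` times the round metric `ds² + cos² s g_round` of the hemisphere, where
`φ` is nonnegative and continuous. -/
structure Conformal {d : ℕ} (R : ℝ) (m : Met d) (φ : ℝ → EuclideanSpace ℝ (Fin (d + 1)) → ℝ) :
    Prop where
  symm : ∀ s ∈ Ico 0 R, ∀ x ∈ sphere (0 : EuclideanSpace ℝ (Fin (d + 1))) 1,
    (m.g s x).IsSymm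
  cont : ContinuousOn (fun p : ℝ × EuclideanSpace ℝ (Fin (d + 1)) => φ p.1 p.2)
    (Ico 0 R ×ˢ sphere 0 1)
  nonneg : ∀ s ∈ Ico 0 R, ∀ x ∈ sphere (0 : EuclideanSpace ℝ (Fin (d + 1))) 1, 0 ≤ φ s x
  eq : ∀ s ∈ Ico 0 R, ∀ x ∈ sphere (0 : EuclideanSpace ℝ (Fin (d + 1))) 1,
    ∀ (p : ℝ) (v : EuclideanSpace ℝ (Fin (d + 1))), inner ℝ x v = 0 →
      m.sq s x p v = φ s x ^ 2 * (p ^ 2 + Real.cos s ^ 2 * ‖v‖ ^ 2)

lemma Conformal.dom {R : ℝ} {m : Met d} {φ : ℝ → E d → ℝ} (h : Conformal R m φ) : Dom R m φ :=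
  ⟨h.cont, h.nonneg, fun s hs x hx p v hv => (h.eq s hs x hx p v hv).le⟩

lemma detM_conf (hD : T_DET) {R : ℝ} {m : Met d} {φ : ℝ → E d → ℝ} (hm : Conformal R m φ) {s : ℝ}
    (hs : s ∈ Ico 0 R) {x : E d} (hx : x ∈ sphere (0 : E d) 1) :
    detM m s x = φ s x ^ 2 * ((φ s x * Real.cos s) ^ 2) ^ d := by
  have hx1 : ‖x‖ = 1 := mem_sphere_zero_iff_norm.1 hx
  have hxx : inner ℝ x x = (1 : ℝ) := by rw [real_inner_self_eq_norm_sq, hx1, one_pow]
  have ha : m.a s x = φ s x ^ 2 := by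
    have h := hm.eq s hs x hx 1 0 (inner_zero_right _)
    simpa [Met.sq, quad] using h
  have hq : ∀ v : E d, inner ℝ x v = 0 →
      quad (m.g s x) v = (φ s x * Real.cos s) ^ 2 * ‖v‖ ^ 2 := by
    intro v hv
    have h := hm.eq s hs x hx 0 v hv
    unfold Met.sq at h
    linear_combination h
  have hβ : ∀ v : E d, inner ℝ x v = 0 → inner ℝ (m.β s x) v = (0 : ℝ) := by
    intro v hv
    have h := hm.eq s hs x hx 1 v hv
    unfold Met.sq at h
    rw [ha, hq v hv] at h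
    linear_combination h / 2
  obtain ⟨w, hw⟩ : ∃ w : E d, w = m.β s x - (inner ℝ x (m.β s x) : ℝ) • x := ⟨_, rfl⟩
  have h1 : inner ℝ x w = (0 : ℝ) := by
    rw [hw, inner_sub_right, real_inner_smul_right, hxx]
    ring
  have h2 : inner ℝ w w = (0 : ℝ) := by
    have e : inner ℝ w w = inner ℝ (m.β s x) w - inner ℝ x (m.β s x) * inner ℝ x w := by
      conv_lhs => rw [hw]
      conv_rhs => rw [hw]
      rw [inner_sub_left, real_inner_smul_left]
    rw [e, hβ w h1, h1]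
    ring
  have h3 : w = 0 := inner_self_eq_zero.1 h2
  have hP : ∀ i, m.β s x i - inner ℝ x (m.β s x) * x i = 0 := by
    intro i
    have h4 := congrArg (fun v : E d => v i) (hw.symm.trans h3)
    simpa using h4
  have e1 : (Matrix.of fun (_ : Unit) j => m.β s x j - inner ℝ x (m.β s x) * x j) =
      (0 : Matrix Unit (Fin (d + 1)) ℝ) := by
    ext _ j
    exact hP j
  have e2 : (Matrix.of fun i (_ : Unit) => m.β s x i - inner ℝ x (m.β s x) * x i) =
      (0 : Matrix (Fin (d + 1)) Unit ℝ) := by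
    ext i _
    exact hP i
  have h5 := (hD d (m.g s x) (hm.symm s hs x hx) x hx1 (φ s x * Real.cos s) hq).2
  unfold detTan at h5
  unfold detM
  rw [e1, e2, Matrix.det_fromBlocks_zero₂₁, h5, Matrix.det_unique]
  simp only [Matrix.of_apply]
  rw [ha]

lemma sqrt_conf {R : ℝ} (hR : R ≤ π / 2) {φ s : ℝ} (hφ : 0 ≤ φ) (hs : s ∈ Ico 0 R) :
    √(φ ^ 2 * ((φ * Real.cos s) ^ 2) ^ d) = φ ^ (d + 1) * Real.cos s ^ d := by
  have hc := (cos_pos' hR hs).le
  have e : φ ^ 2 * ((φ * Real.cos s) ^ 2) ^ d = (φ ^ (d + 1) * Real.cos s ^ d) ^ 2 := by ring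
  rw [e, Real.sqrt_sq (by positivity)]

lemma volM_conf (hD : T_DET) {R : ℝ} (hR : R ≤ π / 2) {m : Met d} {φ : ℝ → E d → ℝ}
    (hm : Conformal R m φ) : volM R m =
      ∫⁻ s in Ioo 0 R, ∫⁻ x : Sph d, ENNReal.ofReal (φ s x ^ (d + 1) * Real.cos s ^ d) ∂(σ d) := by
  unfold volM
  refine setLIntegral_congr_fun measurableSet_Ioo fun s hs => ?_
  have hsm : s ∈ Ico 0 R := ⟨hs.1.le, hs.2⟩
  refine lintegral_congr fun x => ?_
  rw [detM_conf hD hm hsm x.2, sqrt_conf hR (hm.nonneg s hsm x x.2) hsm]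

/-- Conformal metrics: the inequality. -/
theorem conf_ge (hF : T_FRAME) (hA : T_AVGE) (hI : T_INV2) (hD : T_DET) (hd1 : 1 ≤ d) {R : ℝ}
    (hR0 : 0 < R) (hR : R ≤ π / 2) {m : Met d} (hS : NonShort R m) {φ : ℝ → E d → ℝ}
    (hm : Conformal R m φ) : hemiCollar d R ≤ volM R m := by
  rw [volM_conf hD hR hm]
  exact lam_ge hF hA hI hd1 hR0 hR hS hm.dom

/-- Conformal metrics: the case of equality. -/
theorem conf_eq (hF : T_FRAME) (hA : T_AVGE) (hI : T_INV2) (hO : T_POS) (hD : T_DET)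
    (hd1 : 1 ≤ d) {R : ℝ} (hR0 : 0 < R) (hR : R ≤ π / 2) {m : Met d} (hS : NonShort R m)
    {φ : ℝ → E d → ℝ} (hm : Conformal R m φ) : volM R m = hemiCollar d R ↔ IsRound R m := by
  constructor
  · intro h
    rw [volM_conf hD hR hm] at h
    have h1 := lam_eq hF hA hI hO hd1 hR0 hR hS hm.dom h
    intro s hs x hx p v hv
    rw [hm.eq s hs x hx p v hv, h1 s hs x hx]
    ring
  · intro h
    rw [volM_conf hD hR hm]
    unfold hemiCollar
    rw [ofReal_int hR0 hR, ← lintegral_const_mul _ (by fun_prop)]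
    refine setLIntegral_congr_fun measurableSet_Ioo fun s hs => ?_
    have hsm : s ∈ Ico 0 R := ⟨hs.1.le, hs.2⟩
    have h1 : ∀ x : Sph d, ENNReal.ofReal (φ s x ^ (d + 1) * Real.cos s ^ d) =
        ENNReal.ofReal (Real.cos s ^ d) := by
      intro x
      have h2 := hm.eq s hsm x x.2 1 0 (inner_zero_right _)
      rw [h s hsm x x.2 1 0 (inner_zero_right _)] at h2
      have h3 : φ s x ^ 2 = 1 := by
        rw [norm_zero] at h2
        linear_combination -h2
      have h4 : φ s x = 1 := by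
        have h5 := hm.nonneg s hsm x x.2
        nlinarith
      rw [h4, one_pow, one_mul]
    simp only [h1]
    rw [lintegral_const, mul_comm]

/-- Quasiconformal metrics. -/
theorem qc_ge (hF : T_FRAME) (hA : T_AVGE) (hI : T_INV2) (hd1 : 1 ≤ d) {R : ℝ} (hR0 : 0 < R)
    (hR : R ≤ π / 2) {m : Met d} (hS : NonShort R m) {Λ : ℝ → E d → ℝ} (hΛ : Dom R m Λ) {K : ℝ}
    (hK : 0 ≤ K) (hq : ∀ s ∈ Ioo 0 R, ∀ x : Sph d,
      Λ s x ^ (d + 1) * Real.cos s ^ d ≤ K * √(detM m s x)) :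
    hemiCollar d R ≤ ENNReal.ofReal K * volM R m := by
  refine (lam_ge hF hA hI hd1 hR0 hR hS hΛ).trans ?_
  unfold volM
  rw [← lintegral_const_mul' _ _ ENNReal.ofReal_ne_top]
  refine setLIntegral_mono' measurableSet_Ioo fun s hs => ?_
  rw [← lintegral_const_mul' _ _ ENNReal.ofReal_ne_top]
  refine lintegral_mono fun x => ?_
  show _ ≤ ENNReal.ofReal K * ENNReal.ofReal _
  rw [← ENNReal.ofReal_mul hK]
  exact ENNReal.ofReal_le_ofReal (hq s hs x)

/-- The area of the round collar. -/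
lemma hemi_one {R : ℝ} (hR0 : 0 < R) (hR : R ≤ π / 2) :
    hemiCollar 1 R = ENNReal.ofReal (2 * π * Real.sin R) := by
  unfold hemiCollar σ
  rw [Measure.toSphere_apply_univ]
  simp only [pow_one, integral_cos, Real.sin_zero, sub_zero]
  have h1 : (volume : Measure (EuclideanSpace ℝ (Fin (1 + 1)))) (ball 0 1) =
      ENNReal.ofReal π := by
    have h := EuclideanSpace.volume_ball_fin_two (0 : EuclideanSpace ℝ (Fin 2)) 1
    simpa using h
  rw [h1]
  have h2 : ((Module.finrank ℝ (EuclideanSpace ℝ (Fin (1 + 1))) : ℕ) : ℝ≥0∞) =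
      ENNReal.ofReal 2 := by
    simp
  rw [h2, ← ENNReal.ofReal_mul (by norm_num), ← ENNReal.ofReal_mul (by positivity)]

end Pool.Agent.Y499.HK
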