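import Pool.Agent.Y499.HC.Tan

set_option autoImplicit false

open Real Set MeasureTheory Metric Filter Topology
open scoped ENNReal

namespace Pool.Agent.Y499.HC

variable {d : ℕ}

/-! ### The curves -/

lemma sin_mul_sq_le (α τ : ℝ) : (Real.sin α * Real.sin τ) ^ 2 ≤ 1 := by
  rw [mul_pow]
  have h1 := Real.sin_sq_le_one α
  have h2 := Real.sin_sq_le_one τ
  nlinarith [sq_nonneg (Real.sin α), sq_nonneg (Real.sin τ)]

lemma C_sq (α τ : ℝ) : C α τ ^ 2 = 1 - (Real.sin α * Real.sin τ) ^ 2 :=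
  Real.sq_sqrt (by linarith [sin_mul_sq_le α τ])

lemma C_pos {α : ℝ} (hα : α ∈ Ioo 0 (π / 2)) (τ : ℝ) : 0 < C α τ := by
  refine Real.sqrt_pos.2 ?_
  have h1 : Real.sin α ^ 2 < 1 := by
    have := Real.cos_pos_of_mem_Ioo ⟨by linarith [hα.1, Real.pi_pos], hα.2⟩
    nlinarith [Real.sin_sq_add_cos_sq α]
  have h2 := Real.sin_sq_le_one τ
  rw [mul_pow]
  nlinarith [sq_nonneg (Real.sin α), sq_nonneg (Real.sin τ)]

lemma cos_S (α τ : ℝ) : Real.cos (S α τ) = C α τ := Real.cos_arcsin _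

lemma continuous_C (α : ℝ) : Continuous (C α) := by
  unfold C
  fun_prop

lemma continuous_S (α : ℝ) : Continuous (S α) :=
  Real.continuous_arcsin.comp (by fun_prop)

lemma S_mem {α : ℝ} (hα : α ∈ Ioo 0 (π / 2)) {τ : ℝ} (hτ : τ ∈ Icc 0 π) : S α τ ∈ Icc 0 α := by
  have h1 : 0 < Real.sin α := Real.sin_pos_of_pos_of_lt_pi hα.1 (by linarith [hα.2, Real.pi_pos])
  have h2 : 0 ≤ Real.sin τ := Real.sin_nonneg_of_nonneg_of_le_pi hτ.1 hτ.2
  refine ⟨Real.arcsin_nonneg.2 (mul_nonneg h1.le h2), ?_⟩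
  unfold S
  refine (Real.arcsin_le_iff_le_sin' ⟨by linarith [hα.1, Real.pi_pos], hα.2⟩).2 ?_
  exact mul_le_of_le_one_right h1.le (Real.sin_le_one τ)

lemma unit_coeff {α : ℝ} (hα : α ∈ Ioo 0 (π / 2)) (τ : ℝ) :
    (Real.cos τ / C α τ) ^ 2 + (Real.cos α * Real.sin τ / C α τ) ^ 2 = 1 := by
  have h := C_pos hα τ
  rw [div_pow, div_pow, ← add_div, C_sq, div_eq_one_iff_eq]
  · have h1 := Real.sin_sq_add_cos_sq α
    have h2 := Real.sin_sq_add_cos_sq τ
    linear_combination (Real.sin τ ^ 2) * h1 + h2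
  · rw [← C_sq]; positivity

lemma unit_speed {α : ℝ} (hα : α ∈ Ioo 0 (π / 2)) (τ : ℝ) :
    (Real.sin α * Real.cos τ / C α τ) ^ 2 + (Real.cos α / C α τ ^ 2) ^ 2 * C α τ ^ 2 = 1 := by
  have h := C_pos hα τ
  have e : (Real.sin α * Real.cos τ / C α τ) ^ 2 + (Real.cos α / C α τ ^ 2) ^ 2 * C α τ ^ 2 =
      ((Real.sin α * Real.cos τ) ^ 2 + Real.cos α ^ 2) / C α τ ^ 2 := by
    field_simp
  rw [e, C_sq, div_eq_one_iff_eq]
  · have h1 := Real.sin_sq_add_cos_sq α
    have h2 := Real.sin_sq_add_cos_sq τ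
    linear_combination (Real.sin α ^ 2) * h2 + h1
  · rw [← C_sq]; positivity

/-! ### Frames -/

instance instCompactFr : CompactSpace (Fr d) := by
  refine isCompact_iff_compactSpace.1 (?_ : IsCompact {b : Fin (d + 1) → E d | Orthonormal ℝ b})
  have hcl : IsClosed {b : Fin (d + 1) → E d | Orthonormal ℝ b} := by
    have : {b : Fin (d + 1) → E d | Orthonormal ℝ b} =
        ⋂ i, ⋂ j, {b : Fin (d + 1) → E d | inner ℝ (b i) (b j) = if i = j then (1 : ℝ) else 0} := by
      ext b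
      simp only [mem_setOf_eq, mem_iInter]
      exact orthonormal_iff_ite
    rw [this]
    refine isClosed_iInter fun i => isClosed_iInter fun j => ?_
    exact isClosed_eq (by fun_prop) continuous_const
  refine IsCompact.of_isClosed_subset (isCompact_univ_pi fun _ => isCompact_closedBall (0 : E d) 1)
    hcl ?_
  intro b hb i _
  rw [mem_closedBall_zero_iff]
  exact (hb.norm_eq_one i).le

lemma continuous_vecF (i : Fin (d + 1)) : Continuous (fun b : Fr d => vecF b i) := by
  refine Continuous.subtype_mk ?_ _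
  exact (continuous_apply i).comp continuous_subtype_val

/-- The point of the curve. -/
noncomputable def XX {α : ℝ} (hα : α ∈ Ioo 0 (π / 2)) (hd : 1 ≤ d) (τ : ℝ) (b : Fr d) : Sph d :=
  ⟨(Real.cos τ / C α τ) • b.1 0 + (Real.cos α * Real.sin τ / C α τ) • b.1 1, by
    rw [mem_sphere_zero_iff_norm]
    have h01 : (0 : Fin (d + 1)) ≠ 1 := by
      obtain ⟨k, rfl⟩ : ∃ k, d = k + 1 := ⟨d - 1, by omega⟩
      exact Fin.zero_ne_one
    have h1 := b.2.norm_eq_one 0
    have h2 := b.2.norm_eq_one 1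
    have h3 : inner ℝ (b.1 0) (b.1 1) = (0 : ℝ) := b.2.inner_eq_zero h01
    have h4 : ‖(Real.cos τ / C α τ) • b.1 0 + (Real.cos α * Real.sin τ / C α τ) • b.1 1‖ ^ 2 = 1 := by
      rw [norm_add_sq_real, inner_smul_left, inner_smul_right, h3, norm_smul, norm_smul, h1, h2,
        mul_one, mul_one, Real.norm_eq_abs, Real.norm_eq_abs, sq_abs, sq_abs]
      have := unit_coeff hα τ
      simp only [mul_zero, add_zero]
      exact this
    nlinarith [norm_nonneg ((Real.cos τ / C α τ) • b.1 0 +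
      (Real.cos α * Real.sin τ / C α τ) • b.1 1)]⟩

lemma continuous_coeff1 {α : ℝ} (hα : α ∈ Ioo 0 (π / 2)) :
    Continuous (fun τ => Real.cos τ / C α τ) :=
  Real.continuous_cos.div (continuous_C α) fun τ => (C_pos hα τ).ne'

lemma continuous_coeff2 {α : ℝ} (hα : α ∈ Ioo 0 (π / 2)) :
    Continuous (fun τ => Real.cos α * Real.sin τ / C α τ) :=
  (continuous_const.mul Real.continuous_sin).div (continuous_C α) fun τ => (C_pos hα τ).ne'

lemma continuous_fst_vec (i : Fin (d + 1)) :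
    Continuous (fun z : ℝ × Fr d => z.2.1 i) :=
  (continuous_apply i).comp (continuous_subtype_val.comp continuous_snd)

lemma continuous_XX {α : ℝ} (hα : α ∈ Ioo 0 (π / 2)) (hd : 1 ≤ d) :
    Continuous (fun z : ℝ × Fr d => XX hα hd z.1 z.2) := by
  refine Continuous.subtype_mk ?_ _
  exact (((continuous_coeff1 hα).comp continuous_fst).smul (continuous_fst_vec 0)).add
    (((continuous_coeff2 hα).comp continuous_fst).smul (continuous_fst_vec 1))

/-! ### The clamped data -/

/-- `s` clamped to `[0, R]`. -/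
noncomputable def cl (R s : ℝ) : ℝ := max 0 (min s R)

lemma continuous_cl (R : ℝ) : Continuous (cl R) := by unfold cl; fun_prop

lemma cl_mem {R : ℝ} (hR : R ∈ Ico 0 (π / 2)) (s : ℝ) : cl R s ∈ Ico 0 (π / 2) :=
  ⟨le_max_left _ _, max_lt (hR.1.trans_lt hR.2) ((min_le_right _ _).trans_lt hR.2)⟩

lemma cl_eq {R s : ℝ} (h : s ∈ Icc 0 R) : cl R s = s := by
  unfold cl
  rw [min_eq_left h.2, max_eq_right h.1]

lemma clamp_cont {R : ℝ} (hR : R ∈ Ico 0 (π / 2)) {Y : Type} [TopologicalSpace Y]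
    {f : ℝ → E d → Y}
    (hf : ContinuousOn (fun p : ℝ × E d => f p.1 p.2) (Ico 0 (π / 2) ×ˢ sphere 0 1)) :
    Continuous (fun p : ℝ × Sph d => f (cl R p.1) p.2) := by
  have h := hf.comp_continuous (f := fun p : ℝ × Sph d => ((cl R p.1, (p.2 : E d)) : ℝ × E d))
    (((continuous_cl R).comp continuous_fst).prodMk (continuous_subtype_val.comp continuous_snd))
    fun p => ⟨cl_mem hR p.1, p.2.2⟩
  exact h

lemma quad_cont {Z : Type} [TopologicalSpace Z] {g : Z → Matrix (Fin (d + 1)) (Fin (d + 1)) ℝ}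
    {v : Z → E d} (hg : Continuous g) (hv : Continuous v) : Continuous (fun z => quad (g z) (v z)) := by
  unfold quad
  refine continuous_finsetSum _ fun i _ => continuous_finsetSum _ fun j _ => ?_
  exact ((hg.matrix_elem i j).mul ((EuclideanSpace.proj i).continuous.comp hv)).mul
    ((EuclideanSpace.proj j).continuous.comp hv)

lemma trTan_cont {Z : Type} [TopologicalSpace Z] {g : Z → Matrix (Fin (d + 1)) (Fin (d + 1)) ℝ}
    {v : Z → E d} (hg : Continuous g) (hv : Continuous v) :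
    Continuous (fun z => trTan (g z) (v z)) := by
  unfold trTan
  exact (continuous_finsetSum _ fun i _ => hg.matrix_elem i i).sub (quad_cont hg hv)

/-- The density of the slice energy. -/
noncomputable def dens (m : Met d) (s : ℝ) (x : Sph d) : ℝ :=
  (trTan (m.g s x) x / d) ^ ((d : ℝ) / 2)

lemma dens_nonneg {m : Met d} (hm : m.Good) {s : ℝ} (hs : s ∈ Ico 0 (π / 2)) (x : Sph d) :
    0 ≤ dens m s x :=
  Real.rpow_nonneg (div_nonneg (trTan_nonneg hm hs x) (Nat.cast_nonneg _)) _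

lemma dens_cont {m : Met d} (hm : m.Good) {R : ℝ} (hR : R ∈ Ico 0 (π / 2)) :
    Continuous (fun p : ℝ × Sph d => dens m (cl R p.1) p.2) := by
  unfold dens
  refine Continuous.rpow_const ?_ fun p => Or.inr (by positivity)
  exact (trTan_cont (clamp_cont hR hm.cont_g)
    (continuous_subtype_val.comp continuous_snd)).div_const _

/-- The mean of the slice energy. -/
noncomputable def mean (μ : Measure (Fr d)) (m : Met d) (s : ℝ) : ℝ :=
  ∫ b, dens m s (vecF b 0) ∂μ

lemma mean_cl_cont {μ : Measure (Fr d)} [IsProbabilityMeasure μ] {m : Met d} (hm : m.Good)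
    {R : ℝ} (hR : R ∈ Ico 0 (π / 2)) : Continuous (fun s => mean μ m (cl R s)) := by
  unfold mean
  have h1 := continuous_parametric_integral_of_continuous (μ := μ)
    (f := fun (s : ℝ) (b : Fr d) => dens m (cl R s) (vecF b 0)) (by
      exact (dens_cont hm hR).comp (continuous_fst.prodMk ((continuous_vecF 0).comp continuous_snd)))
    (s := univ) isCompact_univ
  simpa only [Measure.restrict_univ] using h1

lemma mean_nonneg {μ : Measure (Fr d)} {m : Met d} (hm : m.Good)
    {s : ℝ} (hs : s ∈ Ico 0 (π / 2)) : 0 ≤ mean μ m s :=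
  integral_nonneg fun _ => dens_nonneg hm hs _

end Pool.Agent.Y499.HC
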