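import Pool.Agent.Y499.HC.Stm

/-! # Project HC, second part: collars of arbitrary width `R ≤ π/2`, and the case of equality -/

set_option autoImplicit false

open Real Set MeasureTheory Metric
open scoped ENNReal

namespace Pool.Agent.Y499.HR

open Pool.Agent.Y499.HC

/-- `m` is a continuous field of symmetric positive semidefinite quadratic forms on the tangent
spaces of the collar `[0, R) × S^d`, and `∂/∂s` has length at most one. -/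
structure Good {d : ℕ} (R : ℝ) (m : Met d) : Prop where
  cont_a : ContinuousOn (fun p : ℝ × EuclideanSpace ℝ (Fin (d + 1)) => m.a p.1 p.2)
    (Ico 0 R ×ˢ sphere 0 1)
  cont_β : ContinuousOn (fun p : ℝ × EuclideanSpace ℝ (Fin (d + 1)) => m.β p.1 p.2)
    (Ico 0 R ×ˢ sphere 0 1)
  cont_g : ContinuousOn (fun p : ℝ × EuclideanSpace ℝ (Fin (d + 1)) => m.g p.1 p.2)
    (Ico 0 R ×ˢ sphere 0 1)
  symm : ∀ s ∈ Ico 0 R, ∀ x ∈ sphere (0 : EuclideanSpace ℝ (Fin (d + 1))) 1,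
    (m.g s x).IsSymm
  nonneg : ∀ s ∈ Ico 0 R, ∀ x ∈ sphere (0 : EuclideanSpace ℝ (Fin (d + 1))) 1,
    ∀ (p : ℝ) (v : EuclideanSpace ℝ (Fin (d + 1))), inner ℝ x v = 0 → 0 ≤ m.sq s x p v
  lapse : ∀ s ∈ Ico 0 R, ∀ x ∈ sphere (0 : EuclideanSpace ℝ (Fin (d + 1))) 1, m.a s x ≤ 1

/-- Every `C¹` curve in the collar `[0, R) × S^d` which joins two antipodal points of the boundary
sphere `s = 0` has length at least `π`. -/
def NonShort {d : ℕ} (R : ℝ) (m : Met d) : Prop :=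
  ∀ (l : ℝ) (s : ℝ → ℝ) (y : ℝ → EuclideanSpace ℝ (Fin (d + 1))), 0 < l → ContDiff ℝ 1 s →
    ContDiff ℝ 1 y → (∀ t ∈ Icc 0 l, s t ∈ Ico 0 R) → (∀ t, y t ∈ sphere 0 1) → s 0 = 0 →
    s l = 0 → y l = -y 0 →
    π ≤ ∫ t in (0 : ℝ)..l, √(m.sq (s t) (y t) (deriv s t) (deriv y t))

/-- The integral over the collar of the slice energies `(tr g_s / d)^(d/2)`. -/
noncomputable def energy {d : ℕ} (R : ℝ) (m : Met d) : ℝ≥0∞ :=
  ∫⁻ s in Ioo 0 R, ∫⁻ x : Sph d, ENNReal.ofReal ((trTan (m.g s x) x / d) ^ ((d : ℝ) / 2)) ∂(σ d)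

/-- The coordinate `s` is the distance from the boundary: `m = ds² + g_s`. -/
def Fermi {d : ℕ} (R : ℝ) (m : Met d) : Prop :=
  ∀ s ∈ Ico 0 R, ∀ x ∈ sphere (0 : EuclideanSpace ℝ (Fin (d + 1))) 1,
    m.a s x = 1 ∧ ∀ v : EuclideanSpace ℝ (Fin (d + 1)), inner ℝ x v = 0 → inner ℝ (m.β s x) v = 0

/-- The volume of the collar for a metric `ds² + g_s`. -/
noncomputable def vol {d : ℕ} (R : ℝ) (m : Met d) : ℝ≥0∞ :=
  ∫⁻ s in Ioo 0 R, ∫⁻ x : Sph d, ENNReal.ofReal (√(detTan (m.g s x) x)) ∂(σ d)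

/-- The volume `vol(S^d) ∫_0^R cos^d` of the collar of width `R` of the boundary of the round
hemisphere of dimension `d + 1`. -/
noncomputable def hemiCollar (d : ℕ) (R : ℝ) : ℝ≥0∞ :=
  (σ d) univ * ENNReal.ofReal (∫ θ in (0 : ℝ)..R, Real.cos θ ^ d)

/-- The metric is the round metric `ds² + cos² s g_round` of the hemisphere. -/
def IsRound {d : ℕ} (R : ℝ) (m : Met d) : Prop :=
  ∀ s ∈ Ico 0 R, ∀ x ∈ sphere (0 : EuclideanSpace ℝ (Fin (d + 1))) 1,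
    ∀ (p : ℝ) (v : EuclideanSpace ℝ (Fin (d + 1))), inner ℝ x v = 0 →
      m.sq s x p v = p ^ 2 + Real.cos s ^ 2 * ‖v‖ ^ 2

/-- JOB HC-POS: the uniform measure on the frames has full support. -/
def T_POS : Prop := ∀ (d : ℕ) (μ : Measure (Fr d)), IsFrameMeasure d μ →
  ∀ f : Fr d → ℝ, Continuous f → (∀ b, 0 ≤ f b) → ∫ b, f b ∂μ = 0 → ∀ b, f b = 0

/-- JOB HC-PTW: the pointwise inequality and its case of equality. -/
def T_PTW : Prop := ∀ (d : ℕ), 2 ≤ d → ∀ (a p q c : ℝ) (β g : Fin d → ℝ), a ≤ 1 → 0 < c →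
  p ^ 2 + q ^ 2 * c ^ 2 = 1 → (∀ i, 0 ≤ g i) →
  (∀ i, 0 ≤ a * p ^ 2 + 2 * p * q * β i + q ^ 2 * g i) →
  (∀ i, 0 ≤ a * p ^ 2 - 2 * p * q * β i + q ^ 2 * g i) →
  1 / (2 * d) * ∑ i, (√(a * p ^ 2 + 2 * p * q * β i + q ^ 2 * g i) +
      √(a * p ^ 2 - 2 * p * q * β i + q ^ 2 * g i)) ≤
    1 + q ^ 2 / (d * c ^ (d - 2)) * (((∑ i, g i) / d) ^ ((d : ℝ) / 2) - c ^ d) ∧
  (1 / (2 * d) * ∑ i, (√(a * p ^ 2 + 2 * p * q * β i + q ^ 2 * g i) +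
      √(a * p ^ 2 - 2 * p * q * β i + q ^ 2 * g i)) =
    1 + q ^ 2 / (d * c ^ (d - 2)) * (((∑ i, g i) / d) ^ ((d : ℝ) / 2) - c ^ d) →
    p ≠ 0 → q ≠ 0 → a = 1 ∧ ∀ i, β i = 0 ∧ g i = c ^ 2)

/-- JOB HC-AVGE: averages over the frames of functions of a vector and a unit tangent vector in the
plane of the first two vectors of the frame. -/
def T_AVGE : Prop := ∀ (d : ℕ), 1 ≤ d → ∀ μ : Measure (Fr d), IsFrameMeasure d μ →
  ∀ Ψ : Sph d × E d → ℝ, Continuous Ψ → ∀ (c s : ℝ), c ^ 2 + s ^ 2 = 1 →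
    ∀ X : Fr d → Sph d, (∀ b, (X b : E d) = c • b.1 0 + s • b.1 1) →
      ∫ b, Ψ (X b, (-s) • b.1 0 + c • b.1 1) ∂μ =
      ∫ b, 1 / (2 * d) * ∑ i : Fin d, (Ψ (vecF b 0, b.1 i.succ) + Ψ (vecF b 0, -b.1 i.succ)) ∂μ

/-- JOB HC-INV2: the integral over the great semicircles of depth at most `R`. -/
def T_INV2 : Prop := ∀ (d : ℕ), ∀ R ∈ Ioo 0 (π / 2), ∀ f : ℝ → ℝ≥0∞, Measurable f →
  ∫⁻ α in Ioo 0 R, ENNReal.ofReal (Real.sin α * Real.cos α / √(Real.sin R ^ 2 - Real.sin α ^ 2)) *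
    ∫⁻ τ in Ioo 0 π, ENNReal.ofReal (1 / C α τ ^ (d + 2)) * f (S α τ) =
  ENNReal.ofReal π * ∫⁻ s in Ioo 0 R, ENNReal.ofReal (1 / Real.cos s ^ (d + 1)) * f s

end Pool.Agent.Y499.HR
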