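import Pool.Agent.Z932.HC.Curve
import Pool.Agent.Y499.HC.Stm2
import Pool.Agent.Y499.HC.Main

set_option autoImplicit false

open Real Set MeasureTheory Metric
open scoped ENNReal

namespace Pool.Agent.Y499.HR

open Pool.Agent.Y499.HC
open Pool.Agent.Z932.HC (hasDerivAt_p hasDerivAt_q contDiff_C contDiff_S hasDerivAt_S pos_C)

/-- The version of `t_CURVE` (by helper932) for collars of width `R`. -/
theorem curveR (d : ℕ) (hd : 1 ≤ d) (R : ℝ) (hR : R ≤ π / 2) (m : Met d) (hNS : NonShort R m)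
    (α : ℝ) (hαR : α ∈ Ioo 0 R) (b : Fr d) :
    π ≤ ∫ τ in (0 : ℝ)..π, √(m.sq (S α τ)
      ((Real.cos τ / C α τ) • b.1 0 + (Real.cos α * Real.sin τ / C α τ) • b.1 1)
      (Real.sin α * Real.cos τ / C α τ)
      ((Real.cos α / C α τ ^ 2) •
        ((-(Real.cos α * Real.sin τ / C α τ)) • b.1 0 + (Real.cos τ / C α τ) • b.1 1))) := by
  have hα : α ∈ Ioo 0 (π / 2) := ⟨hαR.1, hαR.2.trans_le hR⟩
  have h01 : (0 : Fin (d + 1)) ≠ 1 := by
    intro h
    have h1 := congrArg Fin.val h
    rw [Fin.val_zero, Fin.val_one'] at h1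
    rw [Nat.mod_eq_of_lt (by omega)] at h1
    omega
  have hn0 : ‖b.1 0‖ = 1 := b.2.norm_eq_one 0
  have hn1 : ‖b.1 1‖ = 1 := b.2.norm_eq_one 1
  have hin : inner ℝ (b.1 0) (b.1 1) = 0 := b.2.inner_eq_zero h01
  have hy : ∀ t, HasDerivAt (fun τ => (Real.cos τ / C α τ) • b.1 0 +
      (Real.cos α * Real.sin τ / C α τ) • b.1 1)
      ((Real.cos α / C α t ^ 2) • ((-(Real.cos α * Real.sin t / C α t)) • b.1 0 +
        (Real.cos t / C α t) • b.1 1)) t := by
    intro t
    have h1 := ((hasDerivAt_p hα t).smul_const (b.1 0)).add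
      ((hasDerivAt_q hα t).smul_const (b.1 1))
    refine h1.congr_deriv ?_
    rw [smul_add, smul_smul, smul_smul]
  have hyc : ContDiff ℝ 1 (fun τ => (Real.cos τ / C α τ) • b.1 0 +
      (Real.cos α * Real.sin τ / C α τ) • b.1 1) := by
    have h0 : ∀ t, C α t ≠ 0 := fun t => (C_pos hα t).ne'
    exact ((Real.contDiff_cos.div (contDiff_C hα) h0).smul contDiff_const).add
      (((contDiff_const.mul Real.contDiff_sin).div (contDiff_C hα) h0).smul contDiff_const)
  have hC0 : C α 0 = 1 := by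
    unfold C
    simp
  have hCπ : C α π = 1 := by
    unfold C
    simp
  have hmain := hNS π (S α) _ pi_pos (contDiff_S hα) hyc ?_ ?_ ?_ ?_ ?_
  · refine hmain.trans (le_of_eq ?_)
    refine intervalIntegral.integral_congr fun t _ => ?_
    rw [(hasDerivAt_S hα t).deriv, (hy t).deriv]
  · intro t ht
    have h := S_mem hα ht
    exact ⟨h.1, h.2.trans_lt hαR.2⟩
  · intro t
    rw [mem_sphere_zero_iff_norm]
    have h1 : ‖(Real.cos t / C α t) • b.1 0 + (Real.cos α * Real.sin t / C α t) • b.1 1‖ ^ 2 =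
        1 ^ 2 := by
      rw [norm_add_sq_real, inner_smul_left, inner_smul_right, hin, norm_smul, norm_smul, hn0, hn1,
        mul_pow, mul_pow, Real.norm_eq_abs, Real.norm_eq_abs, sq_abs, sq_abs]
      have h0 := (C_pos hα t).ne'
      have h2 := C_sq α t
      have h3 := sin_sq_add_cos_sq α
      have h4 := sin_sq_add_cos_sq t
      simp only [mul_zero, add_zero, one_pow, mul_one]
      field_simp
      rw [h2]
      linear_combination (Real.sin t ^ 2) * h3 + h4
    exact (sq_eq_sq₀ (norm_nonneg _) zero_le_one).1 h1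
  · unfold S
    simp
  · unfold S
    simp
  · simp only [hC0, hCπ]
    simp


end Pool.Agent.Y499.HR
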