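import Pool.Agent.Y499.HC.Main2

set_option autoImplicit false

open Real Set MeasureTheory Metric Filter Topology
open scoped ENNReal

namespace Pool.Agent.Y499.HC

variable {d : ℕ}

/-- The mean slice energy as a measurable function on the line. -/
noncomputable def meanI (μ : Measure (Fr d)) (m : Met d) : ℝ → ℝ≥0∞ :=
  (Ico (0 : ℝ) (π / 2)).indicator fun s => ENNReal.ofReal (mean μ m s)

lemma mean_contOn {μ : Measure (Fr d)} [IsProbabilityMeasure μ] {m : Met d} (hm : m.Good) :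
    ContinuousOn (mean μ m) (Ico 0 (π / 2)) := by
  intro s hs
  set R := (s + π / 2) / 2 with hR
  have hRm : R ∈ Ico 0 (π / 2) := ⟨by have := hs.1; have := Real.pi_pos; positivity,
    by rw [hR]; linarith [hs.2]⟩
  have hsR : s < R := by rw [hR]; linarith [hs.2]
  have h1 : ContinuousWithinAt (fun s => mean μ m (cl R s)) (Ico 0 (π / 2)) s :=
    (mean_cl_cont hm hRm).continuousWithinAt
  refine h1.congr_of_eventuallyEq ?_ ?_
  · have h2 : ∀ᶠ t in 𝓝[Ico 0 (π / 2)] s, t < R :=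
      nhdsWithin_le_nhds (Iio_mem_nhds hsR)
    have h3 : ∀ᶠ t in 𝓝[Ico 0 (π / 2)] s, t ∈ Ico 0 (π / 2) := self_mem_nhdsWithin
    filter_upwards [h2, h3] with t ht1 ht2
    rw [cl_eq ⟨ht2.1, ht1.le⟩]
  · rw [cl_eq ⟨hs.1, hsR.le⟩]

lemma measurable_meanI {μ : Measure (Fr d)} [IsProbabilityMeasure μ] {m : Met d} (hm : m.Good) :
    Measurable (meanI μ m) := by
  classical
  unfold meanI
  have h1 : ContinuousOn (fun s => ENNReal.ofReal (mean μ m s)) (Ico 0 (π / 2)) :=
    ENNReal.continuous_ofReal.comp_continuousOn (mean_contOn hm)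
  rw [← Set.piecewise_eq_indicator]
  exact h1.measurable_piecewise continuousOn_const measurableSet_Ico

/-- The inequality for one angle, for measurable functions. -/
lemma one_alpha' (hA : T_AVG) (hC : T_CURVE) {μ : Measure (Fr d)} (hμ : IsFrameMeasure d μ)
    (hd : 2 ≤ d) {m : Met d} (hm : m.Good) (hS : m.NonShort) {α : ℝ} (hα : α ∈ Ioo 0 (π / 2)) :
    ∫⁻ τ in Ioo 0 π, ENNReal.ofReal (1 / C α τ ^ (d + 2)) * ENNReal.ofReal (Real.cos (S α τ) ^ d) ≤
      ∫⁻ τ in Ioo 0 π, ENNReal.ofReal (1 / C α τ ^ (d + 2)) * meanI μ m (S α τ) := by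
  have := hμ.prob
  have hαm := mem_Ico_of hα
  have hCc := continuous_C α
  have hCp := C_pos hα
  have key := one_alpha hA hC hμ hd hm hS hα
  rw [intervalIntegral.integral_of_le Real.pi_pos.le,
    intervalIntegral.integral_of_le Real.pi_pos.le, integral_Ioc_eq_integral_Ioo,
    integral_Ioc_eq_integral_Ioo] at key
  have hw : Continuous (fun τ => 1 / C α τ ^ (d + 2)) :=
    continuous_const.div (hCc.pow _) fun τ => (pow_pos (hCp τ) _).ne'
  have hmc : Continuous (fun τ => mean μ m (cl α (S α τ))) :=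
    (mean_cl_cont hm hαm).comp (continuous_S α)
  have hint : ∀ f : ℝ → ℝ, Continuous f → Integrable f (volume.restrict (Ioo 0 π)) :=
    fun f hf => (hf.integrableOn_Icc (a := 0) (b := π)).mono_set Ioo_subset_Icc_self
  have e1 : ∫⁻ τ in Ioo 0 π, ENNReal.ofReal (1 / C α τ ^ (d + 2)) *
      ENNReal.ofReal (Real.cos (S α τ) ^ d) =
      ENNReal.ofReal (∫ τ in Ioo 0 π, 1 / C α τ ^ (d + 2) * C α τ ^ d) := by
    rw [ofReal_integral_eq_lintegral_ofReal]
    · refine lintegral_congr fun τ => ?_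
      have := hCp τ
      rw [cos_S, ← ENNReal.ofReal_mul (by positivity)]
    · exact hint _ (hw.mul (hCc.pow _))
    · refine Filter.Eventually.of_forall fun τ => ?_
      have := hCp τ
      show 0 ≤ 1 / C α τ ^ (d + 2) * C α τ ^ d
      positivity
  have e2 : ∫⁻ τ in Ioo 0 π, ENNReal.ofReal (1 / C α τ ^ (d + 2)) * meanI μ m (S α τ) =
      ENNReal.ofReal (∫ τ in Ioo 0 π, 1 / C α τ ^ (d + 2) * mean μ m (cl α (S α τ))) := by
    rw [ofReal_integral_eq_lintegral_ofReal]
    · refine setLIntegral_congr_fun measurableSet_Ioo fun τ hτ => ?_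
      have h0 := hCp τ
      have h1 := S_mem hα ⟨hτ.1.le, hτ.2.le⟩
      have h2 : S α τ ∈ Ico 0 (π / 2) := ⟨h1.1, h1.2.trans_lt hα.2⟩
      simp only [meanI]
      rw [indicator_of_mem h2, cl_eq h1, ← ENNReal.ofReal_mul (by positivity)]
    · exact hint _ (hw.mul hmc)
    · refine Filter.Eventually.of_forall fun τ => ?_
      have h0 := hCp τ
      have h1 := mean_nonneg (μ := μ) hm (cl_mem hαm (S α τ))
      show 0 ≤ 1 / C α τ ^ (d + 2) * mean μ m (cl α (S α τ))
      positivity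
  rw [e1, e2]
  exact ENNReal.ofReal_le_ofReal key

/-- The energy inequality. -/
theorem energy_ge (hF : T_FRAME) (hA : T_AVG) (hC : T_CURVE) (hI : T_INV) (hd : 2 ≤ d)
    {m : Met d} (hm : m.Good) (hS : m.NonShort) : hemi d ≤ m.energy := by
  obtain ⟨μ, hμ⟩ := hF d
  have := hμ.prob
  obtain ⟨c, hc0, hc1, hcf⟩ := hI d
  have h1 : c * ∫⁻ s in Ioo 0 (π / 2), ENNReal.ofReal (Real.cos s ^ d) ≤
      c * ∫⁻ s in Ioo 0 (π / 2), meanI μ m s := by
    rw [← hcf _ (by fun_prop), ← hcf _ (measurable_meanI hm)]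
    refine setLIntegral_mono' measurableSet_Ioo fun α hα => ?_
    exact mul_le_mul_right (one_alpha' hA hC hμ hd hm hS hα) _
  have h2 : ∫⁻ s in Ioo 0 (π / 2), ENNReal.ofReal (Real.cos s ^ d) ≤
      ∫⁻ s in Ioo 0 (π / 2), meanI μ m s := (ENNReal.mul_le_mul_iff_right hc0 hc1).1 h1
  have h3 : ENNReal.ofReal (∫ θ in (0 : ℝ)..(π / 2), Real.cos θ ^ d) =
      ∫⁻ s in Ioo 0 (π / 2), ENNReal.ofReal (Real.cos s ^ d) := by
    rw [intervalIntegral.integral_of_le (by positivity), integral_Ioc_eq_integral_Ioo,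
      ofReal_integral_eq_lintegral_ofReal]
    · exact ((Real.continuous_cos.pow d).integrableOn_Icc (a := 0) (b := π / 2)).mono_set
        Ioo_subset_Icc_self
    · refine (ae_restrict_iff' measurableSet_Ioo).2 (Filter.Eventually.of_forall fun s hs => ?_)
      exact pow_nonneg (Real.cos_nonneg_of_mem_Icc ⟨by linarith [hs.1, Real.pi_pos], hs.2.le⟩) _
  unfold hemi
  rw [h3]
  refine (mul_le_mul_right h2 _).trans ?_
  unfold Met.energy
  rw [← lintegral_const_mul _ (measurable_meanI hm)]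
  refine setLIntegral_mono' measurableSet_Ioo fun s hs => ?_
  have hsm : s ∈ Ico 0 (π / 2) := ⟨hs.1.le, hs.2⟩
  have hdc : Continuous (fun x : Sph d => dens m s x) := by
    have h4 := (dens_cont hm hsm).comp
      ((continuous_const (y := s)).prodMk (continuous_id (X := Sph d)))
    have h5 : cl s s = s := cl_eq ⟨hsm.1, le_rfl⟩
    simpa only [Function.comp_def, h5, id] using h4
  have h6 := hμ.marg (fun x => dens m s x) hdc
  have h7 : ∫⁻ x : Sph d, ENNReal.ofReal ((trTan (m.g s x) x / d) ^ ((d : ℝ) / 2)) ∂(σ d) =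
      ENNReal.ofReal (∫ x, dens m s x ∂(σ d)) := by
    rw [ofReal_integral_eq_lintegral_ofReal]
    · rfl
    · have := hdc.continuousOn.integrableOn_compact (μ := σ d) (isCompact_univ)
      rwa [integrableOn_univ] at this
    · exact Filter.Eventually.of_forall fun x => dens_nonneg hm hsm x
  rw [h7, ← h6, ENNReal.ofReal_mul ENNReal.toReal_nonneg, ENNReal.ofReal_toReal (measure_ne_top _ _)]
  simp only [meanI]
  rw [indicator_of_mem hsm]
  rfl

/-- The volume inequality for quasiconformal slices. -/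
theorem vol_ge_of_qc (hF : T_FRAME) (hA : T_AVG) (hC : T_CURVE) (hI : T_INV) (hd : 2 ≤ d)
    {m : Met d} (hm : m.Good) (hS : m.NonShort) {K : ℝ} (hK : 0 ≤ K)
    (hq : ∀ s ∈ Ioo 0 (π / 2), ∀ x : Sph d,
      (trTan (m.g s x) x / d) ^ ((d : ℝ) / 2) ≤ K * √(detTan (m.g s x) x)) :
    hemi d ≤ ENNReal.ofReal K * m.vol := by
  refine (energy_ge hF hA hC hI hd hm hS).trans ?_
  unfold Met.energy Met.vol
  rw [← lintegral_const_mul' _ _ ENNReal.ofReal_ne_top]
  refine setLIntegral_mono' measurableSet_Ioo fun s hs => ?_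
  rw [← lintegral_const_mul' _ _ ENNReal.ofReal_ne_top]
  refine lintegral_mono fun x => ?_
  show _ ≤ ENNReal.ofReal K * ENNReal.ofReal _
  rw [← ENNReal.ofReal_mul hK]
  exact ENNReal.ofReal_le_ofReal (hq s hs x)

/-- The volume inequality for conformally round slices. -/
theorem vol_ge_of_conformal (hF : T_FRAME) (hA : T_AVG) (hC : T_CURVE) (hI : T_INV) (hD : T_DET)
    (hd : 2 ≤ d) {m : Met d} (hm : m.Good) (hS : m.NonShort)
    {k : ℝ → E d → ℝ} (hk : ∀ s ∈ Ioo 0 (π / 2), ∀ x ∈ sphere (0 : E d) 1, ∀ v : E d,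
      inner ℝ x v = 0 → quad (m.g s x) v = k s x ^ 2 * ‖v‖ ^ 2) :
    hemi d ≤ m.vol := by
  have h := vol_ge_of_qc hF hA hC hI hd hm hS zero_le_one (fun s hs x => ?_)
  · simpa using h
  · have h1 := hD d (m.g s x) (hm.symm s ⟨hs.1.le, hs.2⟩ x x.2) x (mem_sphere_zero_iff_norm.1 x.2)
      (k s x) (hk s hs x x.2)
    have hd0 : (0 : ℝ) < d := by
      have : 0 < d := by omega
      exact_mod_cast this
    rw [h1.1, h1.2, one_mul, mul_div_cancel_left₀ _ hd0.ne']
    have e1 : (k s x ^ 2) ^ ((d : ℝ) / 2) = |k s x| ^ d := by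
      rw [← sq_abs, ← Real.rpow_natCast |k s x| 2, ← Real.rpow_mul (abs_nonneg _),
        ← Real.rpow_natCast |k s x| d]
      congr 1
      push_cast
      ring
    have e2 : √((k s x ^ 2) ^ d) = |k s x| ^ d := by
      rw [← pow_mul, mul_comm 2 d, pow_mul, Real.sqrt_sq_eq_abs, abs_pow]
    rw [e1, e2]

end Pool.Agent.Y499.HC
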