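import Pool.Agent.Y499.HC.Rigid

set_option autoImplicit false
set_option maxHeartbeats 400000

open Real Set MeasureTheory Metric Filter Topology
open scoped ENNReal

namespace Pool.Agent.Y499.HR

open Pool.Agent.Y499.HC

variable {d : ℕ}

lemma sigma_ne_zero : (σ d) univ ≠ 0 := by
  unfold σ
  rw [Measure.toSphere_apply_univ]
  have h1 : (volume : Measure (EuclideanSpace ℝ (Fin (d + 1)))) (ball 0 1) ≠ 0 :=
    (measure_ball_pos _ _ one_pos).ne'
  refine mul_ne_zero ?_ h1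
  simp

/-- The energy in terms of the mean slice energies. -/
lemma energy_eq {μ : Measure (Fr d)} (hμ : IsFrameMeasure d μ) {R : ℝ} {m : Met d}
    (hm : Good R m) : energy R m = (σ d) univ * ∫⁻ s in Ioo 0 R, meanR μ R m s := by
  have := hμ.prob
  unfold energy
  rw [← lintegral_const_mul _ (measurable_meanR hm)]
  refine setLIntegral_congr_fun measurableSet_Ioo fun s hs => ?_
  have hsm : s ∈ Ico 0 R := ⟨hs.1.le, hs.2⟩
  have hdc : Continuous (fun x : Sph d => dens m s x) := by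
    have h4 := (dens_cont' hm hsm).comp
      ((continuous_const (y := s)).prodMk (continuous_id (X := Sph d)))
    have h5 : cl s s = s := cl_eq ⟨hsm.1, le_rfl⟩
    simpa only [Function.comp_def, h5, id] using h4
  have h6 := hμ.marg (fun x => dens m s x) hdc
  have h7 : ∫⁻ x : Sph d, ENNReal.ofReal ((trTan (m.g s x) x / d) ^ ((d : ℝ) / 2)) ∂(σ d) =
      ENNReal.ofReal (∫ x, dens m s x ∂(σ d)) := by
    rw [ofReal_integral_eq_lintegral_ofReal]
    · rfl
    · have := hdc.continuousOn.integrableOn_compact (μ := σ d) (isCompact_univ)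
      rwa [integrableOn_univ] at this
    · exact Filter.Eventually.of_forall fun x => dens_nonneg' hm hsm x
  simp only [h7]
  rw [← h6, ENNReal.ofReal_mul ENNReal.toReal_nonneg,
    ENNReal.ofReal_toReal (measure_ne_top _ _)]
  simp only [meanR]
  rw [indicator_of_mem hsm]
  rfl

lemma eps_nonneg (hP : T_PTW) (hA : T_AVGE) (hI : T_INV2) {μ : Measure (Fr d)}
    (hμ : IsFrameMeasure d μ) (hd : 2 ≤ d) {R : ℝ} (hR : R ≤ π / 2) {m : Met d} (hm : Good R m)
    (hS : NonShort R m) {ρ : ℝ} (hρ : ρ ∈ Ico 0 R) : 0 ≤ eps μ m ρ := by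
  refine intervalIntegral.integral_nonneg hρ.1 fun s hs => ?_
  have hcos : 0 ≤ Real.cos s := Real.cos_nonneg_of_mem_Icc
    ⟨by linarith [hs.1, Real.pi_pos], by linarith [hs.2, hρ.2]⟩
  have hsin : 0 ≤ Real.sin s := Real.sin_nonneg_of_nonneg_of_le_pi hs.1
    (by linarith [hs.2, hρ.2, Real.pi_pos])
  have hH := H_nonneg hP hA hI hμ hd hR hm hS hρ hs
  positivity

/-- The energy inequality. -/
theorem energy_geR (hF : T_FRAME) (hP : T_PTW) (hA : T_AVGE) (hI : T_INV2) (hd : 2 ≤ d) {R : ℝ}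
    (hR0 : 0 < R) (hR : R ≤ π / 2) {m : Met d} (hm : Good R m) (hS : NonShort R m) :
    hemiCollar d R ≤ energy R m := by
  obtain ⟨μ, hμ⟩ := hF d
  rw [energy_eq hμ hm]
  unfold hemiCollar
  refine mul_le_mul_right ?_ _
  refine le_trans ?_ (lint_ge hP hA hI hμ hd hR hm hS le_rfl hR0)
  refine ENNReal.ofReal_le_ofReal ?_
  have := eps_nonneg hP hA hI hμ hd hR hm hS (ρ := 0) ⟨le_rfl, hR0⟩
  linarith

/-- The case of equality. -/
theorem isRound_of_energy (hF : T_FRAME) (hP : T_PTW) (hA : T_AVGE) (hI : T_INV2) (hO : T_POS)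
    (hd : 2 ≤ d) {R : ℝ} (hR0 : 0 < R) (hR : R ≤ π / 2) {m : Met d} (hm : Good R m)
    (hS : NonShort R m) (h : energy R m = hemiCollar d R) : IsRound R m := by
  obtain ⟨μ, hμ⟩ := hF d
  have := hμ.prob
  rw [energy_eq hμ hm, hemiCollar] at h
  have h1 : ∫⁻ s in Ioo 0 R, meanR μ R m s = ENNReal.ofReal (∫ θ in (0 : ℝ)..R, Real.cos θ ^ d) :=
    (ENNReal.mul_right_inj sigma_ne_zero (measure_ne_top _ _)).1 h
  have hI0 : 0 ≤ ∫ θ in (0 : ℝ)..R, Real.cos θ ^ d := by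
    refine intervalIntegral.integral_nonneg hR0.le fun s hs => ?_
    exact pow_nonneg (Real.cos_nonneg_of_mem_Icc
      ⟨by linarith [hs.1, Real.pi_pos], by linarith [hs.2]⟩) _
  -- the excess vanishes
  have h2 : ∀ ρ ∈ Ioo 0 R, ∫ t in (0 : ℝ)..ρ, ww μ m ρ t = 0 := by
    intro ρ hρ
    have hρm : ρ ∈ Ico 0 R := ⟨hρ.1.le, hρ.2⟩
    have h3 := lint_ge hP hA hI hμ hd hR hm hS hρ.1.le hρ.2
    rw [h1, ENNReal.ofReal_le_ofReal_iff hI0] at h3
    have h4 : eps μ m ρ ≤ 0 := by linarith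
    have h5 : 0 ≤ ∫ t in (0 : ℝ)..ρ, ww μ m ρ t :=
      H_nonneg hP hA hI hμ hd hR hm hS hρm ⟨hρ.1.le, le_rfl⟩
    by_contra hne
    have h6 : 0 < ∫ t in (0 : ℝ)..ρ, ww μ m ρ t := lt_of_le_of_ne h5 (Ne.symm hne)
    have h7 := parts_pos (d := d) (ww_cont (μ := μ) hR hm hρm) hρ.1 (hρ.2.trans_le hR)
      (fun s hs => H_nonneg hP hA hI hμ hd hR hm hS hρm hs) h6
    exact absurd h7 (not_lt.2 h4)
  have h3 : ∀ s ∈ Ioo 0 R, mean μ m s = Real.cos s ^ d := by
    intro s hs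
    obtain ⟨A, hA1, hA2⟩ := exists_between hs.2
    have hAm : A ∈ Ico 0 R := ⟨(hs.1.trans hA1).le, hA2⟩
    have h4 := eq_zero_of_prim (ww_cont (μ := μ) hR hm hAm) (R := A) (fun t ht => by
      rw [H_eq (B := t) ⟨ht.1.le, ht.2.le⟩ ⟨ht.1.le, le_rfl⟩]
      exact h2 t ⟨ht.1, ht.2.trans hA2⟩) s ⟨hs.1, hA1⟩
    have h5 := cos_cl_pos hR hAm s
    unfold ww at h4
    rw [cl_eq ⟨hs.1.le, hA1.le⟩] at h4 h5
    have h6 : 1 / Real.cos s ^ (d + 1) ≠ 0 := by positivity
    have h7 := (mul_eq_zero.1 h4).resolve_left h6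
    linarith
  exact isRound_of hP hA hO hμ hd hR0 hR hm hS h3

lemma ofReal_int {R : ℝ} (hR0 : 0 < R) (hR : R ≤ π / 2) :
    ENNReal.ofReal (∫ θ in (0 : ℝ)..R, Real.cos θ ^ d) =
      ∫⁻ s in Ioo 0 R, ENNReal.ofReal (Real.cos s ^ d) := by
  rw [intervalIntegral.integral_of_le hR0.le, integral_Ioc_eq_integral_Ioo,
    ofReal_integral_eq_lintegral_ofReal]
  · exact ((Real.continuous_cos.pow d).integrableOn_Icc (a := 0) (b := R)).mono_set
      Ioo_subset_Icc_self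
  · refine (ae_restrict_iff' measurableSet_Ioo).2 (Filter.Eventually.of_forall fun s hs => ?_)
    exact pow_nonneg (Real.cos_nonneg_of_mem_Icc
      ⟨by linarith [hs.1, Real.pi_pos], by linarith [hs.2]⟩) _

lemma rpow_half (k : ℝ) : (k ^ 2) ^ ((d : ℝ) / 2) = |k| ^ d := by
  rw [← sq_abs, ← Real.rpow_natCast |k| 2, ← Real.rpow_mul (abs_nonneg _),
    ← Real.rpow_natCast |k| d]
  congr 1
  push_cast
  ring

/-- The energy of the round metric. -/
theorem energy_of_isRound (hD : T_DET) (hd : 2 ≤ d) {R : ℝ} (hR0 : 0 < R) (hR : R ≤ π / 2)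
    {m : Met d} (hm : Good R m) (h : IsRound R m) : energy R m = hemiCollar d R := by
  have hd0 : (0 : ℝ) < d := by
    have : 0 < d := by omega
    exact_mod_cast this
  unfold energy hemiCollar
  rw [ofReal_int hR0 hR, ← lintegral_const_mul _ (by fun_prop)]
  refine setLIntegral_congr_fun measurableSet_Ioo fun s hs => ?_
  have hsm : s ∈ Ico 0 R := ⟨hs.1.le, hs.2⟩
  have hcos : 0 ≤ Real.cos s := Real.cos_nonneg_of_mem_Icc
    ⟨by linarith [hs.1, Real.pi_pos], by linarith [hs.2]⟩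
  have h1 : ∀ x : Sph d, ENNReal.ofReal ((trTan (m.g s x) x / d) ^ ((d : ℝ) / 2)) =
      ENNReal.ofReal (Real.cos s ^ d) := by
    intro x
    have h2 := hD d (m.g s x) (hm.symm s hsm x x.2) x (mem_sphere_zero_iff_norm.1 x.2)
      (Real.cos s) (fun v hv => by
        have := h s hsm x x.2 0 v hv
        simpa [Met.sq] using this)
    rw [h2.1, mul_div_cancel_left₀ _ hd0.ne', rpow_half, abs_of_nonneg hcos]
  simp only [h1]
  rw [lintegral_const, mul_comm]

/-- For conformally round slices the volume is the energy. -/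
theorem vol_eq_energy (hD : T_DET) (hd : 2 ≤ d) {R : ℝ} {m : Met d} (hm : Good R m)
    {k : ℝ → EuclideanSpace ℝ (Fin (d + 1)) → ℝ}
    (hk : ∀ s ∈ Ioo 0 R, ∀ x ∈ sphere (0 : EuclideanSpace ℝ (Fin (d + 1))) 1,
      ∀ v : EuclideanSpace ℝ (Fin (d + 1)), inner ℝ x v = 0 →
        quad (m.g s x) v = k s x ^ 2 * ‖v‖ ^ 2) : vol R m = energy R m := by
  have hd0 : (0 : ℝ) < d := by
    have : 0 < d := by omega
    exact_mod_cast this
  unfold energy vol
  refine setLIntegral_congr_fun measurableSet_Ioo fun s hs => ?_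
  refine lintegral_congr fun x => ?_
  have h1 := hD d (m.g s x) (hm.symm s ⟨hs.1.le, hs.2⟩ x x.2) x (mem_sphere_zero_iff_norm.1 x.2)
    (k s x) (hk s hs x x.2)
  rw [h1.1, h1.2, mul_div_cancel_left₀ _ hd0.ne', rpow_half]
  congr 1
  rw [← pow_mul, mul_comm 2 d, pow_mul, Real.sqrt_sq_eq_abs, abs_pow]

/-- The volume inequality for quasiconformal slices. -/
theorem vol_ge_qcR (hF : T_FRAME) (hP : T_PTW) (hA : T_AVGE) (hI : T_INV2) (hd : 2 ≤ d) {R : ℝ}
    (hR0 : 0 < R) (hR : R ≤ π / 2) {m : Met d} (hm : Good R m) (hS : NonShort R m) {K : ℝ}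
    (hK : 0 ≤ K) (hq : ∀ s ∈ Ioo 0 R, ∀ x : Sph d,
      (trTan (m.g s x) x / d) ^ ((d : ℝ) / 2) ≤ K * √(detTan (m.g s x) x)) :
    hemiCollar d R ≤ ENNReal.ofReal K * vol R m := by
  refine (energy_geR hF hP hA hI hd hR0 hR hm hS).trans ?_
  unfold energy vol
  rw [← lintegral_const_mul' _ _ ENNReal.ofReal_ne_top]
  refine setLIntegral_mono' measurableSet_Ioo fun s hs => ?_
  rw [← lintegral_const_mul' _ _ ENNReal.ofReal_ne_top]
  refine lintegral_mono fun x => ?_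
  show _ ≤ ENNReal.ofReal K * ENNReal.ofReal _
  rw [← ENNReal.ofReal_mul hK]
  exact ENNReal.ofReal_le_ofReal (hq s hs x)

end Pool.Agent.Y499.HR
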