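import Pool.Agent.Y499.HC.Ana

set_option autoImplicit false
set_option maxHeartbeats 400000

open Real Set MeasureTheory Metric Filter Topology
open scoped ENNReal

namespace Pool.Agent.Y499.HR

open Pool.Agent.Y499.HC

variable {d : ℕ}

/-- The mean slice energy as a measurable function on the line. -/
noncomputable def meanR (μ : Measure (Fr d)) (R : ℝ) (m : Met d) : ℝ → ℝ≥0∞ :=
  (Ico (0 : ℝ) R).indicator fun s => ENNReal.ofReal (mean μ m s)

lemma measurable_meanR {μ : Measure (Fr d)} [IsProbabilityMeasure μ] {R : ℝ} {m : Met d}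
    (hm : Good R m) : Measurable (meanR μ R m) := by
  classical
  unfold meanR
  have h1 : ContinuousOn (fun s => ENNReal.ofReal (mean μ m s)) (Ico 0 R) :=
    ENNReal.continuous_ofReal.comp_continuousOn (mean_contOn' hm)
  rw [← Set.piecewise_eq_indicator]
  exact h1.measurable_piecewise continuousOn_const measurableSet_Ico

lemma one_alphaR' (hP : T_PTW) (hA : T_AVGE) {μ : Measure (Fr d)} (hμ : IsFrameMeasure d μ)
    (hd : 2 ≤ d) {R : ℝ} (hR : R ≤ π / 2) {m : Met d} (hm : Good R m) (hS : NonShort R m)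
    {α : ℝ} (hα : α ∈ Ioo 0 R) :
    ∫⁻ τ in Ioo 0 π, ENNReal.ofReal (1 / C α τ ^ (d + 2)) * ENNReal.ofReal (Real.cos (S α τ) ^ d) ≤
      ∫⁻ τ in Ioo 0 π, ENNReal.ofReal (1 / C α τ ^ (d + 2)) * meanR μ R m (S α τ) := by
  have := hμ.prob
  have hαm : α ∈ Ico 0 R := ⟨hα.1.le, hα.2⟩
  have hα2 := mem_half hR hα
  have hCc := continuous_C α
  have hCp := C_pos hα2
  have key := one_alphaR hP hA hμ hd hR hm hS hα
  have hw : Continuous (fun τ => 1 / C α τ ^ (d + 2)) :=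
    continuous_const.div (hCc.pow _) fun τ => (pow_pos (hCp τ) _).ne'
  have hmc : Continuous (fun τ => mean μ m (cl α (S α τ))) :=
    (mean_cl_cont' hm hαm).comp (continuous_S α)
  have hint : ∀ f : ℝ → ℝ, Continuous f → Integrable f (volume.restrict (Ioo 0 π)) :=
    fun f hf => (hf.integrableOn_Icc (a := 0) (b := π)).mono_set Ioo_subset_Icc_self
  have c1 : Continuous (fun τ => 1 / C α τ ^ (d + 2) * C α τ ^ d) := hw.mul (hCc.pow _)
  have c2 : Continuous (fun τ => 1 / C α τ ^ (d + 2) * mean μ m (cl α (S α τ))) := hw.mul hmc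
  have key2 : ∫ τ in Ioo 0 π, 1 / C α τ ^ (d + 2) * C α τ ^ d ≤
      ∫ τ in Ioo 0 π, 1 / C α τ ^ (d + 2) * mean μ m (cl α (S α τ)) := by
    rw [intervalIntegral.integral_of_le Real.pi_pos.le, integral_Ioc_eq_integral_Ioo] at key
    have e : ∫ τ in Ioo 0 π, 1 / C α τ ^ (d + 2) * (mean μ m (cl α (S α τ)) - C α τ ^ d) =
        ∫ τ in Ioo 0 π, (1 / C α τ ^ (d + 2) * mean μ m (cl α (S α τ)) -
          1 / C α τ ^ (d + 2) * C α τ ^ d) :=
      integral_congr_ae (Filter.Eventually.of_forall fun τ => by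
        show 1 / C α τ ^ (d + 2) * (mean μ m (cl α (S α τ)) - C α τ ^ d) = _
        ring)
    rw [e, integral_sub (hint _ c2) (hint _ c1)] at key
    linarith
  have e1 : ∫⁻ τ in Ioo 0 π, ENNReal.ofReal (1 / C α τ ^ (d + 2)) *
      ENNReal.ofReal (Real.cos (S α τ) ^ d) =
      ENNReal.ofReal (∫ τ in Ioo 0 π, 1 / C α τ ^ (d + 2) * C α τ ^ d) := by
    rw [ofReal_integral_eq_lintegral_ofReal]
    · refine lintegral_congr fun τ => ?_
      have := hCp τ
      rw [cos_S, ← ENNReal.ofReal_mul (by positivity)]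
    · exact hint _ c1
    · refine Filter.Eventually.of_forall fun τ => ?_
      have := hCp τ
      show 0 ≤ 1 / C α τ ^ (d + 2) * C α τ ^ d
      positivity
  have e2 : ∫⁻ τ in Ioo 0 π, ENNReal.ofReal (1 / C α τ ^ (d + 2)) * meanR μ R m (S α τ) =
      ENNReal.ofReal (∫ τ in Ioo 0 π, 1 / C α τ ^ (d + 2) * mean μ m (cl α (S α τ))) := by
    rw [ofReal_integral_eq_lintegral_ofReal]
    · refine setLIntegral_congr_fun measurableSet_Ioo fun τ hτ => ?_
      have h0 := hCp τ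
      have h1 := S_mem hα2 ⟨hτ.1.le, hτ.2.le⟩
      have h2 : S α τ ∈ Ico 0 R := ⟨h1.1, h1.2.trans_lt hα.2⟩
      simp only [meanR]
      rw [indicator_of_mem h2, cl_eq h1, ← ENNReal.ofReal_mul (by positivity)]
    · exact hint _ c2
    · refine Filter.Eventually.of_forall fun τ => ?_
      have h0 := hCp τ
      have h1 := mean_nonneg' (μ := μ) hm (cl_mem' hαm (S α τ))
      show 0 ≤ 1 / C α τ ^ (d + 2) * mean μ m (cl α (S α τ))
      positivity
  rw [e1, e2]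
  exact ENNReal.ofReal_le_ofReal key2

lemma weighted (hP : T_PTW) (hA : T_AVGE) (hI : T_INV2) {μ : Measure (Fr d)}
    (hμ : IsFrameMeasure d μ) (hd : 2 ≤ d) {R : ℝ} (hR : R ≤ π / 2) {m : Met d} (hm : Good R m)
    (hS : NonShort R m) {ρ : ℝ} (hρ : ρ ∈ Ioo 0 R) :
    ∫⁻ s in Ioo 0 ρ, ENNReal.ofReal (1 / Real.cos s ^ (d + 1)) * ENNReal.ofReal (Real.cos s ^ d) ≤
      ∫⁻ s in Ioo 0 ρ, ENNReal.ofReal (1 / Real.cos s ^ (d + 1)) * meanR μ R m s := by
  have := hμ.prob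
  have hρ2 := mem_half hR hρ
  have h1 := hI d ρ hρ2 (fun s => ENNReal.ofReal (Real.cos s ^ d)) (by fun_prop)
  have h2 := hI d ρ hρ2 _ (measurable_meanR (μ := μ) hm)
  have h3 : ENNReal.ofReal π * (∫⁻ s in Ioo 0 ρ, ENNReal.ofReal (1 / Real.cos s ^ (d + 1)) *
      ENNReal.ofReal (Real.cos s ^ d)) ≤
      ENNReal.ofReal π * ∫⁻ s in Ioo 0 ρ, ENNReal.ofReal (1 / Real.cos s ^ (d + 1)) *
        meanR μ R m s := by
    rw [← h1, ← h2]
    refine setLIntegral_mono' measurableSet_Ioo fun α hα => ?_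
    exact mul_le_mul_right (one_alphaR' hP hA hμ hd hR hm hS ⟨hα.1, hα.2.trans hρ.2⟩) _
  have hπ : ENNReal.ofReal π ≠ 0 := by
    rw [Ne, ENNReal.ofReal_eq_zero, not_le]
    exact Real.pi_pos
  exact (ENNReal.mul_le_mul_iff_right hπ ENNReal.ofReal_ne_top).1 h3

/-- The weighted difference of the densities. -/
noncomputable def ww (μ : Measure (Fr d)) (m : Met d) (A s : ℝ) : ℝ :=
  1 / Real.cos (cl A s) ^ (d + 1) * (mean μ m (cl A s) - Real.cos (cl A s) ^ d)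

lemma cos_cl_pos {R A : ℝ} (hR : R ≤ π / 2) (hA : A ∈ Ico 0 R) (s : ℝ) :
    0 < Real.cos (cl A s) := by
  have := cl_mem' hA s
  exact Real.cos_pos_of_mem_Ioo ⟨by linarith [this.1, Real.pi_pos], this.2.trans_le hR⟩

lemma inv_cos_cont {R A : ℝ} (hR : R ≤ π / 2) (hA : A ∈ Ico 0 R) :
    Continuous (fun s => 1 / Real.cos (cl A s) ^ (d + 1)) :=
  continuous_const.div ((Real.continuous_cos.comp (continuous_cl A)).pow _)
    fun s => (pow_pos (cos_cl_pos hR hA s) _).ne'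

lemma ww_cont {μ : Measure (Fr d)} [IsProbabilityMeasure μ] {R A : ℝ} (hR : R ≤ π / 2)
    {m : Met d} (hm : Good R m) (hA : A ∈ Ico 0 R) : Continuous (ww μ m A) :=
  (inv_cos_cont hR hA).mul
    ((mean_cl_cont' hm hA).sub ((Real.continuous_cos.comp (continuous_cl A)).pow _))

lemma ww_eq {μ : Measure (Fr d)} {m : Met d} {A B t : ℝ} (hA : t ∈ Icc 0 A) (hB : t ∈ Icc 0 B) :
    ww μ m A t = ww μ m B t := by
  unfold ww
  rw [cl_eq hA, cl_eq hB]

lemma H_eq {μ : Measure (Fr d)} {m : Met d} {A B s : ℝ} (hA : s ∈ Icc 0 A) (hB : s ∈ Icc 0 B) :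
    ∫ t in (0 : ℝ)..s, ww μ m A t = ∫ t in (0 : ℝ)..s, ww μ m B t := by
  refine intervalIntegral.integral_congr fun t ht => ?_
  rw [uIcc_of_le hA.1] at ht
  exact ww_eq ⟨ht.1, ht.2.trans hA.2⟩ ⟨ht.1, ht.2.trans hB.2⟩

lemma H_nonneg (hP : T_PTW) (hA : T_AVGE) (hI : T_INV2) {μ : Measure (Fr d)}
    (hμ : IsFrameMeasure d μ) (hd : 2 ≤ d) {R : ℝ} (hR : R ≤ π / 2) {m : Met d} (hm : Good R m)
    (hS : NonShort R m) {A : ℝ} (hAm : A ∈ Ico 0 R) {ρ : ℝ} (hρ : ρ ∈ Icc 0 A) :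
    0 ≤ ∫ t in (0 : ℝ)..ρ, ww μ m A t := by
  have := hμ.prob
  rcases hρ.1.eq_or_lt with h0 | h0
  · rw [← h0, intervalIntegral.integral_same]
  have hρR : ρ ∈ Ioo 0 R := ⟨h0, hρ.2.trans_lt hAm.2⟩
  have key := weighted hP hA hI hμ hd hR hm hS hρR
  have hint : ∀ f : ℝ → ℝ, Continuous f → Integrable f (volume.restrict (Ioo 0 ρ)) :=
    fun f hf => (hf.integrableOn_Icc (a := 0) (b := ρ)).mono_set Ioo_subset_Icc_self
  have c1 : Continuous (fun s => 1 / Real.cos (cl A s) ^ (d + 1) * Real.cos (cl A s) ^ d) :=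
    (inv_cos_cont hR hAm).mul ((Real.continuous_cos.comp (continuous_cl A)).pow _)
  have c2 : Continuous (fun s => 1 / Real.cos (cl A s) ^ (d + 1) * mean μ m (cl A s)) :=
    (inv_cos_cont hR hAm).mul (mean_cl_cont' hm hAm)
  have p1 : ∀ s, 0 ≤ 1 / Real.cos (cl A s) ^ (d + 1) * Real.cos (cl A s) ^ d := fun s => by
    have := cos_cl_pos hR hAm s
    positivity
  have p2 : ∀ s, 0 ≤ 1 / Real.cos (cl A s) ^ (d + 1) * mean μ m (cl A s) := fun s => by
    have h1 := cos_cl_pos hR hAm s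
    have h2 := mean_nonneg' (μ := μ) hm (cl_mem' hAm s)
    positivity
  have e1 : ∫⁻ s in Ioo 0 ρ, ENNReal.ofReal (1 / Real.cos s ^ (d + 1)) *
      ENNReal.ofReal (Real.cos s ^ d) =
      ENNReal.ofReal (∫ s in Ioo 0 ρ, 1 / Real.cos (cl A s) ^ (d + 1) * Real.cos (cl A s) ^ d) := by
    rw [ofReal_integral_eq_lintegral_ofReal (hint _ c1) (Filter.Eventually.of_forall p1)]
    refine setLIntegral_congr_fun measurableSet_Ioo fun s hs => ?_
    have h1 := cos_cl_pos hR hAm s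
    have h2 : cl A s = s := cl_eq ⟨hs.1.le, hs.2.le.trans hρ.2⟩
    rw [h2] at h1
    simp only [h2]
    rw [← ENNReal.ofReal_mul (by positivity)]
  have e2 : ∫⁻ s in Ioo 0 ρ, ENNReal.ofReal (1 / Real.cos s ^ (d + 1)) * meanR μ R m s =
      ENNReal.ofReal (∫ s in Ioo 0 ρ, 1 / Real.cos (cl A s) ^ (d + 1) * mean μ m (cl A s)) := by
    rw [ofReal_integral_eq_lintegral_ofReal (hint _ c2) (Filter.Eventually.of_forall p2)]
    refine setLIntegral_congr_fun measurableSet_Ioo fun s hs => ?_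
    have h1 := cos_cl_pos hR hAm s
    have h2 : cl A s = s := cl_eq ⟨hs.1.le, hs.2.le.trans hρ.2⟩
    rw [h2] at h1
    have h3 : s ∈ Ico 0 R := ⟨hs.1.le, hs.2.trans hρR.2⟩
    simp only [h2, meanR]
    rw [indicator_of_mem h3, ← ENNReal.ofReal_mul (by positivity)]
  rw [e1, e2] at key
  have key2 := (ENNReal.ofReal_le_ofReal_iff (integral_nonneg p2)).1 key
  rw [intervalIntegral.integral_of_le hρ.1, integral_Ioc_eq_integral_Ioo]
  have e3 : ∫ s in Ioo 0 ρ, ww μ m A s =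
      ∫ s in Ioo 0 ρ, (1 / Real.cos (cl A s) ^ (d + 1) * mean μ m (cl A s) -
        1 / Real.cos (cl A s) ^ (d + 1) * Real.cos (cl A s) ^ d) :=
    integral_congr_ae (Filter.Eventually.of_forall fun s => by
      show 1 / Real.cos (cl A s) ^ (d + 1) * (mean μ m (cl A s) - Real.cos (cl A s) ^ d) = _
      ring)
  rw [e3, integral_sub (hint _ c2) (hint _ c1)]
  linarith

/-- The excess. -/
noncomputable def eps (μ : Measure (Fr d)) (m : Met d) (ρ : ℝ) : ℝ :=
  ∫ s in (0 : ℝ)..ρ, (d + 1) * Real.cos s ^ d * Real.sin s * ∫ t in (0 : ℝ)..s, ww μ m ρ t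

lemma mean_int_ge (hP : T_PTW) (hA : T_AVGE) (hI : T_INV2) {μ : Measure (Fr d)}
    (hμ : IsFrameMeasure d μ) (hd : 2 ≤ d) {R : ℝ} (hR : R ≤ π / 2) {m : Met d} (hm : Good R m)
    (hS : NonShort R m) {ρ A : ℝ} (hρ : 0 ≤ ρ) (hρA : ρ ≤ A) (hAR : A < R) :
    eps μ m ρ + ∫ s in (0 : ℝ)..A, Real.cos s ^ d ≤ ∫ s in (0 : ℝ)..A, mean μ m (cl A s) := by
  have := hμ.prob
  have hAm : A ∈ Ico 0 R := ⟨hρ.trans hρA, hAR⟩
  have h1 := parts_ge (d := d) (ww_cont (μ := μ) hR hm hAm) hρ hρA (hAR.le.trans hR)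
    (fun s hs => H_nonneg hP hA hI hμ hd hR hm hS hAm hs)
  have h2 : eps μ m ρ = ∫ s in (0 : ℝ)..ρ, (d + 1) * Real.cos s ^ d * Real.sin s *
      ∫ t in (0 : ℝ)..s, ww μ m A t := by
    unfold eps
    refine intervalIntegral.integral_congr fun s hs => ?_
    rw [uIcc_of_le hρ] at hs
    rw [H_eq hs ⟨hs.1, hs.2.trans hρA⟩]
  have h3 : ∫ s in (0 : ℝ)..A, Real.cos s ^ (d + 1) * ww μ m A s =
      ∫ s in (0 : ℝ)..A, (mean μ m (cl A s) - Real.cos s ^ d) := by
    refine intervalIntegral.integral_congr fun s hs => ?_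
    rw [uIcc_of_le hAm.1] at hs
    have h4 := cos_cl_pos hR hAm s
    simp only [ww]
    rw [cl_eq hs] at h4 ⊢
    field_simp
  have c1 : IntervalIntegrable (fun s => mean μ m (cl A s)) volume 0 A :=
    (mean_cl_cont' hm hAm).intervalIntegrable 0 A
  have c2 : IntervalIntegrable (fun s => Real.cos s ^ d) volume 0 A :=
    (Real.continuous_cos.pow d).intervalIntegrable 0 A
  rw [h3, intervalIntegral.integral_sub c1 c2, ← h2] at h1
  linarith

/-- The main inequality for the mean slice energies, with the excess. -/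
lemma lint_ge (hP : T_PTW) (hA : T_AVGE) (hI : T_INV2) {μ : Measure (Fr d)}
    (hμ : IsFrameMeasure d μ) (hd : 2 ≤ d) {R : ℝ} (hR : R ≤ π / 2) {m : Met d} (hm : Good R m)
    (hS : NonShort R m) {ρ : ℝ} (hρ : 0 ≤ ρ) (hρR : ρ < R) :
    ENNReal.ofReal (eps μ m ρ + ∫ s in (0 : ℝ)..R, Real.cos s ^ d) ≤
      ∫⁻ s in Ioo 0 R, meanR μ R m s := by
  have := hμ.prob
  have hH : ∀ s : ℝ, HasDerivAt (fun A => ∫ s in (0 : ℝ)..A, Real.cos s ^ d) (Real.cos s ^ d) s :=
    fun s => (Real.continuous_cos.pow d).integral_hasStrictDerivAt 0 s |>.hasDerivAt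
  have hc : ContinuousAt (fun A => ENNReal.ofReal (eps μ m ρ + ∫ s in (0 : ℝ)..A, Real.cos s ^ d))
      R := by
    refine ENNReal.continuous_ofReal.continuousAt.comp ?_
    exact continuousAt_const.add (hH R).continuousAt
  refine le_of_tendsto (hc.tendsto.mono_left (nhdsWithin_le_nhds (s := Iio R))) ?_
  filter_upwards [Ioo_mem_nhdsLT hρR] with A hAA
  have hAm : A ∈ Ico 0 R := ⟨hρ.trans hAA.1.le, hAA.2⟩
  have h1 := mean_int_ge hP hA hI hμ hd hR hm hS hρ hAA.1.le hAA.2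
  refine (ENNReal.ofReal_le_ofReal h1).trans ?_
  rw [intervalIntegral.integral_of_le hAm.1, integral_Ioc_eq_integral_Ioo,
    ofReal_integral_eq_lintegral_ofReal]
  · refine le_trans (le_of_eq ?_) (lintegral_mono_set (Ioo_subset_Ioo_right hAA.2.le))
    refine setLIntegral_congr_fun measurableSet_Ioo fun s hs => ?_
    have h3 : s ∈ Ico 0 R := ⟨hs.1.le, hs.2.trans hAA.2⟩
    simp only [meanR]
    rw [indicator_of_mem h3, cl_eq ⟨hs.1.le, hs.2.le⟩]
  · exact ((mean_cl_cont' hm hAm).integrableOn_Icc (a := 0) (b := A)).mono_set Ioo_subset_Icc_self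
  · exact Filter.Eventually.of_forall fun s => mean_nonneg' (μ := μ) hm (cl_mem' hAm s)

end Pool.Agent.Y499.HR
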