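import Pool.Agent.Y499.HC.Main

set_option autoImplicit false

open Real Set MeasureTheory Metric Filter Topology
open scoped ENNReal

namespace Pool.Agent.Y499.HC

variable {d : ℕ}

lemma mem_Ico_of {α : ℝ} (hα : α ∈ Ioo 0 (π / 2)) : α ∈ Ico 0 (π / 2) := ⟨hα.1.le, hα.2⟩

/-- The integral over the frames of the length element at the time `τ`. -/
lemma avg_le (hA : T_AVG) {μ : Measure (Fr d)} (hμ : IsFrameMeasure d μ) (hd : 2 ≤ d)
    {m : Met d} (hm : m.Good) {α : ℝ} (hα : α ∈ Ioo 0 (π / 2)) (hd1 : 1 ≤ d) (τ : ℝ) :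
    ∫ b, √(m.a (cl α (S α τ)) (XX hα hd1 τ b) * (Real.sin α * Real.cos τ / C α τ) ^ 2 +
        2 * (Real.sin α * Real.cos τ / C α τ) * inner ℝ (m.β (cl α (S α τ)) (XX hα hd1 τ b))
          ((Real.cos α / C α τ ^ 2) • ((-(Real.cos α * Real.sin τ / C α τ)) • b.1 0 +
            (Real.cos τ / C α τ) • b.1 1)) +
        quad (m.g (cl α (S α τ)) (XX hα hd1 τ b))
          ((Real.cos α / C α τ ^ 2) • ((-(Real.cos α * Real.sin τ / C α τ)) • b.1 0 +
            (Real.cos τ / C α τ) • b.1 1))) ∂μ ≤
      1 + Real.cos α ^ 2 / (d * C α τ ^ (d + 2)) * (mean μ m (cl α (S α τ)) - C α τ ^ d) := by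
  have := hμ.prob
  have hαm := mem_Ico_of hα
  set s := cl α (S α τ) with hs
  have hsm : s ∈ Ico 0 (π / 2) := cl_mem hαm _
  have hCp := C_pos hα τ
  -- continuity of the data at the level `s`
  have hcs : ∀ {Y : Type} [TopologicalSpace Y] {f : ℝ → E d → Y},
      ContinuousOn (fun p : ℝ × E d => f p.1 p.2) (Ico 0 (π / 2) ×ˢ sphere 0 1) →
      Continuous (fun x : Sph d => f s x) := by
    intro Y _ f hf
    have h := hf.comp_continuous (f := fun x : Sph d => ((s, (x : E d)) : ℝ × E d))
      (by fun_prop) fun x => ⟨hsm, x.2⟩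
    exact h
  have h1 := hA d hd1 μ hμ (fun x => m.a s x) (fun x => m.β s x) (fun x => m.g s x)
    (hcs hm.cont_a) (hcs hm.cont_β) (hcs hm.cont_g) (fun x => hm.lapse s hsm x x.2)
    (fun x p v hv => hm.nonneg s hsm x x.2 p v hv) (Real.cos τ / C α τ)
    (Real.cos α * Real.sin τ / C α τ) (Real.sin α * Real.cos τ / C α τ) (Real.cos α / C α τ ^ 2)
    (unit_coeff hα τ) (XX hα hd1 τ) (fun b => rfl)
  refine h1.trans ?_
  have hdc : Continuous (fun b : Fr d => dens m s (vecF b 0)) := by
    have h2 := (dens_cont hm hαm).comp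
      ((continuous_const (y := S α τ)).prodMk (continuous_vecF (d := d) 0))
    exact h2
  have hint : ∀ f : Fr d → ℝ, Continuous f → Integrable f μ := fun f hf => by
    have := hf.continuousOn.integrableOn_compact (μ := μ) (isCompact_univ)
    rwa [integrableOn_univ] at this
  have hyc : Continuous (fun b : Fr d => trTan (m.g s (vecF b 0)) (vecF b 0) / d) :=
    (trTan_cont ((hcs hm.cont_g).comp (continuous_vecF 0))
      (continuous_subtype_val.comp (continuous_vecF 0))).div_const _
  calc ∫ b, √((Real.sin α * Real.cos τ / C α τ) ^ 2 + (Real.cos α / C α τ ^ 2) ^ 2 *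
        (trTan (m.g s (vecF b 0)) (vecF b 0) / d)) ∂μ
      ≤ ∫ b, (1 + Real.cos α ^ 2 / (d * C α τ ^ (d + 2)) *
          (dens m s (vecF b 0) - C α τ ^ d)) ∂μ := by
        refine integral_mono (hint _ ?_) (hint _ ?_) fun b => ?_
        · exact (continuous_const.add (continuous_const.mul hyc)).sqrt
        · exact continuous_const.add (continuous_const.mul (hdc.sub continuous_const))
        · have h2 := t_TAN d hd (Real.sin α * Real.cos τ / C α τ) (Real.cos α / C α τ ^ 2) (C α τ)
            (trTan (m.g s (vecF b 0)) (vecF b 0) / d) hCp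
            (div_nonneg (trTan_nonneg hm hsm _) (Nat.cast_nonneg _)) (unit_speed hα τ)
          refine h2.trans (le_of_eq ?_)
          have e : (Real.cos α / C α τ ^ 2) ^ 2 / (d * C α τ ^ (d - 2)) =
              Real.cos α ^ 2 / (d * C α τ ^ (d + 2)) := by
            have e1 : C α τ ^ (d + 2) = C α τ ^ (d - 2) * C α τ ^ 4 := by
              rw [← pow_add]; congr 1; omega
            rw [e1]
            have hd0 : (d : ℝ) ≠ 0 := by
              have : 0 < d := by omega
              exact_mod_cast this.ne'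
            field_simp
          rw [e]
          rfl
    _ = 1 + Real.cos α ^ 2 / (d * C α τ ^ (d + 2)) * (mean μ m s - C α τ ^ d) := by
        have i1 : Integrable (fun b : Fr d => dens m s (vecF b 0) - C α τ ^ d) μ :=
          hint _ (hdc.sub continuous_const)
        have i2 : Integrable (fun b : Fr d => Real.cos α ^ 2 / (d * C α τ ^ (d + 2)) *
            (dens m s (vecF b 0) - C α τ ^ d)) μ := i1.const_mul _
        rw [integral_add (integrable_const _) i2, integral_const, integral_const_mul,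
          integral_sub (hint _ hdc) (integrable_const _), integral_const]
        simp [mean]

/-- The inequality for one angle. -/
lemma one_alpha (hA : T_AVG) (hC : T_CURVE) {μ : Measure (Fr d)} (hμ : IsFrameMeasure d μ)
    (hd : 2 ≤ d) {m : Met d} (hm : m.Good) (hS : m.NonShort) {α : ℝ} (hα : α ∈ Ioo 0 (π / 2)) :
    ∫ τ in (0 : ℝ)..π, 1 / C α τ ^ (d + 2) * C α τ ^ d ≤
      ∫ τ in (0 : ℝ)..π, 1 / C α τ ^ (d + 2) * mean μ m (cl α (S α τ)) := by
  have := hμ.prob
  have hd1 : 1 ≤ d := by omega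
  have hαm := mem_Ico_of hα
  have hCc := continuous_C α
  have hCp := C_pos hα
  set F : ℝ × Fr d → ℝ := fun z =>
    √(m.a (cl α (S α z.1)) (XX hα hd1 z.1 z.2) * (Real.sin α * Real.cos z.1 / C α z.1) ^ 2 +
        2 * (Real.sin α * Real.cos z.1 / C α z.1) *
          inner ℝ (m.β (cl α (S α z.1)) (XX hα hd1 z.1 z.2))
          ((Real.cos α / C α z.1 ^ 2) • ((-(Real.cos α * Real.sin z.1 / C α z.1)) • z.2.1 0 +
            (Real.cos z.1 / C α z.1) • z.2.1 1)) +
        quad (m.g (cl α (S α z.1)) (XX hα hd1 z.1 z.2))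
          ((Real.cos α / C α z.1 ^ 2) • ((-(Real.cos α * Real.sin z.1 / C α z.1)) • z.2.1 0 +
            (Real.cos z.1 / C α z.1) • z.2.1 1))) with hF
  have hpc : Continuous (fun z : ℝ × Fr d => ((S α z.1, XX hα hd1 z.1 z.2) : ℝ × Sph d)) :=
    ((continuous_S α).comp continuous_fst).prodMk (continuous_XX hα hd1)
  have hac : Continuous (fun z : ℝ × Fr d => m.a (cl α (S α z.1)) (XX hα hd1 z.1 z.2)) :=
    (clamp_cont hαm hm.cont_a).comp hpc
  have hβc : Continuous (fun z : ℝ × Fr d => m.β (cl α (S α z.1)) (XX hα hd1 z.1 z.2)) :=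
    (clamp_cont hαm hm.cont_β).comp hpc
  have hgc : Continuous (fun z : ℝ × Fr d => m.g (cl α (S α z.1)) (XX hα hd1 z.1 z.2)) :=
    (clamp_cont hαm hm.cont_g).comp hpc
  have hpc1 : Continuous (fun z : ℝ × Fr d => Real.sin α * Real.cos z.1 / C α z.1) :=
    (continuous_const.mul (Real.continuous_cos.comp continuous_fst)).div
      (hCc.comp continuous_fst) fun z => (hCp z.1).ne'
  have hqc1 : Continuous (fun z : ℝ × Fr d => Real.cos α / C α z.1 ^ 2) :=
    continuous_const.div ((hCc.comp continuous_fst).pow 2) fun z => (pow_pos (hCp z.1) 2).ne'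
  have hvc : Continuous (fun z : ℝ × Fr d => (Real.cos α / C α z.1 ^ 2) •
      ((-(Real.cos α * Real.sin z.1 / C α z.1)) • z.2.1 0 + (Real.cos z.1 / C α z.1) • z.2.1 1)) :=
    hqc1.smul ((((continuous_coeff2 hα).comp continuous_fst).neg.smul (continuous_fst_vec 0)).add
      (((continuous_coeff1 hα).comp continuous_fst).smul (continuous_fst_vec 1)))
  have hFc : Continuous F :=
    (((hac.mul (hpc1.pow 2)).add ((continuous_const.mul hpc1).mul (hβc.inner hvc))).add
      (quad_cont hgc hvc)).sqrt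
  have hprod : Integrable F ((volume.restrict (Ioc 0 π)).prod μ) := by
    have h1 : IntegrableOn F (Icc 0 π ×ˢ univ) (volume.prod μ) :=
      hFc.continuousOn.integrableOn_compact (isCompact_Icc.prod isCompact_univ)
    have h2 : IntegrableOn F (Ioc 0 π ×ˢ univ) (volume.prod μ) :=
      h1.mono_set (prod_mono Ioc_subset_Icc_self Subset.rfl)
    rw [IntegrableOn, ← Measure.prod_restrict, Measure.restrict_univ] at h2
    exact h2
  have hswap := integral_integral_swap (f := fun τ b => F (τ, b)) hprod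
  have hcurve : ∀ b : Fr d, π ≤ ∫ τ in (0 : ℝ)..π, F (τ, b) := by
    intro b
    refine (hC d hd1 m hm hS α hα b).trans (le_of_eq ?_)
    refine intervalIntegral.integral_congr fun τ hτ => ?_
    rw [uIcc_of_le Real.pi_pos.le] at hτ
    simp only [hF, Met.sq]
    rw [cl_eq (S_mem hα hτ)]
    rfl
  have hlow : π ≤ ∫ b, (∫ τ in Ioc 0 π, F (τ, b)) ∂μ := by
    have h1 : ∫ _b : Fr d, π ∂μ = π := by simp
    have h2 : ∫ _b : Fr d, π ∂μ ≤ ∫ b, (∫ τ in Ioc 0 π, F (τ, b)) ∂μ := by
      refine integral_mono (integrable_const _) hprod.integral_prod_right fun b => ?_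
      have := hcurve b
      rwa [intervalIntegral.integral_of_le Real.pi_pos.le] at this
    exact (le_of_eq h1.symm).trans h2
  have hmc : Continuous (fun τ => mean μ m (cl α (S α τ))) :=
    (mean_cl_cont hm hαm).comp (continuous_S α)
  have hw : Continuous (fun τ => 1 / C α τ ^ (d + 2)) :=
    continuous_const.div (hCc.pow _) fun τ => (pow_pos (hCp τ) _).ne'
  have hw2 : Continuous (fun τ => Real.cos α ^ 2 / (d * C α τ ^ (d + 2))) :=
    continuous_const.div (continuous_const.mul (hCc.pow _)) fun τ => by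
      have := hCp τ
      have hd0 : (0 : ℝ) < d := by
        have : 0 < d := by omega
        exact_mod_cast this
      positivity
  have hup : ∫ τ in Ioc 0 π, (∫ b, F (τ, b) ∂μ) ≤
      ∫ τ in Ioc 0 π, (1 + Real.cos α ^ 2 / (d * C α τ ^ (d + 2)) *
        (mean μ m (cl α (S α τ)) - C α τ ^ d)) := by
    refine integral_mono hprod.integral_prod_left ?_ fun τ => avg_le hA hμ hd hm hα hd1 τ
    exact ((continuous_const.add (hw2.mul (hmc.sub (hCc.pow _)))).integrableOn_Icc
      (a := 0) (b := π)).mono_set Ioc_subset_Icc_self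
  have hfin := (hlow.trans (le_of_eq hswap.symm)).trans hup
  rw [← intervalIntegral.integral_of_le Real.pi_pos.le] at hfin
  have hii : ∀ f : ℝ → ℝ, Continuous f → IntervalIntegrable f volume 0 π :=
    fun f hf => hf.intervalIntegrable 0 π
  have hsplit : ∫ τ in (0 : ℝ)..π, (1 + Real.cos α ^ 2 / (d * C α τ ^ (d + 2)) *
        (mean μ m (cl α (S α τ)) - C α τ ^ d)) =
      π + Real.cos α ^ 2 / d *
        ((∫ τ in (0 : ℝ)..π, 1 / C α τ ^ (d + 2) * mean μ m (cl α (S α τ))) -
        ∫ τ in (0 : ℝ)..π, 1 / C α τ ^ (d + 2) * C α τ ^ d) := by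
    have k1 : IntervalIntegrable (fun τ => 1 / C α τ ^ (d + 2) * mean μ m (cl α (S α τ)))
      volume 0 π := hii _ (hw.mul hmc)
    have k2 : IntervalIntegrable (fun τ => 1 / C α τ ^ (d + 2) * C α τ ^ d) volume 0 π :=
      hii _ (hw.mul (hCc.pow _))
    have k3 : IntervalIntegrable (fun τ => Real.cos α ^ 2 / (d * C α τ ^ (d + 2)) *
        (mean μ m (cl α (S α τ)) - C α τ ^ d)) volume 0 π :=
      hii _ (hw2.mul (hmc.sub (hCc.pow _)))
    have k4 : IntervalIntegrable (fun _ : ℝ => (1 : ℝ)) volume 0 π := hii _ continuous_const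
    rw [← intervalIntegral.integral_sub k1 k2, ← intervalIntegral.integral_const_mul,
      intervalIntegral.integral_add k4 k3]
    congr 1
    · simp
    · refine intervalIntegral.integral_congr fun τ _ => ?_
      have := hCp τ
      have hd0 : (0 : ℝ) < d := by
        have : 0 < d := by omega
        exact_mod_cast this
      field_simp
  rw [hsplit] at hfin
  have hcos : 0 < Real.cos α ^ 2 / d := by
    have h1 := Real.cos_pos_of_mem_Ioo (x := α) ⟨by linarith [hα.1, Real.pi_pos], hα.2⟩
    have hd0 : (0 : ℝ) < d := by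
      have : 0 < d := by omega
      exact_mod_cast this
    positivity
  have h5 : 0 ≤ Real.cos α ^ 2 / d *
      ((∫ τ in (0 : ℝ)..π, 1 / C α τ ^ (d + 2) * mean μ m (cl α (S α τ))) -
        ∫ τ in (0 : ℝ)..π, 1 / C α τ ^ (d + 2) * C α τ ^ d) := by linarith
  have h6 := nonneg_of_mul_nonneg_right h5 hcos
  linarith

end Pool.Agent.Y499.HC
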