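import Pool.Agent.Y499.HC.Curve2
import Pool.Agent.Y249.HC.Avg

set_option autoImplicit false

open Real Set MeasureTheory Metric Filter Topology
open scoped ENNReal

namespace Pool.Agent.Y499.HR

open Pool.Agent.Y499.HC

variable {d : ℕ}

lemma trTan_nonneg' {R : ℝ} {m : Met d} (hm : Good R m) {s : ℝ} (hs : s ∈ Ico 0 R) (x : Sph d) :
    0 ≤ trTan (m.g s x) x := by
  have hx : ‖(x : E d)‖ = 1 := mem_sphere_zero_iff_norm.1 x.2
  rw [trTan_eq _ _ hx]
  refine Finset.sum_nonneg fun k _ => ?_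
  have := hm.nonneg s hs x x.2 0 _ (inner_single_sub (x : E d) hx k)
  simpa [Met.sq] using this

lemma cl_mem' {R α : ℝ} (hα : α ∈ Ico 0 R) (s : ℝ) : cl α s ∈ Ico 0 R :=
  ⟨le_max_left _ _, max_lt (hα.1.trans_lt hα.2) ((min_le_right _ _).trans_lt hα.2)⟩

lemma clamp_cont' {R α : ℝ} (hα : α ∈ Ico 0 R) {Y : Type} [TopologicalSpace Y]
    {f : ℝ → E d → Y}
    (hf : ContinuousOn (fun p : ℝ × E d => f p.1 p.2) (Ico 0 R ×ˢ sphere 0 1)) :
    Continuous (fun p : ℝ × Sph d => f (cl α p.1) p.2) := by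
  have h := hf.comp_continuous (f := fun p : ℝ × Sph d => ((cl α p.1, (p.2 : E d)) : ℝ × E d))
    (((continuous_cl α).comp continuous_fst).prodMk (continuous_subtype_val.comp continuous_snd))
    fun p => ⟨cl_mem' hα p.1, p.2.2⟩
  exact h

lemma dens_nonneg' {R : ℝ} {m : Met d} (hm : Good R m) {s : ℝ} (hs : s ∈ Ico 0 R) (x : Sph d) :
    0 ≤ dens m s x :=
  Real.rpow_nonneg (div_nonneg (trTan_nonneg' hm hs x) (Nat.cast_nonneg _)) _

lemma dens_cont' {R α : ℝ} {m : Met d} (hm : Good R m) (hα : α ∈ Ico 0 R) :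
    Continuous (fun p : ℝ × Sph d => dens m (cl α p.1) p.2) := by
  unfold dens
  refine Continuous.rpow_const ?_ fun p => Or.inr (by positivity)
  exact (trTan_cont (clamp_cont' hα hm.cont_g)
    (continuous_subtype_val.comp continuous_snd)).div_const _

lemma mean_cl_cont' {μ : Measure (Fr d)} [IsProbabilityMeasure μ] {R α : ℝ} {m : Met d}
    (hm : Good R m) (hα : α ∈ Ico 0 R) : Continuous (fun s => mean μ m (cl α s)) := by
  unfold mean
  have h1 := continuous_parametric_integral_of_continuous (μ := μ)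
    (f := fun (s : ℝ) (b : Fr d) => dens m (cl α s) (vecF b 0)) (by
      exact (dens_cont' hm hα).comp
        (continuous_fst.prodMk ((continuous_vecF 0).comp continuous_snd)))
    (s := univ) isCompact_univ
  simpa only [Measure.restrict_univ] using h1

lemma mean_contOn' {μ : Measure (Fr d)} [IsProbabilityMeasure μ] {R : ℝ} {m : Met d}
    (hm : Good R m) : ContinuousOn (mean μ m) (Ico 0 R) := by
  intro s hs
  set A := (s + R) / 2 with hA
  have hsA : s < A := by rw [hA]; linarith [hs.2]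
  have hRm : A ∈ Ico 0 R := ⟨by linarith [hs.1], by rw [hA]; linarith [hs.2]⟩
  have h1 : ContinuousWithinAt (fun s => mean μ m (cl A s)) (Ico 0 R) s :=
    (mean_cl_cont' hm hRm).continuousWithinAt
  refine h1.congr_of_eventuallyEq ?_ ?_
  · have h2 : ∀ᶠ t in 𝓝[Ico 0 R] s, t < A :=
      nhdsWithin_le_nhds (Iio_mem_nhds hsA)
    have h3 : ∀ᶠ t in 𝓝[Ico 0 R] s, t ∈ Ico 0 R := self_mem_nhdsWithin
    filter_upwards [h2, h3] with t ht1 ht2
    rw [cl_eq ⟨ht2.1, ht1.le⟩]
  · rw [cl_eq ⟨hs.1, hsA.le⟩]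

lemma mean_nonneg' {μ : Measure (Fr d)} {R : ℝ} {m : Met d} (hm : Good R m)
    {s : ℝ} (hs : s ∈ Ico 0 R) : 0 ≤ mean μ m s :=
  integral_nonneg fun _ => dens_nonneg' hm hs _

/-- The coefficient `p`. -/
noncomputable def pp (α τ : ℝ) : ℝ := Real.sin α * Real.cos τ / C α τ

/-- The coefficient `q`. -/
noncomputable def qq (α τ : ℝ) : ℝ := Real.cos α / C α τ ^ 2

/-- The two square roots. -/
noncomputable def rt (m : Met d) (s p q : ℝ) (x : Sph d) (w : E d) : ℝ :=
  √(m.a s x * p ^ 2 + 2 * p * inner ℝ (m.β s x) (q • w) + quad (m.g s x) (q • w))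

/-- The average of the square roots. -/
noncomputable def LL (m : Met d) (s p q : ℝ) (b : Fr d) : ℝ :=
  1 / (2 * d) * ∑ i : Fin d, (rt m s p q (vecF b 0) (b.1 i.succ) +
    rt m s p q (vecF b 0) (-b.1 i.succ))

/-- The upper bound. -/
noncomputable def UU (m : Met d) (s q c : ℝ) (b : Fr d) : ℝ :=
  1 + q ^ 2 / (d * c ^ (d - 2)) * (dens m s (vecF b 0) - c ^ d)

lemma quad_neg (g : Matrix (Fin (d + 1)) (Fin (d + 1)) ℝ) (v : E d) : quad g (-v) = quad g v := by
  have := Pool.Agent.Y249.HC.quad_smul g (-1) v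
  rw [neg_one_smul] at this
  rw [this]; norm_num

lemma rt_pos_eq (m : Met d) (s p q : ℝ) (x : Sph d) (w : E d) :
    rt m s p q x w = √(m.a s x * p ^ 2 + 2 * p * q * inner ℝ (m.β s x) w +
      q ^ 2 * quad (m.g s x) w) := by
  unfold rt
  rw [Pool.Agent.Y249.HC.quad_smul, inner_smul_right]
  congr 2
  ring

lemma rt_neg_eq (m : Met d) (s p q : ℝ) (x : Sph d) (w : E d) :
    rt m s p q x (-w) = √(m.a s x * p ^ 2 - 2 * p * q * inner ℝ (m.β s x) w +
      q ^ 2 * quad (m.g s x) w) := by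
  rw [rt_pos_eq, quad_neg, inner_neg_right]
  congr 2
  ring

lemma succ_inner (b : Fr d) (i : Fin d) : inner ℝ (vecF b 0 : E d) (b.1 i.succ) = 0 :=
  b.2.inner_eq_zero (Fin.succ_ne_zero i).symm

lemma sum_quad (b : Fr d) (G : Matrix (Fin (d + 1)) (Fin (d + 1)) ℝ) :
    ∑ i : Fin d, quad G (b.1 i.succ) = trTan G (b.1 0) := by
  have h1 := Pool.Agent.Y249.HC.trace_frame G b
  rw [Fin.sum_univ_succ] at h1
  unfold trTan
  rw [← h1]
  ring

/-- The pointwise inequality with its case of equality. -/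
lemma ptw (hP : T_PTW) (hd : 2 ≤ d) {R : ℝ} {m : Met d} (hm : Good R m) {s : ℝ} (hs : s ∈ Ico 0 R)
    {p q c : ℝ} (hc : 0 < c) (hpq : p ^ 2 + q ^ 2 * c ^ 2 = 1) (b : Fr d) :
    LL m s p q b ≤ UU m s q c b ∧ (LL m s p q b = UU m s q c b → p ≠ 0 → q ≠ 0 →
      m.a s (vecF b 0) = 1 ∧ ∀ i : Fin d, inner ℝ (m.β s (vecF b 0)) (b.1 i.succ) = 0 ∧
        quad (m.g s (vecF b 0)) (b.1 i.succ) = c ^ 2) := by
  have hv : (vecF b 0 : E d) ∈ sphere (0 : E d) 1 := (vecF b 0).2
  have hgn : ∀ i : Fin d, 0 ≤ quad (m.g s (vecF b 0)) (b.1 i.succ) := by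
    intro i
    have := hm.nonneg s hs _ hv 0 _ (succ_inner b i)
    simpa [Met.sq] using this
  have h1 := hP d hd (m.a s (vecF b 0)) p q c (fun i => inner ℝ (m.β s (vecF b 0)) (b.1 i.succ))
    (fun i => quad (m.g s (vecF b 0)) (b.1 i.succ)) (hm.lapse s hs _ hv) hc hpq hgn
    (fun i => by
      have := hm.nonneg s hs _ hv p (q • b.1 i.succ) (by
        rw [inner_smul_right, succ_inner, mul_zero])
      rw [Met.sq, Pool.Agent.Y249.HC.quad_smul, inner_smul_right] at this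
      linarith [this])
    (fun i => by
      have := hm.nonneg s hs _ hv p ((-q) • b.1 i.succ) (by
        rw [inner_smul_right, succ_inner, mul_zero])
      rw [Met.sq, Pool.Agent.Y249.HC.quad_smul, inner_smul_right] at this
      nlinarith [this])
  have e1 : LL m s p q b = 1 / (2 * d) * ∑ i : Fin d,
      (√(m.a s (vecF b 0) * p ^ 2 + 2 * p * q * inner ℝ (m.β s (vecF b 0)) (b.1 i.succ) +
        q ^ 2 * quad (m.g s (vecF b 0)) (b.1 i.succ)) +
      √(m.a s (vecF b 0) * p ^ 2 - 2 * p * q * inner ℝ (m.β s (vecF b 0)) (b.1 i.succ) +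
        q ^ 2 * quad (m.g s (vecF b 0)) (b.1 i.succ))) := by
    unfold LL
    congr 1
    refine Finset.sum_congr rfl fun i _ => ?_
    rw [rt_pos_eq, rt_neg_eq]
  have e2 : UU m s q c b = 1 + q ^ 2 / (d * c ^ (d - 2)) *
      (((∑ i : Fin d, quad (m.g s (vecF b 0)) (b.1 i.succ)) / d) ^ ((d : ℝ) / 2) - c ^ d) := by
    rw [sum_quad]
    rfl
  rw [e1, e2]
  exact h1

lemma rt_cont {Z : Type} [TopologicalSpace Z] {R α : ℝ} {m : Met d} (hm : Good R m)
    (hα : α ∈ Ico 0 R) {s p q : Z → ℝ} {x : Z → Sph d} {w : Z → E d} (hs : Continuous s)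
    (hp : Continuous p) (hq : Continuous q) (hx : Continuous x) (hw : Continuous w) :
    Continuous (fun z => rt m (cl α (s z)) (p z) (q z) (x z) (w z)) := by
  have hpc : Continuous (fun z => ((s z, x z) : ℝ × Sph d)) := hs.prodMk hx
  have hac : Continuous (fun z => m.a (cl α (s z)) (x z)) := (clamp_cont' hα hm.cont_a).comp hpc
  have hβc : Continuous (fun z => m.β (cl α (s z)) (x z)) := (clamp_cont' hα hm.cont_β).comp hpc
  have hgc : Continuous (fun z => m.g (cl α (s z)) (x z)) := (clamp_cont' hα hm.cont_g).comp hpc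
  unfold rt
  exact (((hac.mul (hp.pow 2)).add ((continuous_const.mul hp).mul (hβc.inner (hq.smul hw)))).add
    (quad_cont hgc (hq.smul hw))).sqrt

end Pool.Agent.Y499.HR
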