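import Pool.Agent.Y499.HC.MainR

set_option autoImplicit false
set_option maxHeartbeats 400000

open Real Set MeasureTheory Metric Filter Topology
open scoped ENNReal

namespace Pool.Agent.Y499.HR

open Pool.Agent.Y499.HC

variable {d : ℕ}

lemma mem_half {R α : ℝ} (hR : R ≤ π / 2) (hα : α ∈ Ioo 0 R) : α ∈ Ioo 0 (π / 2) :=
  ⟨hα.1, hα.2.trans_le hR⟩

lemma pp_cont {α : ℝ} (hα : α ∈ Ioo 0 (π / 2)) : Continuous (pp α) :=
  (continuous_const.mul Real.continuous_cos).div (continuous_C α) fun τ => (C_pos hα τ).ne'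

lemma qq_cont {α : ℝ} (hα : α ∈ Ioo 0 (π / 2)) : Continuous (qq α) :=
  continuous_const.div ((continuous_C α).pow 2) fun τ => (pow_pos (C_pos hα τ) 2).ne'

lemma LL_cont {R α : ℝ} {m : Met d} (hm : Good R m) (hR : R ≤ π / 2) (hα : α ∈ Ioo 0 R) :
    Continuous (fun z : ℝ × Fr d => LL m (cl α (S α z.1)) (pp α z.1) (qq α z.1) z.2) := by
  have hαm : α ∈ Ico 0 R := ⟨hα.1.le, hα.2⟩
  have hα2 := mem_half hR hα
  unfold LL
  refine continuous_const.mul (continuous_finsetSum _ fun i _ => ?_)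
  exact (rt_cont hm hαm ((continuous_S α).comp continuous_fst) ((pp_cont hα2).comp continuous_fst)
    ((qq_cont hα2).comp continuous_fst) ((continuous_vecF 0).comp continuous_snd)
    (continuous_fst_vec i.succ)).add
    (rt_cont hm hαm ((continuous_S α).comp continuous_fst) ((pp_cont hα2).comp continuous_fst)
    ((qq_cont hα2).comp continuous_fst) ((continuous_vecF 0).comp continuous_snd)
    (continuous_fst_vec i.succ).neg)

lemma dens_comp_cont {R α : ℝ} {m : Met d} (hm : Good R m) (hα : α ∈ Ioo 0 R) :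
    Continuous (fun z : ℝ × Fr d => dens m (cl α (S α z.1)) (vecF z.2 0)) := by
  have hαm : α ∈ Ico 0 R := ⟨hα.1.le, hα.2⟩
  have h := (dens_cont' hm hαm).comp
    (((continuous_S α).comp (continuous_fst (X := ℝ) (Y := Fr d))).prodMk
      ((continuous_vecF 0).comp continuous_snd))
  exact h

lemma coeff_cont {R α : ℝ} (hR : R ≤ π / 2) (hd : 2 ≤ d) (hα : α ∈ Ioo 0 R) :
    Continuous (fun z : ℝ × Fr d => qq α z.1 ^ 2 / ((d : ℝ) * C α z.1 ^ (d - 2))) := by
  have hα2 := mem_half hR hα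
  have h2 : Continuous (fun z : ℝ => (d : ℝ) * C α z ^ (d - 2)) :=
    continuous_const.mul ((continuous_C α).pow _)
  have h3 : ∀ z : ℝ, (d : ℝ) * C α z ^ (d - 2) ≠ 0 := by
    intro z
    have h1 := C_pos hα2 z
    have hd0 : (0 : ℝ) < d := by
      have : 0 < d := by omega
      exact_mod_cast this
    exact (mul_pos hd0 (pow_pos h1 _)).ne'
  have h5 := ((qq_cont hα2).pow 2).div h2 h3
  exact h5.comp continuous_fst

lemma UU_cont {R α : ℝ} {m : Met d} (hm : Good R m) (hR : R ≤ π / 2) (hd : 2 ≤ d)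
    (hα : α ∈ Ioo 0 R) :
    Continuous (fun z : ℝ × Fr d => UU m (cl α (S α z.1)) (qq α z.1) (C α z.1) z.2) := by
  have h1 := coeff_cont hR hd hα
  have h2 := dens_comp_cont hm hα
  have h3 : Continuous (fun z : ℝ × Fr d => C α z.1 ^ d) :=
    ((continuous_C α).comp continuous_fst).pow d
  have h4 : Continuous (fun z : ℝ × Fr d => 1 + qq α z.1 ^ 2 / ((d : ℝ) * C α z.1 ^ (d - 2)) *
    (dens m (cl α (S α z.1)) (vecF z.2 0) - C α z.1 ^ d)) :=
    continuous_const.add (h1.mul (h2.sub h3))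
  simp only [UU]
  exact h4

lemma coeff_eq {α : ℝ} (hα : α ∈ Ioo 0 (π / 2)) (hd : 2 ≤ d) (τ : ℝ) :
    qq α τ ^ 2 / (d * C α τ ^ (d - 2)) = Real.cos α ^ 2 / d * (1 / C α τ ^ (d + 2)) := by
  have hCp := C_pos hα τ
  have e1 : C α τ ^ (d + 2) = C α τ ^ (d - 2) * C α τ ^ 4 := by
    rw [← pow_add]; congr 1; omega
  have hd0 : (d : ℝ) ≠ 0 := by
    have : 0 < d := by omega
    exact_mod_cast this.ne'
  rw [e1]
  unfold qq
  field_simp

/-- The mean of the upper bound. -/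
lemma UU_mean {μ : Measure (Fr d)} [IsProbabilityMeasure μ] {R α : ℝ} {m : Met d}
    (hm : Good R m) (hR : R ≤ π / 2) (hd : 2 ≤ d) (hα : α ∈ Ioo 0 R) (τ : ℝ) :
    ∫ b, UU m (cl α (S α τ)) (qq α τ) (C α τ) b ∂μ =
      1 + Real.cos α ^ 2 / d * (1 / C α τ ^ (d + 2) * (mean μ m (cl α (S α τ)) - C α τ ^ d)) := by
  have hαm : α ∈ Ico 0 R := ⟨hα.1.le, hα.2⟩
  have hα2 := mem_half hR hα
  have hdn : Continuous (fun b : Fr d => dens m (cl α (S α τ)) (vecF b 0)) := by
    have := (dens_cont' hm hαm).comp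
      ((continuous_const (y := S α τ)).prodMk (continuous_vecF (d := d) 0))
    exact this
  have hint : ∀ f : Fr d → ℝ, Continuous f → Integrable f μ := fun f hf =>
    Pool.Agent.Y249.HC.integ μ f hf
  unfold UU
  have i1 : Integrable (fun b : Fr d => dens m (cl α (S α τ)) (vecF b 0) - C α τ ^ d) μ :=
    hint _ (hdn.sub continuous_const)
  have i2 : Integrable (fun b : Fr d => qq α τ ^ 2 / (d * C α τ ^ (d - 2)) *
      (dens m (cl α (S α τ)) (vecF b 0) - C α τ ^ d)) μ := i1.const_mul _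
  rw [integral_add (integrable_const _) i2, integral_const, integral_const_mul,
    integral_sub (hint _ hdn) (integrable_const _), integral_const, coeff_eq hα2 hd]
  simp [mean]
  ring

/-- The deficit, in an abstract form. -/
lemma abs_deficit {μ : Measure (Fr d)} [IsProbabilityMeasure μ] {F L U : ℝ × Fr d → ℝ}
    (hF : Continuous F) (hL : Continuous L) (hU : Continuous U) {h : ℝ → ℝ} (hh : Continuous h)
    {K : ℝ} (hcurve : ∀ b : Fr d, π ≤ ∫ τ in (0 : ℝ)..π, F (τ, b))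
    (havg : ∀ τ, ∫ b, F (τ, b) ∂μ = ∫ b, L (τ, b) ∂μ)
    (hUm : ∀ τ, ∫ b, U (τ, b) ∂μ = 1 + K * h τ) :
    ∫ τ in Ioc 0 π, (∫ b, (U (τ, b) - L (τ, b)) ∂μ) ≤ K * ∫ τ in (0 : ℝ)..π, h τ := by
  have hint : ∀ f : Fr d → ℝ, Continuous f → Integrable f μ := fun f hf =>
    Pool.Agent.Y249.HC.integ μ f hf
  have hcomp : ∀ G : ℝ × Fr d → ℝ, Continuous G →
      Integrable G ((volume.restrict (Ioc 0 π)).prod μ) := by
    intro G hG
    have h1 : IntegrableOn G (Icc 0 π ×ˢ univ) (volume.prod μ) :=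
      hG.continuousOn.integrableOn_compact (isCompact_Icc.prod isCompact_univ)
    have h2 : IntegrableOn G (Ioc 0 π ×ˢ univ) (volume.prod μ) :=
      h1.mono_set (prod_mono Ioc_subset_Icc_self Subset.rfl)
    rw [IntegrableOn, ← Measure.prod_restrict, Measure.restrict_univ] at h2
    exact h2
  have hprod := hcomp F hF
  have hswap := integral_integral_swap (f := fun τ b => F (τ, b)) hprod
  have hlow : π ≤ ∫ b, (∫ τ in Ioc 0 π, F (τ, b)) ∂μ := by
    have h1 : ∫ _b : Fr d, π ∂μ = π := by simp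
    have h2 : ∫ _b : Fr d, π ∂μ ≤ ∫ b, (∫ τ in Ioc 0 π, F (τ, b)) ∂μ := by
      refine integral_mono (integrable_const _) hprod.integral_prod_right fun b => ?_
      have := hcurve b
      rwa [intervalIntegral.integral_of_le Real.pi_pos.le] at this
    exact (le_of_eq h1.symm).trans h2
  have hLp := hcomp _ hL
  have hUp := hcomp _ hU
  have hLs : ∀ τ, Continuous (fun b : Fr d => L (τ, b)) :=
    fun τ => hL.comp (Continuous.prodMk_right τ)
  have hUs : ∀ τ, Continuous (fun b : Fr d => U (τ, b)) :=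
    fun τ => hU.comp (Continuous.prodMk_right τ)
  have h1 : π ≤ ∫ τ in Ioc 0 π, (∫ b, L (τ, b) ∂μ) := by
    refine (hlow.trans (le_of_eq hswap.symm)).trans (le_of_eq ?_)
    exact integral_congr_ae (Filter.Eventually.of_forall fun τ => havg τ)
  have h2 : ∫ τ in Ioc 0 π, (∫ b, (U (τ, b) - L (τ, b)) ∂μ) =
      (∫ τ in Ioc 0 π, (∫ b, U (τ, b) ∂μ)) - ∫ τ in Ioc 0 π, (∫ b, L (τ, b) ∂μ) := by
    rw [← integral_sub hUp.integral_prod_left hLp.integral_prod_left]
    refine integral_congr_ae (Filter.Eventually.of_forall fun τ => ?_)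
    exact integral_sub (hint _ (hUs τ)) (hint _ (hLs τ))
  have h3 : ∫ τ in Ioc 0 π, (∫ b, U (τ, b) ∂μ) = π + K * ∫ τ in (0 : ℝ)..π, h τ := by
    rw [← intervalIntegral.integral_of_le Real.pi_pos.le]
    have k3 : IntervalIntegrable (fun τ => K * h τ) volume 0 π :=
      (continuous_const.mul hh).intervalIntegrable 0 π
    have k4 : IntervalIntegrable (fun _ : ℝ => (1 : ℝ)) volume 0 π :=
      continuous_const.intervalIntegrable 0 π
    rw [← intervalIntegral.integral_const_mul]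
    have e : ∫ τ in (0 : ℝ)..π, (∫ b, U (τ, b) ∂μ) = ∫ τ in (0 : ℝ)..π, (1 + K * h τ) :=
      intervalIntegral.integral_congr fun τ _ => hUm τ
    rw [e, intervalIntegral.integral_add k4 k3]
    simp
  rw [h2, h3]
  linarith

/-- The point of the curve and its direction. -/
noncomputable def WW (α τ : ℝ) (b : Fr d) : E d :=
  (-(Real.cos α * Real.sin τ / C α τ)) • b.1 0 + (Real.cos τ / C α τ) • b.1 1

lemma WW_cont {α : ℝ} (hα : α ∈ Ioo 0 (π / 2)) :
    Continuous (fun z : ℝ × Fr d => WW α z.1 z.2) :=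
  (((continuous_coeff2 hα).comp continuous_fst).neg.smul (continuous_fst_vec 0)).add
      (((continuous_coeff1 hα).comp continuous_fst).smul (continuous_fst_vec 1))

lemma curve_rt {R : ℝ} (hR : R ≤ π / 2) {m : Met d} (hS : NonShort R m) {α : ℝ}
    (hα : α ∈ Ioo 0 R) (hd1 : 1 ≤ d) (b : Fr d) :
    π ≤ ∫ τ in (0 : ℝ)..π, rt m (cl α (S α τ)) (pp α τ) (qq α τ)
      (XX (mem_half hR hα) hd1 τ b) (WW α τ b) := by
  refine (curveR d hd1 R hR m hS α hα b).trans (le_of_eq ?_)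
  refine intervalIntegral.integral_congr fun τ hτ => ?_
  rw [uIcc_of_le Real.pi_pos.le] at hτ
  simp only [rt, Met.sq]
  rw [cl_eq (S_mem (mem_half hR hα) hτ)]
  rfl

lemma avg_rt (hA : T_AVGE) {μ : Measure (Fr d)} (hμ : IsFrameMeasure d μ) {R : ℝ}
    (hR : R ≤ π / 2) {m : Met d} (hm : Good R m) {α : ℝ} (hα : α ∈ Ioo 0 R) (hd1 : 1 ≤ d) (τ : ℝ) :
    ∫ b, rt m (cl α (S α τ)) (pp α τ) (qq α τ) (XX (mem_half hR hα) hd1 τ b) (WW α τ b) ∂μ =
      ∫ b, LL m (cl α (S α τ)) (pp α τ) (qq α τ) b ∂μ := by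
  have hαm : α ∈ Ico 0 R := ⟨hα.1.le, hα.2⟩
  have hΨ : Continuous (fun z : Sph d × E d => rt m (cl α (S α τ)) (pp α τ) (qq α τ) z.1 z.2) :=
    rt_cont hm hαm (continuous_const (y := S α τ)) continuous_const continuous_const
      continuous_fst continuous_snd
  have h := hA d hd1 μ hμ (fun z : Sph d × E d => rt m (cl α (S α τ)) (pp α τ) (qq α τ) z.1 z.2) hΨ
    (Real.cos τ / C α τ) (Real.cos α * Real.sin τ / C α τ)
    (unit_coeff (mem_half hR hα) τ) (XX (mem_half hR hα) hd1 τ) (fun b => rfl)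
  exact h

/-- The deficit. -/
lemma deficit (hA : T_AVGE) {μ : Measure (Fr d)}
    (hμ : IsFrameMeasure d μ) (hd : 2 ≤ d) {R : ℝ} (hR : R ≤ π / 2) {m : Met d} (hm : Good R m)
    (hS : NonShort R m) {α : ℝ} (hα : α ∈ Ioo 0 R) :
    ∫ τ in Ioc 0 π, (∫ b, (UU m (cl α (S α τ)) (qq α τ) (C α τ) b -
      LL m (cl α (S α τ)) (pp α τ) (qq α τ) b) ∂μ) ≤
      Real.cos α ^ 2 / d * ∫ τ in (0 : ℝ)..π,
        1 / C α τ ^ (d + 2) * (mean μ m (cl α (S α τ)) - C α τ ^ d) := by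
  have := hμ.prob
  have hd1 : 1 ≤ d := by omega
  have hαm : α ∈ Ico 0 R := ⟨hα.1.le, hα.2⟩
  have hα2 := mem_half hR hα
  have hCc := continuous_C α
  have hCp := C_pos hα2
  have hmc : Continuous (fun τ => mean μ m (cl α (S α τ))) :=
    (mean_cl_cont' hm hαm).comp (continuous_S α)
  have hw : Continuous (fun τ => 1 / C α τ ^ (d + 2)) :=
    continuous_const.div (hCc.pow _) fun τ => (pow_pos (hCp τ) _).ne'
  have hFc : Continuous (fun z : ℝ × Fr d => rt m (cl α (S α z.1)) (pp α z.1) (qq α z.1)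
      (XX (mem_half hR hα) hd1 z.1 z.2) (WW α z.1 z.2)) :=
    rt_cont hm hαm ((continuous_S α).comp continuous_fst)
      ((pp_cont hα2).comp continuous_fst) ((qq_cont hα2).comp continuous_fst)
      (continuous_XX hα2 hd1) (WW_cont hα2)
  exact abs_deficit hFc (LL_cont hm hR hα) (UU_cont hm hR hd hα) (hw.mul (hmc.sub (hCc.pow d)))
    (fun b => curve_rt hR hS hα hd1 b) (fun τ => avg_rt hA hμ hR hm hα hd1 τ)
    (fun τ => UU_mean hm hR hd hα τ)

/-- The deficit is nonnegative. -/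
lemma gap_nonneg (hP : T_PTW) (hd : 2 ≤ d) {R : ℝ} (hR : R ≤ π / 2) {m : Met d} (hm : Good R m)
    {α : ℝ} (hα : α ∈ Ioo 0 R) (τ : ℝ) (b : Fr d) :
    0 ≤ UU m (cl α (S α τ)) (qq α τ) (C α τ) b - LL m (cl α (S α τ)) (pp α τ) (qq α τ) b := by
  have hαm : α ∈ Ico 0 R := ⟨hα.1.le, hα.2⟩
  have hα2 := mem_half hR hα
  have h0 : pp α τ ^ 2 + qq α τ ^ 2 * C α τ ^ 2 = 1 := unit_speed hα2 τ
  have := (ptw hP hd hm (cl_mem' hαm (S α τ)) (C_pos hα2 τ) h0 b).1
  linarith

/-- The inequality for one angle. -/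
lemma one_alphaR (hP : T_PTW) (hA : T_AVGE) {μ : Measure (Fr d)}
    (hμ : IsFrameMeasure d μ) (hd : 2 ≤ d) {R : ℝ} (hR : R ≤ π / 2) {m : Met d} (hm : Good R m)
    (hS : NonShort R m) {α : ℝ} (hα : α ∈ Ioo 0 R) :
    0 ≤ ∫ τ in (0 : ℝ)..π, 1 / C α τ ^ (d + 2) * (mean μ m (cl α (S α τ)) - C α τ ^ d) := by
  have h1 := deficit hA hμ hd hR hm hS hα
  have h2 : 0 ≤ ∫ τ in Ioc 0 π, (∫ b, (UU m (cl α (S α τ)) (qq α τ) (C α τ) b -
      LL m (cl α (S α τ)) (pp α τ) (qq α τ) b) ∂μ) :=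
    integral_nonneg fun τ => integral_nonneg fun b => gap_nonneg hP hd hR hm hα τ b
  have hcos : 0 < Real.cos α ^ 2 / d := by
    have hα2 := mem_half hR hα
    have h1 := Real.cos_pos_of_mem_Ioo (x := α) ⟨by linarith [hα2.1, Real.pi_pos], hα2.2⟩
    have hd0 : (0 : ℝ) < d := by
      have : 0 < d := by omega
      exact_mod_cast this
    positivity
  exact nonneg_of_mul_nonneg_right (h2.trans h1) hcos

end Pool.Agent.Y499.HR
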