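import Pool.Agent.Y499.HC.FinalR

set_option autoImplicit false
set_option maxHeartbeats 400000

open Real Set MeasureTheory Metric Filter Topology
open scoped ENNReal

/-! # Project HC: metrics on real projective spaces in Fermi coordinates of a hyperplane -/

namespace Pool.Agent.Y499.HP

open Pool.Agent.Y499.HC Pool.Agent.Y499.HR

variable {d : ℕ}

/-- The function `k` on `(-L, L) × S^d` is continuous, positive and invariant under
`(s, x) ↦ (-s, -x)`: the metric `ds² + k(s, x)² g_round` descends to the quotient of `(-L, L) × S^d`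
by this involution, which is the projective space `RP^(d+1)` without a point. -/
structure IsSlice (d : ℕ) (L : ℝ) (k : ℝ → EuclideanSpace ℝ (Fin (d + 1)) → ℝ) : Prop where
  cont : ContinuousOn (fun p : ℝ × EuclideanSpace ℝ (Fin (d + 1)) => k p.1 p.2)
    (Ioo (-L) L ×ˢ sphere 0 1)
  pos : ∀ s ∈ Ioo (-L) L, ∀ x ∈ sphere (0 : EuclideanSpace ℝ (Fin (d + 1))) 1, 0 < k s x
  symm : ∀ s ∈ Ioo (-L) L, ∀ x ∈ sphere (0 : EuclideanSpace ℝ (Fin (d + 1))) 1,
    k (-s) (-x) = k s x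

/-- Every `C¹` curve in `(-L, L) × S^d` from a point `(s, x)` to `(-s, -x)` has length at least `π`
for the metric `ds² + k(s, x)² g_round`: every noncontractible closed curve in the quotient has
length at least `π`. -/
def SysGe (d : ℕ) (L : ℝ) (k : ℝ → EuclideanSpace ℝ (Fin (d + 1)) → ℝ) : Prop :=
  ∀ (l : ℝ) (s : ℝ → ℝ) (y : ℝ → EuclideanSpace ℝ (Fin (d + 1))), 0 < l → ContDiff ℝ 1 s →
    ContDiff ℝ 1 y → (∀ t ∈ Icc 0 l, s t ∈ Ioo (-L) L) → (∀ t, y t ∈ sphere 0 1) →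
    s l = -s 0 → y l = -y 0 →
    π ≤ ∫ t in (0 : ℝ)..l, √(deriv s t ^ 2 + k (s t) (y t) ^ 2 * ‖deriv y t‖ ^ 2)

/-- The volume of the metric `ds² + k(s, x)² g_round` on the quotient of `(-L, L) × S^d` by
`(s, x) ↦ (-s, -x)`, with the fundamental domain `[0, L) × S^d`. -/
noncomputable def projVol (d : ℕ) (L : ℝ) (k : ℝ → EuclideanSpace ℝ (Fin (d + 1)) → ℝ) : ℝ≥0∞ :=
  ∫⁻ s in Ioo 0 L, ∫⁻ x : Sph d, ENNReal.ofReal (k s x ^ d) ∂(σ d)

/-- The metric as a metric on the collar. -/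
noncomputable def metK (k : ℝ → EuclideanSpace ℝ (Fin (d + 1)) → ℝ) : Met d where
  a := fun _ _ => 1
  β := fun _ _ => 0
  g := fun s x => (k s x ^ 2) • (1 : Matrix (Fin (d + 1)) (Fin (d + 1)) ℝ)

lemma quad_smul_one (c : ℝ) (v : E d) :
    quad (c • (1 : Matrix (Fin (d + 1)) (Fin (d + 1)) ℝ)) v = c * ‖v‖ ^ 2 := by
  unfold quad
  rw [EuclideanSpace.norm_sq_eq, Finset.mul_sum]
  refine Finset.sum_congr rfl fun i _ => ?_
  simp [Matrix.smul_apply, Matrix.one_apply, pow_two]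
  ring

lemma metK_sq (k : ℝ → E d → ℝ) (s : ℝ) (x : E d) (p : ℝ) (v : E d) :
    (metK k).sq s x p v = p ^ 2 + k s x ^ 2 * ‖v‖ ^ 2 := by
  unfold Met.sq metK
  simp only [inner_zero_left, quad_smul_one]
  ring

lemma sub_dom {L R : ℝ} (hRL : R ≤ L) :
    (Ico 0 R ×ˢ sphere 0 1 : Set (ℝ × E d)) ⊆ Ioo (-L) L ×ˢ sphere 0 1 := by
  rintro ⟨s, x⟩ ⟨hs, hx⟩
  exact ⟨⟨by linarith [hs.1, hs.2], by linarith [hs.2]⟩, hx⟩

lemma metK_good {L R : ℝ} (hRL : R ≤ L) {k : ℝ → E d → ℝ} (hk : IsSlice d L k) :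
    Good R (metK k) where
  cont_a := continuousOn_const
  cont_β := continuousOn_const
  cont_g := by
    have h : ContinuousOn (fun p : ℝ × E d => k p.1 p.2) (Ico 0 R ×ˢ sphere 0 1) :=
      hk.cont.mono (sub_dom hRL)
    exact ContinuousOn.smul (h.pow 2) continuousOn_const
  symm := fun s _ x _ => by
    show Matrix.IsSymm _
    unfold metK
    simp [Matrix.IsSymm]
  nonneg := fun s _ x _ p v _ => by
    rw [metK_sq]
    positivity
  lapse := fun s _ x _ => le_rfl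

lemma metK_nonShort {L R : ℝ} (hRL : R ≤ L) {k : ℝ → E d → ℝ} (hk : SysGe d L k) :
    NonShort R (metK k) := by
  intro l s y hl hs hy hsR hy1 hs0 hsl hyl
  refine (hk l s y hl hs hy (fun t ht => ?_) hy1 ?_ hyl).trans (le_of_eq ?_)
  · have h := hsR t ht
    exact ⟨by linarith [h.1, h.2], by linarith [h.2]⟩
  · rw [hs0, hsl, neg_zero]
  · refine intervalIntegral.integral_congr fun t _ => ?_
    simp only [metK_sq]

lemma metK_fermi {R : ℝ} (k : ℝ → E d → ℝ) : Fermi R (metK k) := fun s _ x _ =>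
  ⟨rfl, fun v _ => inner_zero_left v⟩

lemma metK_slices (k : ℝ → E d → ℝ) (s : ℝ) (x v : E d) :
    quad ((metK k).g s x) v = k s x ^ 2 * ‖v‖ ^ 2 := quad_smul_one _ _

lemma vol_metK (hD : T_DET) {L R : ℝ} (hRL : R ≤ L) {k : ℝ → E d → ℝ}
    (hk : IsSlice d L k) : vol R (metK k) = projVol d R k := by
  unfold vol projVol
  refine setLIntegral_congr_fun measurableSet_Ioo fun s hs => ?_
  refine lintegral_congr fun x => ?_
  have hs' : s ∈ Ioo (-L) L := ⟨by linarith [hs.1, hs.2], by linarith [hs.2]⟩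
  have h1 := hD d ((metK k).g s x) ((metK_good (R := R) hRL hk).symm s ⟨hs.1.le, hs.2⟩ x x.2) x
    (mem_sphere_zero_iff_norm.1 x.2) (k s x) (fun v _ => metK_slices k s x v)
  have h2 := hk.pos s hs' x x.2
  rw [h1.2, ← pow_mul, mul_comm 2 d, pow_mul, Real.sqrt_sq_eq_abs, abs_pow, abs_of_pos h2]

lemma projVol_mono {L R : ℝ} (hRL : R ≤ L) (k : ℝ → E d → ℝ) : projVol d R k ≤ projVol d L k :=
  lintegral_mono_set (Ioo_subset_Ioo_right hRL)

lemma projVol_cos (hd : 1 ≤ d) {R : ℝ} (hR0 : 0 < R) (hR : R ≤ π / 2) {k : ℝ → E d → ℝ}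
    (hk : ∀ s ∈ Ioo 0 R, ∀ x ∈ sphere (0 : E d) 1, k s x = Real.cos s) :
    projVol d R k = hemiCollar d R := by
  unfold projVol hemiCollar
  rw [ofReal_int hR0 hR, ← lintegral_const_mul _ (by fun_prop)]
  refine setLIntegral_congr_fun measurableSet_Ioo fun s hs => ?_
  have h1 : ∀ x : Sph d, ENNReal.ofReal (k s x ^ d) = ENNReal.ofReal (Real.cos s ^ d) := by
    intro x
    rw [hk s hs x x.2]
  simp only [h1]
  rw [lintegral_const, mul_comm]

lemma exists_low {L A B : ℝ} (hA : -L < A) (hAB : A ≤ B) (hB : B < L) {k : ℝ → E d → ℝ}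
    (hk : IsSlice d L k) : ∃ c : ℝ, 0 < c ∧ ∀ s ∈ Icc A B, ∀ x : Sph d, c ≤ k s x := by
  have hcomp : IsCompact (Icc A B ×ˢ sphere (0 : E d) 1) :=
    isCompact_Icc.prod (isCompact_sphere _ _)
  have h1 : (EuclideanSpace.single (0 : Fin (d + 1)) (1 : ℝ) : E d) ∈ sphere (0 : E d) 1 := by
    simp
  have hne : (Icc A B ×ˢ sphere (0 : E d) 1).Nonempty := ⟨(A, _), ⟨le_rfl, hAB⟩, h1⟩
  have hsub : Icc A B ×ˢ sphere (0 : E d) 1 ⊆ Ioo (-L) L ×ˢ sphere 0 1 :=
    prod_mono (fun s hs => ⟨hA.trans_le hs.1, hs.2.trans_lt hB⟩) Subset.rfl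
  have hc : ContinuousOn (fun p : ℝ × E d => k p.1 p.2) (Icc A B ×ˢ sphere (0 : E d) 1) :=
    hk.cont.mono hsub
  obtain ⟨z, hz1, hz2⟩ := hcomp.exists_isMinOn hne hc
  have hz3 := hsub hz1
  refine ⟨k z.1 z.2, hk.pos z.1 hz3.1 z.2 hz3.2, fun s hs x => ?_⟩
  have h : ((s, (x : E d)) : ℝ × E d) ∈ Icc A B ×ˢ sphere (0 : E d) 1 := ⟨hs, x.2⟩
  exact (isMinOn_iff.1 hz2) (s, (x : E d)) h

/-- The part of the collar beyond `R` has positive volume. -/
lemma beyond {R L : ℝ} (hR0 : 0 < R) (hlt : R < L) {k : ℝ → E d → ℝ} (hk : IsSlice d L k) :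
    ∫⁻ s in Ioo R L, ∫⁻ x : Sph d, ENNReal.ofReal (k s x ^ d) ∂(σ d) ≠ 0 := by
  obtain ⟨A, hA1, hA2⟩ := exists_between hlt
  obtain ⟨B, hB1, hB2⟩ := exists_between hA2
  obtain ⟨c, hc0, hc⟩ := exists_low (by linarith) hB1.le hB2 hk
  intro hz
  have hbd : (ENNReal.ofReal (c ^ d) * (σ d) univ) * ENNReal.ofReal (B - A) ≤
      ∫⁻ s in Ioo R L, ∫⁻ x : Sph d, ENNReal.ofReal (k s x ^ d) ∂(σ d) := by
    refine le_trans ?_ (lintegral_mono_set (Ioo_subset_Ioo hA1.le hB2.le))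
    have e : ∫⁻ _s in Ioo A B, (ENNReal.ofReal (c ^ d) * (σ d) univ) =
        (ENNReal.ofReal (c ^ d) * (σ d) univ) * ENNReal.ofReal (B - A) := by
      rw [lintegral_const, Measure.restrict_apply_univ, Real.volume_Ioo]
    rw [← e]
    refine setLIntegral_mono' measurableSet_Ioo fun s hs => ?_
    rw [← lintegral_const]
    refine lintegral_mono fun x => ENNReal.ofReal_le_ofReal ?_
    exact pow_le_pow_left₀ hc0.le (hc s ⟨hs.1.le, hs.2.le⟩ x) _
  rw [hz] at hbd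
  have hbd2 := nonpos_iff_eq_zero.1 hbd
  rw [mul_eq_zero, mul_eq_zero, ENNReal.ofReal_eq_zero, ENNReal.ofReal_eq_zero] at hbd2
  rcases hbd2 with (h8 | h8) | h8
  · exact absurd h8 (not_le.2 (pow_pos hc0 _))
  · exact sigma_ne_zero h8
  · linarith

lemma eq_of_vol {R L : ℝ} (hR0 : 0 < R) (hRL : R ≤ L) {k : ℝ → E d → ℝ} (hk : IsSlice d L k)
    (hfin : projVol d R k ≠ ⊤) (h : projVol d L k ≤ projVol d R k) : L = R := by
  by_contra hne
  have hlt : R < L := lt_of_le_of_ne hRL (Ne.symm hne)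
  have hdisj : Disjoint (Ioo 0 R) (Ioo R L) := by
    rw [Set.disjoint_left]
    intro s h1 h2
    exact absurd h1.2 (not_lt.2 h2.1.le)
  have hsplit : projVol d R k + ∫⁻ s in Ioo R L,
      ∫⁻ x : Sph d, ENNReal.ofReal (k s x ^ d) ∂(σ d) ≤ projVol d L k := by
    unfold projVol
    rw [← lintegral_union measurableSet_Ioo hdisj]
    refine lintegral_mono_set ?_
    rintro s (h1 | h1)
    · exact ⟨h1.1, h1.2.trans hlt⟩
    · exact ⟨hR0.trans h1.1, h1.2⟩
  have h7 : projVol d R k + ∫⁻ s in Ioo R L,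
      ∫⁻ x : Sph d, ENNReal.ofReal (k s x ^ d) ∂(σ d) ≤ projVol d R k + 0 := by
    rw [add_zero]
    exact hsplit.trans h
  exact beyond hR0 hlt hk (nonpos_iff_eq_zero.1 ((ENNReal.add_le_add_iff_left hfin).1 h7))

/-- A round metric has the function `cos`. -/
lemma cos_of_round (hd : 2 ≤ d) {R L : ℝ} (hR : R ≤ π / 2) (hRL : R ≤ L) {k : ℝ → E d → ℝ}
    (hk : IsSlice d L k) (h : IsRound R (metK k)) {s : ℝ} (hs : s ∈ Ico 0 R) {x : E d}
    (hx : x ∈ sphere (0 : E d) 1) : k s x = Real.cos s := by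
  have hx1 : ‖x‖ = 1 := mem_sphere_zero_iff_norm.1 hx
  obtain ⟨b, hb⟩ := frame_one x hx1
  have h01 : (0 : Fin (d + 1)) ≠ 1 := by
    obtain ⟨j, rfl⟩ : ∃ j, d = j + 1 := ⟨d - 1, by omega⟩
    exact Fin.zero_ne_one
  have hv : inner ℝ x (b.1 1) = (0 : ℝ) := by
    rw [← hb]
    exact b.2.inner_eq_zero h01
  have h6 := h s hs x hx 0 (b.1 1) hv
  rw [metK_sq, b.2.norm_eq_one] at h6
  have h7 := hk.pos s ⟨by linarith [hs.1, hs.2], hs.2.trans_le hRL⟩ x hx
  have h8 : 0 < Real.cos s :=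
    Real.cos_pos_of_mem_Ioo ⟨by linarith [hs.1, Real.pi_pos], hs.2.trans_le hR⟩
  have h9 : k s x ^ 2 = Real.cos s ^ 2 := by linear_combination h6
  exact (sq_eq_sq₀ h7.le h8.le).1 h9

/-- The systolic inequality on the collar. -/
lemma proj_ge (hF : T_FRAME) (hP : T_PTW) (hA : T_AVGE) (hI : T_INV2)
    (hD : T_DET) (hd : 2 ≤ d) {L : ℝ} (hL : π / 2 ≤ L) {k : ℝ → E d → ℝ} (hk : IsSlice d L k)
    (hs : SysGe d L k) : hemiCollar d (π / 2) ≤ projVol d (π / 2) k := by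
  rw [← vol_metK hD hL hk,
    vol_eq_energy hD hd (metK_good hL hk) (k := k) (fun s _ x _ v _ => metK_slices k s x v)]
  exact energy_geR hF hP hA hI hd (by positivity) le_rfl (metK_good hL hk) (metK_nonShort hL hs)

lemma proj_round (hF : T_FRAME) (hP : T_PTW) (hA : T_AVGE) (hI : T_INV2) (hO : T_POS)
    (hD : T_DET) (hd : 2 ≤ d) {L : ℝ} (hL : π / 2 ≤ L) {k : ℝ → E d → ℝ} (hk : IsSlice d L k)
    (hs : SysGe d L k) (h : projVol d (π / 2) k = hemiCollar d (π / 2)) :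
    IsRound (π / 2) (metK k) := by
  rw [← vol_metK hD hL hk,
    vol_eq_energy hD hd (metK_good hL hk) (k := k) (fun s _ x _ v _ => metK_slices k s x v)] at h
  exact isRound_of_energy hF hP hA hI hO hd (by positivity) le_rfl (metK_good hL hk)
    (metK_nonShort hL hs) h

/-- The systolic inequality and the case of equality. -/
theorem proj_main (hF : T_FRAME) (hP : T_PTW) (hA : T_AVGE) (hI : T_INV2) (hO : T_POS)
    (hD : T_DET) (hd : 2 ≤ d) {L : ℝ} (hL : π / 2 ≤ L) {k : ℝ → E d → ℝ} (hk : IsSlice d L k)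
    (hs : SysGe d L k) :
    hemiCollar d (π / 2) ≤ projVol d L k ∧
    (projVol d L k = hemiCollar d (π / 2) ↔
      L = π / 2 ∧ ∀ s ∈ Ioo (-L) L, ∀ x ∈ sphere (0 : E d) 1, k s x = Real.cos s) := by
  have hπ : 0 < π / 2 := by positivity
  have h1 := proj_ge hF hP hA hI hD hd hL hk hs
  refine ⟨h1.trans (projVol_mono hL k), ?_, ?_⟩
  · intro h
    have h2 : projVol d (π / 2) k = hemiCollar d (π / 2) :=
      le_antisymm ((projVol_mono hL k).trans h.le) h1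
    have h4 := proj_round hF hP hA hI hO hD hd hL hk hs h2
    have hfin : projVol d (π / 2) k ≠ ⊤ := by
      rw [h2]
      exact ENNReal.mul_ne_top (measure_ne_top _ _) ENNReal.ofReal_ne_top
    have h6 : L = π / 2 := eq_of_vol hπ hL hk hfin (h.trans h2.symm).le
    refine ⟨h6, fun s hs x hx => ?_⟩
    have hs' : s ∈ Ioo (-(π / 2)) (π / 2) := by rw [h6] at hs; exact hs
    rcases le_or_gt 0 s with h7 | h7
    · exact cos_of_round hd le_rfl hL hk h4 ⟨h7, hs'.2⟩ hx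
    · have h8 := hk.symm s hs x hx
      have hx' : -x ∈ sphere (0 : E d) 1 := by
        rw [mem_sphere_zero_iff_norm] at hx ⊢
        rw [norm_neg, hx]
      have h9 := cos_of_round hd le_rfl hL hk h4 (s := -s) ⟨by linarith, by linarith [hs'.1]⟩ hx'
      rw [← h8, h9, Real.cos_neg]
  · rintro ⟨h, hc⟩
    rw [h] at hc ⊢
    exact projVol_cos (by omega) hπ le_rfl fun s hs x hx =>
      hc s ⟨by linarith [hs.1, Real.pi_pos], hs.2⟩ x hx

/-- Quasiconformal slices. -/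
theorem proj_qc (hF : T_FRAME) (hP : T_PTW) (hA : T_AVGE) (hI : T_INV2) (hd : 2 ≤ d) {L : ℝ}
    (hL : π / 2 ≤ L) {m : Met d} (hm : Good L m) (hS : NonShort L m) {K : ℝ} (hK : 0 ≤ K)
    (hq : ∀ s ∈ Ioo 0 L, ∀ x : Sph d,
      (trTan (m.g s x) x / d) ^ ((d : ℝ) / 2) ≤ K * √(detTan (m.g s x) x)) :
    hemiCollar d (π / 2) ≤ ENNReal.ofReal K * vol L m := by
  have hsub : Ico 0 (π / 2) ⊆ Ico 0 L := Ico_subset_Ico_right hL
  have hsub2 : (Ico 0 (π / 2) ×ˢ sphere 0 1 : Set (ℝ × E d)) ⊆ Ico 0 L ×ˢ sphere 0 1 :=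
    prod_mono hsub Subset.rfl
  have hG : Good (π / 2) m := ⟨hm.cont_a.mono hsub2, hm.cont_β.mono hsub2, hm.cont_g.mono hsub2,
    fun s hs => hm.symm s (hsub hs), fun s hs => hm.nonneg s (hsub hs),
    fun s hs => hm.lapse s (hsub hs)⟩
  have hN : NonShort (π / 2) m := fun l s y hl hs hy hsR =>
    hS l s y hl hs hy (fun t ht => hsub (hsR t ht))
  refine (vol_ge_qcR hF hP hA hI hd (by positivity) le_rfl hG hN hK
    (fun s hs => hq s ⟨hs.1, hs.2.trans_le hL⟩)).trans ?_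
  refine mul_le_mul_right ?_ _
  exact lintegral_mono_set (Ioo_subset_Ioo_right hL)

end Pool.Agent.Y499.HP
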