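import Pool.Agent.Y499.HC.ProjRound

set_option autoImplicit false
set_option maxHeartbeats 400000

open Real Set MeasureTheory Metric Filter Topology
open scoped ENNReal Nat

/-! # Project HC: the constant of the isosystolic inequality -/

namespace Pool.Agent.Y499.HP

open Pool.Agent.Y499.HC Pool.Agent.Y499.HR

variable {d : ℕ}

/-- The volume of the unit ball. -/
noncomputable def vR (n : ℕ) : ℝ := √π ^ n / Real.Gamma (n / 2 + 1)

lemma vR_pos (n : ℕ) : 0 < vR n := by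
  unfold vR
  have : 0 < Real.Gamma ((n : ℝ) / 2 + 1) := Real.Gamma_pos_of_pos (by positivity)
  positivity

lemma vR_succ (n : ℕ) : vR (n + 2) = vR n * (2 * π / (n + 2)) := by
  unfold vR
  have h1 : ((n + 2 : ℕ) : ℝ) / 2 + 1 = ((n : ℝ) / 2 + 1) + 1 := by push_cast; ring
  have h2 : Real.Gamma (((n : ℝ) / 2 + 1) + 1) = ((n : ℝ) / 2 + 1) * Real.Gamma ((n : ℝ) / 2 + 1) :=
    Real.Gamma_add_one (by positivity)
  have h3 : 0 < Real.Gamma ((n : ℝ) / 2 + 1) := Real.Gamma_pos_of_pos (by positivity)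
  rw [h1, h2, pow_add, Real.sq_sqrt Real.pi_pos.le]
  field_simp
  try ring

lemma W_succ (d : ℕ) : ∫ θ in (0 : ℝ)..(π / 2), Real.cos θ ^ (d + 2) =
    (d + 1) / (d + 2) * ∫ θ in (0 : ℝ)..(π / 2), Real.cos θ ^ d := by
  rw [integral_cos_pow]
  simp

/-- The statement of the identity of the constants. -/
def CI (d : ℕ) : Prop := ((d : ℝ) + 1) * vR (d + 1) ^ 2 * ((d + 1)! : ℝ) *
  (∫ θ in (0 : ℝ)..(π / 2), Real.cos θ ^ d) = (2 * π) ^ (d + 1)

lemma CI_zero : CI 0 := by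
  unfold CI vR
  have h : Real.Gamma (((0 + 1 : ℕ) : ℝ) / 2 + 1) = √π / 2 := by
    have h1 : ((0 + 1 : ℕ) : ℝ) / 2 + 1 = 1 / 2 + 1 := by push_cast; ring
    rw [h1, Real.Gamma_add_one (by norm_num), Real.Gamma_one_half_eq]
    ring
  rw [h]
  have hπ : 0 < √π := Real.sqrt_pos.2 Real.pi_pos
  simp
  field_simp

lemma CI_one : CI 1 := by
  unfold CI vR
  have h : Real.Gamma (((1 + 1 : ℕ) : ℝ) / 2 + 1) = 1 := by
    have h1 : ((1 + 1 : ℕ) : ℝ) / 2 + 1 = 1 + 1 := by push_cast; ring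
    rw [h1, Real.Gamma_add_one (by norm_num), Real.Gamma_one]
    ring
  rw [h]
  have hπ : √π ^ 2 = π := Real.sq_sqrt Real.pi_pos.le
  simp [hπ]
  ring

lemma CI_step {d : ℕ} (h : CI d) : CI (d + 2) := by
  unfold CI at h ⊢
  have e1 : vR (d + 2 + 1) = vR (d + 1) * (2 * π / ((d : ℝ) + 3)) := by
    have := vR_succ (d + 1)
    rw [show d + 2 + 1 = d + 1 + 2 from rfl, this]
    push_cast
    ring
  have e2 : (((d + 2 + 1)! : ℕ) : ℝ) = ((d : ℝ) + 3) * ((d : ℝ) + 2) * (((d + 1)! : ℕ) : ℝ) := by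
    rw [Nat.factorial_succ (d + 2), Nat.factorial_succ (d + 1)]
    push_cast
    ring
  rw [e1, e2, W_succ]
  have e3 : (2 * π) ^ (d + 2 + 1) = (2 * π) ^ 2 * (2 * π) ^ (d + 1) := by
    rw [← pow_add]; congr 1; omega
  rw [e3, ← h]
  push_cast
  field_simp
  try ring

lemma CI_all (d : ℕ) : CI d ∧ CI (d + 1) := by
  induction d with
  | zero => exact ⟨CI_zero, CI_one⟩
  | succ d ih => exact ⟨ih.2, CI_step ih.1⟩

lemma ball_eq (d : ℕ) : (volume : Measure (EuclideanSpace ℝ (Fin (d + 1)))) (ball 0 1) =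
    ENNReal.ofReal (vR (d + 1)) := by
  rw [EuclideanSpace.volume_ball]
  simp [vR]

/-- The constant. -/
lemma hemi_const (d : ℕ) : (((d + 1)! : ℕ) : ℝ≥0∞) *
    (volume : Measure (EuclideanSpace ℝ (Fin (d + 1)))) (ball 0 1) * hemiCollar d (π / 2) =
    ENNReal.ofReal ((2 * π) ^ (d + 1)) := by
  unfold hemiCollar σ
  rw [Measure.toSphere_apply_univ, ball_eq, ← (CI_all d).1]
  have hv := vR_pos (d + 1)
  have hW : 0 ≤ ∫ θ in (0 : ℝ)..(π / 2), Real.cos θ ^ d := by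
    refine intervalIntegral.integral_nonneg (by positivity) fun s hs => ?_
    exact pow_nonneg (Real.cos_nonneg_of_mem_Icc
      ⟨by linarith [hs.1, Real.pi_pos], by linarith [hs.2]⟩) _
  have h1 : (((d + 1)! : ℕ) : ℝ≥0∞) = ENNReal.ofReal (((d + 1)! : ℕ) : ℝ) := by simp
  have h2 : ((Module.finrank ℝ (EuclideanSpace ℝ (Fin (d + 1))) : ℕ) : ℝ≥0∞) =
      ENNReal.ofReal ((d : ℝ) + 1) := by
    rw [finrank_euclideanSpace, Fintype.card_fin]
    rw [show ((d : ℝ) + 1) = ((d + 1 : ℕ) : ℝ) by push_cast; ring, ENNReal.ofReal_natCast]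
  rw [h1, h2, ← ENNReal.ofReal_mul (by positivity), ← ENNReal.ofReal_mul (by positivity),
    ← ENNReal.ofReal_mul (by positivity), ← ENNReal.ofReal_mul (by positivity)]
  congr 1
  ring

/-- The isosystolic inequality. -/
theorem proj_iso (hF : T_FRAME) (hP : T_PTW) (hA : T_AVGE) (hI : T_INV2) (hO : T_POS)
    (hD : T_DET) (hd : 2 ≤ d) {L : ℝ} (hL : 0 < L) {k : ℝ → E d → ℝ} (hk : IsSlice d L k) :
    (2 * sysK d L k) ^ (d + 1) ≤ (((d + 1)! : ℕ) : ℝ≥0∞) *
      (volume : Measure (EuclideanSpace ℝ (Fin (d + 1)))) (ball 0 1) * projVol d L k := by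
  rcases eq_or_ne (sysK d L k) 0 with h0 | h0
  · rw [h0, mul_zero, zero_pow (by omega)]
    exact zero_le
  · have htop : sysK d L k ≠ ⊤ := ne_top_of_le_ne_top ENNReal.ofReal_ne_top (sysK_le k)
    obtain ⟨ℓ, hℓ⟩ : ∃ ℓ, ℓ = (sysK d L k).toReal := ⟨_, rfl⟩
    have hℓ0 : 0 < ℓ := by rw [hℓ]; exact ENNReal.toReal_pos h0 htop
    have hS : sysK d L k = ENNReal.ofReal ℓ := by rw [hℓ, ENNReal.ofReal_toReal htop]
    have h2L : ℓ ≤ 2 * L := by
      have h := sysK_le (L := L) k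
      rw [hS] at h
      exact (ENNReal.ofReal_le_ofReal_iff (by positivity)).1 h
    have hat : SysAtLeast d L ℓ k := by rw [hℓ]; exact sysK_atLeast
    have h := (proj_ratio hF hP hA hI hO hD hd hℓ0 h2L hk hat).1
    refine le_trans (le_of_eq ?_) (mul_le_mul_right h _)
    rw [hS, mul_left_comm, hemi_const, ← ENNReal.ofReal_mul (by positivity)]
    rw [show (2 : ℝ≥0∞) = ENNReal.ofReal 2 by simp, ← ENNReal.ofReal_mul (by norm_num),
      ← ENNReal.ofReal_pow (by positivity)]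
    congr 1
    rw [← mul_pow]
    congr 1
    field_simp

end Pool.Agent.Y499.HP
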