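import Pool.Agent.Y499.HC.ProjScale

set_option autoImplicit false
set_option maxHeartbeats 400000

open Real Set MeasureTheory Metric Filter Topology
open scoped ENNReal

/-! # Project HC: the systole of the standard metric -/

namespace Pool.Agent.Y499.HP

open Pool.Agent.Y499.HC Pool.Agent.Y499.HR

variable {d : ℕ}

lemma key_id {c S c₀ S₀ A : ℝ} (h1 : c ^ 2 + S ^ 2 = 1) (h2 : c₀ ^ 2 + S₀ ^ 2 = 1) :
    1 - (c₀ * c * A + S₀ * S) ^ 2 = (S₀ * c - c₀ * S * A) ^ 2 + c₀ ^ 2 * (1 - A ^ 2) := by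
  linear_combination (-(S₀ ^ 2) - c₀ ^ 2 * A ^ 2) * h1 - h2

lemma key_ineq {p c S c₀ S₀ A B Y : ℝ} (h1 : c ^ 2 + S ^ 2 = 1) (h2 : c₀ ^ 2 + S₀ ^ 2 = 1)
    (hA : A ^ 2 ≤ 1) (hB : B ^ 2 ≤ (1 - A ^ 2) * Y ^ 2) :
    (p * (S₀ * c - c₀ * S * A) + c₀ * c * B) ^ 2 ≤
      (1 - (c₀ * c * A + S₀ * S) ^ 2) * (p ^ 2 + c ^ 2 * Y ^ 2) := by
  rw [key_id h1 h2]
  obtain ⟨a, ha⟩ : ∃ a, a = S₀ * c - c₀ * S * A := ⟨_, rfl⟩
  obtain ⟨D, hD⟩ : ∃ D, D = 1 - A ^ 2 := ⟨_, rfl⟩
  rw [← ha, ← hD]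
  rw [← hD] at hB
  have hD0 : 0 ≤ D := by rw [hD]; linarith
  have h3 : (2 * (a * c) * (c₀ * p) * B) ^ 2 ≤ ((a * c) ^ 2 * Y ^ 2 + (c₀ * p) ^ 2 * D) ^ 2 := by
    have e1 : 0 ≤ ((a * c) * (c₀ * p)) ^ 2 * (D * Y ^ 2 - B ^ 2) :=
      mul_nonneg (sq_nonneg _) (sub_nonneg.2 hB)
    nlinarith [sq_nonneg ((a * c) ^ 2 * Y ^ 2 - (c₀ * p) ^ 2 * D)]
  have h4 : 0 ≤ (a * c) ^ 2 * Y ^ 2 + (c₀ * p) ^ 2 * D := by positivity
  have h5 := (abs_le_of_sq_le_sq h3 h4)
  have h6 := (le_abs_self _).trans h5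
  have h7 : 0 ≤ (c₀ * c) ^ 2 * (D * Y ^ 2 - B ^ 2) := mul_nonneg (sq_nonneg _) (sub_nonneg.2 hB)
  nlinarith

/-- A curve on the round sphere which joins two antipodal points has length at least `π`. -/
lemma round_length {l : ℝ} {s : ℝ → ℝ} {y : ℝ → E d} (hl : 0 < l) (hs : ContDiff ℝ 1 s)
    (hy : ContDiff ℝ 1 y) (hy1 : ∀ t, y t ∈ sphere (0 : E d) 1) (hs0 : s l = -s 0)
    (hyl : y l = -y 0) :
    π ≤ ∫ t in (0 : ℝ)..l, √(deriv s t ^ 2 + Real.cos (s t) ^ 2 * ‖deriv y t‖ ^ 2) := by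
  have hds : ∀ t, HasDerivAt s (deriv s t) t := fun t =>
    ((hs.differentiable one_ne_zero) t).hasDerivAt
  have hdy : ∀ t, HasDerivAt y (deriv y t) t := fun t =>
    ((hy.differentiable one_ne_zero) t).hasDerivAt
  have hyy : ∀ t, inner ℝ (y t) (y t) = (1 : ℝ) := fun t => by
    rw [real_inner_self_eq_norm_sq, mem_sphere_zero_iff_norm.1 (hy1 t), one_pow]
  have hort : ∀ t, inner ℝ (y t) (deriv y t) = (0 : ℝ) := by
    intro t
    have h1 := (hdy t).inner ℝ (hdy t)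
    have h2 : (fun t => inner ℝ (y t) (y t)) = fun _ => (1 : ℝ) := funext hyy
    rw [h2] at h1
    have h3 := h1.unique (hasDerivAt_const t (1 : ℝ))
    rw [real_inner_comm (y t) (deriv y t)] at h3
    linarith
  have hA1 : ∀ t, inner ℝ (y 0) (y t) ^ 2 ≤ (1 : ℝ) := by
    intro t
    have h := real_inner_mul_inner_self_le (y 0) (y t)
    rw [hyy, hyy] at h
    nlinarith
  have hB : ∀ t, inner ℝ (y 0) (deriv y t) ^ 2 ≤
      (1 - inner ℝ (y 0) (y t) ^ 2) * ‖deriv y t‖ ^ 2 := by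
    intro t
    obtain ⟨A, hA⟩ : ∃ A : ℝ, A = inner ℝ (y 0) (y t) := ⟨_, rfl⟩
    have h := real_inner_mul_inner_self_le (y 0 - A • y t) (deriv y t)
    have e1 : inner ℝ (y 0 - A • y t) (deriv y t) = inner ℝ (y 0) (deriv y t) := by
      rw [inner_sub_left, real_inner_smul_left, hort]
      ring
    have e2 : inner ℝ (y 0 - A • y t) (y 0 - A • y t) = 1 - A ^ 2 := by
      rw [inner_sub_left, inner_sub_right, inner_sub_right, real_inner_smul_left,
        real_inner_smul_left, real_inner_smul_right, real_inner_smul_right, hyy, hyy,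
        real_inner_comm (y 0) (y t), ← hA]
      ring
    rw [e1, e2, real_inner_self_eq_norm_sq] at h
    rw [← hA]
    nlinarith
  obtain ⟨v, hv⟩ : ∃ v : ℝ → ℝ, v = fun t =>
    √(deriv s t ^ 2 + Real.cos (s t) ^ 2 * ‖deriv y t‖ ^ 2) := ⟨_, rfl⟩
  have hvc : Continuous v := by
    rw [hv]
    have h1 := hs.continuous_deriv le_rfl
    have h2 := hy.continuous_deriv le_rfl
    have h3 := hs.continuous
    exact ((h1.pow 2).add (((Real.continuous_cos.comp h3).pow 2).mul (h2.norm.pow 2))).sqrt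
  obtain ⟨f, hf⟩ : ∃ f : ℝ → ℝ, f = fun t => Real.cos (s 0) * Real.cos (s t) *
    inner ℝ (y 0) (y t) + Real.sin (s 0) * Real.sin (s t) := ⟨_, rfl⟩
  have hcs : ∀ t : ℝ, Real.cos t ^ 2 + Real.sin t ^ 2 = 1 := fun t => by
    rw [add_comm]; exact Real.sin_sq_add_cos_sq t
  have hf1 : ∀ t, f t ^ 2 ≤ 1 := by
    intro t
    have h := key_id (A := inner ℝ (y 0) (y t)) (hcs (s t)) (hcs (s 0))
    have h2 : 0 ≤ (Real.sin (s 0) * Real.cos (s t) -
        Real.cos (s 0) * Real.sin (s t) * inner ℝ (y 0) (y t)) ^ 2 +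
        Real.cos (s 0) ^ 2 * (1 - inner ℝ (y 0) (y t) ^ 2) :=
      add_nonneg (sq_nonneg _) (mul_nonneg (sq_nonneg _) (sub_nonneg.2 (hA1 t)))
    rw [hf]
    linarith
  obtain ⟨f', hf'⟩ : ∃ f' : ℝ → ℝ, f' = fun t => deriv s t * (Real.sin (s 0) * Real.cos (s t) -
    Real.cos (s 0) * Real.sin (s t) * inner ℝ (y 0) (y t)) +
    Real.cos (s 0) * Real.cos (s t) * inner ℝ (y 0) (deriv y t) := ⟨_, rfl⟩
  have hfd : ∀ t, HasDerivAt f (f' t) t := by
    intro t
    have h1 : HasDerivAt (fun t => inner ℝ (y 0) (y t)) (inner ℝ (y 0) (deriv y t)) t := by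
      have := (hasDerivAt_const t (y 0)).inner ℝ (hdy t)
      simpa using this
    have h2 := (Real.hasDerivAt_cos (s t)).comp t (hds t)
    have h3 := (Real.hasDerivAt_sin (s t)).comp t (hds t)
    have h4 := ((h2.const_mul (Real.cos (s 0))).mul h1).add (h3.const_mul (Real.sin (s 0)))
    rw [hf, hf']
    refine h4.congr_deriv ?_
    simp only [Function.comp_apply]
    ring
  have hf'b : ∀ t, f' t ^ 2 ≤ (1 - f t ^ 2) * v t ^ 2 := by
    intro t
    have h := key_ineq (p := deriv s t) (hcs (s t)) (hcs (s 0)) (hA1 t) (hB t)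
    rw [hf, hf', hv]
    simp only
    rw [Real.sq_sqrt (by positivity)]
    exact h
  have hρ : ∀ ρ ∈ Ioo (0 : ℝ) 1, 2 * Real.arcsin ρ ≤ ∫ t in (0 : ℝ)..l, v t := by
    intro ρ hρ
    have hlt : ∀ t, (ρ * f t) ^ 2 < 1 := by
      intro t
      have h1 := hf1 t
      have h2 : ρ ^ 2 < 1 := by nlinarith [hρ.1, hρ.2]
      rw [mul_pow]
      nlinarith [sq_nonneg (f t), sq_nonneg ρ]
    have hG : ∀ t, HasDerivAt (fun t => Real.arcsin (ρ * f t) + ∫ u in (0 : ℝ)..t, v u)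
        (1 / √(1 - (ρ * f t) ^ 2) * (ρ * f' t) + v t) t := by
      intro t
      have h1 := hlt t
      have h2 : ρ * f t ≠ -1 := fun h => by rw [h] at h1; norm_num at h1
      have h3 : ρ * f t ≠ 1 := fun h => by rw [h] at h1; norm_num at h1
      have h4 := (Real.hasDerivAt_arcsin h2 h3).comp t ((hfd t).const_mul ρ)
      exact h4.add (hvc.integral_hasStrictDerivAt 0 t).hasDerivAt
    have hmono : Monotone (fun t => Real.arcsin (ρ * f t) + ∫ u in (0 : ℝ)..t, v u) := by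
      refine monotone_of_deriv_nonneg (fun t => (hG t).differentiableAt) fun t => ?_
      rw [(hG t).deriv]
      have h1 := hlt t
      have hv0 : 0 ≤ v t := by rw [hv]; exact Real.sqrt_nonneg _
      have hsq : 0 < √(1 - (ρ * f t) ^ 2) := Real.sqrt_pos.2 (by linarith)
      have h5 : (ρ * f' t) ^ 2 ≤ (√(1 - (ρ * f t) ^ 2) * v t) ^ 2 := by
        rw [mul_pow (√(1 - (ρ * f t) ^ 2)), Real.sq_sqrt (by linarith), mul_pow, mul_pow]
        have h6 := hf'b t
        have h7 : ρ ^ 2 ≤ 1 := by nlinarith [hρ.1, hρ.2]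
        have h8 := hf1 t
        have h9 : ρ ^ 2 * f' t ^ 2 ≤ ρ ^ 2 * ((1 - f t ^ 2) * v t ^ 2) :=
          mul_le_mul_of_nonneg_left h6 (sq_nonneg _)
        have h10 : ρ ^ 2 * (1 - f t ^ 2) ≤ 1 - ρ ^ 2 * f t ^ 2 := by nlinarith
        have h11 := mul_le_mul_of_nonneg_right h10 (sq_nonneg (v t))
        nlinarith
      have h6 := abs_le_of_sq_le_sq h5 (by positivity)
      have h7 : -(√(1 - (ρ * f t) ^ 2) * v t) ≤ ρ * f' t := (abs_le.1 h6).1
      have h8 : ∀ q w z : ℝ, 0 < q → 1 / q * w + z = (w + q * z) / q := by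
        intro q w z hq
        field_simp
      rw [h8 _ _ _ hsq]
      exact div_nonneg (by linarith) hsq.le
    have h1 := hmono hl.le
    have hf0 : f 0 = 1 := by
      rw [hf]
      simp only [hyy]
      have := hcs (s 0)
      linarith
    have hfl : f l = -1 := by
      rw [hf]
      simp only [hs0, hyl, inner_neg_right, hyy, Real.cos_neg, Real.sin_neg]
      have := hcs (s 0)
      linarith
    simp only [intervalIntegral.integral_same, hf0, hfl, mul_one, mul_neg, add_zero,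
      Real.arcsin_neg] at h1
    linarith
  have hlim : Tendsto (fun ρ : ℝ => 2 * Real.arcsin ρ) (𝓝[<] 1) (𝓝 (2 * Real.arcsin 1)) :=
    ((continuous_const.mul Real.continuous_arcsin).tendsto 1).mono_left nhdsWithin_le_nhds
  have h2 : 2 * Real.arcsin 1 = π := by rw [Real.arcsin_one]; ring
  rw [h2] at hlim
  have h3 : π ≤ ∫ t in (0 : ℝ)..l, v t := by
    refine le_of_tendsto hlim ?_
    filter_upwards [Ioo_mem_nhdsLT (zero_lt_one (α := ℝ))] with ρ h using hρ ρ h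
  rw [hv] at h3
  exact h3

/-- The systole of the metric `ds² + k(s, x)² g_round` on the projective space: the infimum of the
lengths of the `C¹` curves in `(-L, L) × S^d` from a point `(s, x)` to `(-s, -x)` and of the length
`2 L` of the closed curves through the missing point. -/
noncomputable def sysK (d : ℕ) (L : ℝ) (k : ℝ → EuclideanSpace ℝ (Fin (d + 1)) → ℝ) : ℝ≥0∞ :=
  min (ENNReal.ofReal (2 * L)) (sInf {r : ℝ≥0∞ | ∃ (l : ℝ) (s : ℝ → ℝ)
    (y : ℝ → EuclideanSpace ℝ (Fin (d + 1))), 0 < l ∧ ContDiff ℝ 1 s ∧ ContDiff ℝ 1 y ∧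
    (∀ t ∈ Icc 0 l, s t ∈ Ioo (-L) L) ∧ (∀ t, y t ∈ sphere 0 1) ∧ s l = -s 0 ∧ y l = -y 0 ∧
    r = ENNReal.ofReal (∫ t in (0 : ℝ)..l, √(deriv s t ^ 2 + k (s t) (y t) ^ 2 *
      ‖deriv y t‖ ^ 2))})

lemma cos_slice : IsSlice d (π / 2) fun s _ => Real.cos s where
  cont := (Real.continuous_cos.comp continuous_fst).continuousOn
  pos := fun s hs _ _ => Real.cos_pos_of_mem_Ioo hs
  symm := fun s _ x _ => Real.cos_neg s

/-- A semicircle. -/
lemma semi : ENNReal.ofReal π ≤ sysK d (π / 2) fun s _ => Real.cos s := by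
  unfold sysK
  refine le_min (by rw [mul_div_cancel₀ _ (two_ne_zero)]) (le_sInf ?_)
  rintro r ⟨l, s, y, hl, hs, hy, _, hy1, hs0, hyl, rfl⟩
  exact ENNReal.ofReal_le_ofReal (round_length hl hs hy hy1 hs0 hyl)

lemma sysK_cos : (sysK d (π / 2) fun s _ => Real.cos s) = ENNReal.ofReal π := by
  refine le_antisymm ?_ semi
  unfold sysK
  refine (min_le_left _ _).trans ?_
  rw [mul_div_cancel₀ _ (two_ne_zero)]

lemma sysK_atLeast {L : ℝ} {k : ℝ → E d → ℝ} :
    SysAtLeast d L (sysK d L k).toReal k := by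
  intro l s y hl hs hy hsR hy1 hs0 hyl
  have h0 : 0 ≤ ∫ t in (0 : ℝ)..l, √(deriv s t ^ 2 + k (s t) (y t) ^ 2 * ‖deriv y t‖ ^ 2) :=
    intervalIntegral.integral_nonneg hl.le fun t _ => Real.sqrt_nonneg _
  refine ENNReal.toReal_le_of_le_ofReal h0 ?_
  exact (min_le_right _ _).trans (sInf_le ⟨l, s, y, hl, hs, hy, hsR, hy1, hs0, hyl, rfl⟩)

lemma sysK_le {L : ℝ} (k : ℝ → E d → ℝ) : sysK d L k ≤ ENNReal.ofReal (2 * L) := min_le_left _ _

lemma projVol_ne {L : ℝ} (hL : 0 < L) {k : ℝ → E d → ℝ} (hk : IsSlice d L k) :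
    projVol d L k ≠ 0 := by
  have h := beyond (R := L / 2) (by positivity) (by linarith) hk
  intro h0
  apply h
  refine nonpos_iff_eq_zero.1 (le_trans ?_ h0.le)
  exact lintegral_mono_set (Ioo_subset_Ioo_left (by positivity))

/-- The round metric has the least systolic ratio. -/
theorem proj_least (hF : T_FRAME) (hP : T_PTW) (hA : T_AVGE) (hI : T_INV2) (hO : T_POS)
    (hD : T_DET) (hd : 2 ≤ d) :
    IsLeast {x : ℝ≥0∞ | ∃ (L : ℝ) (k : ℝ → EuclideanSpace ℝ (Fin (d + 1)) → ℝ), 0 < L ∧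
        IsSlice d L k ∧ x = projVol d L k / sysK d L k ^ (d + 1)}
      (hemiCollar d (π / 2) / ENNReal.ofReal π ^ (d + 1)) := by
  have hπ : 0 < π / 2 := by positivity
  constructor
  · refine ⟨π / 2, fun s _ => Real.cos s, hπ, cos_slice, ?_⟩
    rw [sysK_cos, projVol_cos (by omega) hπ le_rfl fun s _ x _ => rfl]
  · rintro x ⟨L, k, hL, hk, rfl⟩
    have hV := projVol_ne hL hk
    rcases eq_or_ne (sysK d L k) 0 with h0 | h0
    · rw [h0, zero_pow (by omega), ENNReal.div_zero hV]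
      exact le_top
    · have htop : sysK d L k ≠ ⊤ := ne_top_of_le_ne_top ENNReal.ofReal_ne_top (sysK_le k)
      obtain ⟨ℓ, hℓ⟩ : ∃ ℓ, ℓ = (sysK d L k).toReal := ⟨_, rfl⟩
      have hℓ0 : 0 < ℓ := by rw [hℓ]; exact ENNReal.toReal_pos h0 htop
      have hS : sysK d L k = ENNReal.ofReal ℓ := by rw [hℓ, ENNReal.ofReal_toReal htop]
      have h2L : ℓ ≤ 2 * L := by
        have h := sysK_le (L := L) k
        rw [hS] at h
        exact (ENNReal.ofReal_le_ofReal_iff (by positivity)).1 h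
      have hat : SysAtLeast d L ℓ k := by rw [hℓ]; exact sysK_atLeast
      have h := (proj_ratio hF hP hA hI hO hD hd hℓ0 h2L hk hat).1
      rw [hS, ENNReal.le_div_iff_mul_le (Or.inl (by
          have : 0 < ENNReal.ofReal ℓ ^ (d + 1) :=
            ENNReal.pow_pos (ENNReal.ofReal_pos.2 hℓ0) _
          exact this.ne')) (Or.inl (ENNReal.pow_ne_top ENNReal.ofReal_ne_top))]
      refine le_trans (le_of_eq ?_) h
      rw [← ENNReal.ofReal_pow hℓ0.le, ← ENNReal.ofReal_pow Real.pi_pos.le, div_pow,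
        ENNReal.ofReal_div_of_pos (by positivity)]
      generalize hemiCollar d (π / 2) = H
      generalize ENNReal.ofReal (ℓ ^ (d + 1)) = A
      generalize ENNReal.ofReal (π ^ (d + 1)) = B
      simp only [div_eq_mul_inv]
      ring

end Pool.Agent.Y499.HP
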