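import Pool.Agent.Y499.HC.Proj

set_option autoImplicit false
set_option maxHeartbeats 400000

open Real Set MeasureTheory Metric Filter Topology
open scoped ENNReal

/-! # Project HC: the systolic ratio -/

namespace Pool.Agent.Y499.HP

open Pool.Agent.Y499.HC Pool.Agent.Y499.HR

variable {d : ℕ}

/-- Every `C¹` curve in `(-L, L) × S^d` from a point `(s, x)` to `(-s, -x)` has length at least `ℓ`
for the metric `ds² + k(s, x)² g_round`. -/
def SysAtLeast (d : ℕ) (L ℓ : ℝ) (k : ℝ → EuclideanSpace ℝ (Fin (d + 1)) → ℝ) : Prop :=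
  ∀ (l : ℝ) (s : ℝ → ℝ) (y : ℝ → EuclideanSpace ℝ (Fin (d + 1))), 0 < l → ContDiff ℝ 1 s →
    ContDiff ℝ 1 y → (∀ t ∈ Icc 0 l, s t ∈ Ioo (-L) L) → (∀ t, y t ∈ sphere 0 1) →
    s l = -s 0 → y l = -y 0 →
    ℓ ≤ ∫ t in (0 : ℝ)..l, √(deriv s t ^ 2 + k (s t) (y t) ^ 2 * ‖deriv y t‖ ^ 2)

lemma lint_scale {c : ℝ} (hc : 0 < c) (L : ℝ) (f : ℝ → ℝ≥0∞) :
    ∫⁻ s in Ioo 0 (L / c), f (c * s) = ENNReal.ofReal c⁻¹ * ∫⁻ t in Ioo 0 L, f t := by
  rw [← lintegral_indicator measurableSet_Ioo, ← lintegral_indicator measurableSet_Ioo]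
  have h1 : (Ioo 0 (L / c)).indicator (fun s => f (c * s)) =
      fun s => ((Ioo 0 L).indicator f) (c * s) := by
    funext s
    by_cases hs : s ∈ Ioo 0 (L / c)
    · have h2 : c * s ∈ Ioo 0 L :=
        ⟨mul_pos hc hs.1, by
          have := hs.2
          rw [lt_div_iff₀ hc] at this
          linarith⟩
      rw [indicator_of_mem hs, indicator_of_mem h2]
    · have h2 : c * s ∉ Ioo 0 L := fun h => hs ⟨pos_of_mul_pos_right h.1 hc.le, by
        rw [lt_div_iff₀ hc]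
        linarith [h.2]⟩
      rw [indicator_of_notMem hs, indicator_of_notMem h2]
  rw [h1]
  have h3 := (Homeomorph.mulLeft₀ c hc.ne').measurableEmbedding.lintegral_map
    (μ := volume) ((Ioo 0 L).indicator f)
  have h4 : (fun s : ℝ => (Homeomorph.mulLeft₀ c hc.ne') s) = fun s => c * s := rfl
  rw [show (⇑(Homeomorph.mulLeft₀ c hc.ne') : ℝ → ℝ) = fun s => c * s from rfl] at h3
  rw [← h3, Real.map_volume_mul_left hc.ne', lintegral_smul_measure, abs_of_pos (inv_pos.2 hc)]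
  rfl

/-- The scaled function. -/
noncomputable def scK (c : ℝ) (k : ℝ → EuclideanSpace ℝ (Fin (d + 1)) → ℝ) :
    ℝ → EuclideanSpace ℝ (Fin (d + 1)) → ℝ := fun s x => k (c * s) x / c

lemma mem_scale {c L s : ℝ} (hc : 0 < c) (hs : s ∈ Ioo (-(L / c)) (L / c)) :
    c * s ∈ Ioo (-L) L := by
  have h1 := hs.1
  have h2 := hs.2
  rw [lt_div_iff₀ hc] at h2
  rw [← neg_div, div_lt_iff₀ hc] at h1
  exact ⟨by linarith, by linarith⟩

lemma scK_slice {c : ℝ} (hc : 0 < c) {L : ℝ} {k : ℝ → E d → ℝ} (hk : IsSlice d L k) :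
    IsSlice d (L / c) (scK c k) where
  cont := by
    have h : ContinuousOn (fun p : ℝ × E d => k (c * p.1) p.2)
        (Ioo (-(L / c)) (L / c) ×ˢ sphere 0 1) := by
      refine hk.cont.comp (f := fun p : ℝ × E d => ((c * p.1, p.2) : ℝ × E d)) (by fun_prop) ?_
      rintro ⟨s, x⟩ ⟨hs, hx⟩
      exact ⟨mem_scale hc hs, hx⟩
    exact h.div_const c
  pos := fun s hs x hx => div_pos (hk.pos _ (mem_scale hc hs) x hx) hc
  symm := fun s hs x hx => by
    show k (c * -s) (-x) / c = k (c * s) x / c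
    rw [mul_neg, hk.symm _ (mem_scale hc hs) x hx]

lemma scK_sys {c ℓ : ℝ} (hc : 0 < c) (hℓ : ℓ = c * π) {L : ℝ} {k : ℝ → E d → ℝ}
    (hk : SysAtLeast d L ℓ k) : SysGe d (L / c) (scK c k) := by
  intro l s y hl hs hy hsR hy1 hs0 hyl
  have h := hk l (fun t => c * s t) y hl (contDiff_const.mul hs) hy
    (fun t ht => mem_scale hc (hsR t ht)) hy1 (by rw [hs0, mul_neg]) hyl
  have e : ∀ t, √(deriv (fun t => c * s t) t ^ 2 + k (c * s t) (y t) ^ 2 * ‖deriv y t‖ ^ 2) =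
      c * √(deriv s t ^ 2 + scK c k (s t) (y t) ^ 2 * ‖deriv y t‖ ^ 2) := by
    intro t
    have h1 : deriv (fun t => c * s t) t = c * deriv s t :=
      deriv_const_mul c ((hs.differentiable one_ne_zero) t)
    rw [h1]
    unfold scK
    have h2 : (c * deriv s t) ^ 2 + k (c * s t) (y t) ^ 2 * ‖deriv y t‖ ^ 2 =
        c ^ 2 * (deriv s t ^ 2 + (k (c * s t) (y t) / c) ^ 2 * ‖deriv y t‖ ^ 2) := by
      field_simp
    rw [h2, Real.sqrt_mul (sq_nonneg c), Real.sqrt_sq hc.le]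
  simp only [e] at h
  rw [intervalIntegral.integral_const_mul, hℓ] at h
  exact le_of_mul_le_mul_left h hc

lemma scK_vol {c : ℝ} (hc : 0 < c) (L : ℝ) (k : ℝ → E d → ℝ) :
    ENNReal.ofReal (c ^ (d + 1)) * projVol d (L / c) (scK c k) = projVol d L k := by
  have h1 : ∀ (s : ℝ) (x : Sph d), ENNReal.ofReal (scK c k s x ^ d) =
      ENNReal.ofReal (c⁻¹ ^ d) * ENNReal.ofReal (k (c * s) x ^ d) := by
    intro s x
    rw [← ENNReal.ofReal_mul (by positivity)]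
    congr 1
    unfold scK
    rw [← mul_pow]
    congr 1
    field_simp
  unfold projVol
  simp only [h1]
  have h2 : ∀ s : ℝ, ∫⁻ x : Sph d, ENNReal.ofReal (c⁻¹ ^ d) *
      ENNReal.ofReal (k (c * s) x ^ d) ∂(σ d) =
      ENNReal.ofReal (c⁻¹ ^ d) * ∫⁻ x : Sph d, ENNReal.ofReal (k (c * s) x ^ d) ∂(σ d) :=
    fun s => lintegral_const_mul' _ _ ENNReal.ofReal_ne_top
  simp only [h2]
  rw [lintegral_const_mul' _ _ ENNReal.ofReal_ne_top,
    lint_scale hc L (fun t => ∫⁻ x : Sph d, ENNReal.ofReal (k t x ^ d) ∂(σ d)),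
    ← mul_assoc, ← mul_assoc, ← ENNReal.ofReal_mul (by positivity),
    ← ENNReal.ofReal_mul (by positivity)]
  have h3 : c ^ (d + 1) * c⁻¹ ^ d * c⁻¹ = 1 := by
    rw [mul_assoc, ← pow_succ, ← mul_pow, mul_inv_cancel₀ hc.ne', one_pow]
  rw [h3, ENNReal.ofReal_one, one_mul]

/-- The systolic inequality. -/
theorem proj_ratio (hF : T_FRAME) (hP : T_PTW) (hA : T_AVGE) (hI : T_INV2) (hO : T_POS)
    (hD : T_DET) (hd : 2 ≤ d) {L ℓ : ℝ} (hℓ : 0 < ℓ) (hL : ℓ ≤ 2 * L) {k : ℝ → E d → ℝ}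
    (hk : IsSlice d L k) (hs : SysAtLeast d L ℓ k) :
    ENNReal.ofReal ((ℓ / π) ^ (d + 1)) * hemiCollar d (π / 2) ≤ projVol d L k ∧
    (projVol d L k = ENNReal.ofReal ((ℓ / π) ^ (d + 1)) * hemiCollar d (π / 2) ↔
      L = ℓ / 2 ∧ ∀ s ∈ Ioo (-L) L, ∀ x ∈ sphere (0 : E d) 1,
        k s x = ℓ / π * Real.cos (π * s / ℓ)) := by
  obtain ⟨c, hc⟩ : ∃ c, c = ℓ / π := ⟨_, rfl⟩
  have hc0 : 0 < c := by rw [hc]; positivity
  have hℓc : ℓ = c * π := by rw [hc]; field_simp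
  have hL' : π / 2 ≤ L / c := by
    rw [le_div_iff₀ hc0]
    rw [hℓc] at hL
    linarith
  have h := proj_main hF hP hA hI hO hD hd hL' (scK_slice hc0 hk) (scK_sys hc0 hℓc hs)
  rw [← scK_vol hc0 L k, ← hc]
  have hn0 : ENNReal.ofReal (c ^ (d + 1)) ≠ 0 := by
    rw [Ne, ENNReal.ofReal_eq_zero, not_le]
    positivity
  refine ⟨mul_le_mul_right h.1 _, ?_⟩
  rw [ENNReal.mul_right_inj hn0 ENNReal.ofReal_ne_top, h.2]
  have e1 : L / c = π / 2 ↔ L = ℓ / 2 := by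
    rw [div_eq_iff hc0.ne', hℓc]
    constructor <;> intro h <;> linarith
  rw [e1]
  refine and_congr_right fun hLℓ => ?_
  constructor
  · intro h1 s hs x hx
    have h2 : s / c ∈ Ioo (-(L / c)) (L / c) :=
      ⟨by rw [← neg_div]; exact (div_lt_div_iff_of_pos_right hc0).2 hs.1,
        (div_lt_div_iff_of_pos_right hc0).2 hs.2⟩
    have h3 := h1 (s / c) h2 x hx
    unfold scK at h3
    rw [mul_div_cancel₀ _ hc0.ne', div_eq_iff hc0.ne'] at h3
    rw [h3, mul_comm]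
    congr 2
    rw [hℓc]
    field_simp
  · intro h1 s hs x hx
    have h2 := h1 (c * s) (mem_scale hc0 hs) x hx
    show k (c * s) x / c = Real.cos s
    rw [h2, mul_div_assoc, mul_div_cancel₀ _ hc0.ne'] 
    congr 1
    rw [hℓc]
    field_simp

end Pool.Agent.Y499.HP
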