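import Pool.Agent.Y499.HC.Ineq

set_option autoImplicit false
set_option maxHeartbeats 400000

open Real Set MeasureTheory Metric Filter Topology
open scoped ENNReal

namespace Pool.Agent.Y499.HR

open Pool.Agent.Y499.HC

variable {d : ℕ}

/-- A nonnegative continuous function with nonpositive integral vanishes. -/
lemma zero_of_int {g : ℝ → ℝ} (hg : Continuous g) (h0 : ∀ τ, 0 ≤ g τ)
    (h : ∫ τ in Ioc 0 π, g τ ≤ 0) {τ : ℝ} (hτ : τ ∈ Icc 0 π) : g τ = 0 := by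
  by_contra hne
  have hpos : 0 < g τ := lt_of_le_of_ne (h0 τ) (Ne.symm hne)
  have := intervalIntegral.integral_pos Real.pi_pos hg.continuousOn (fun s _ => h0 s) ⟨τ, hτ, hpos⟩
  rw [intervalIntegral.integral_of_le Real.pi_pos.le] at this
  linarith

lemma S_pos {α : ℝ} (hα : α ∈ Ioo 0 (π / 2)) {τ : ℝ} (hτ : τ ∈ Ioo 0 π) : 0 < S α τ := by
  refine Real.arcsin_pos.2 (mul_pos ?_ ?_)
  · exact Real.sin_pos_of_pos_of_lt_pi hα.1 (by linarith [hα.2, Real.pi_pos])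
  · exact Real.sin_pos_of_pos_of_lt_pi hτ.1 hτ.2

lemma abs_zero (hO : T_POS) {μ : Measure (Fr d)} (hμ : IsFrameMeasure d μ) {G : ℝ × Fr d → ℝ}
    (hG : Continuous G) (h0 : ∀ z, 0 ≤ G z)
    (h : ∫ τ in Ioc 0 π, (∫ b, G (τ, b) ∂μ) ≤ 0) {τ : ℝ} (hτ : τ ∈ Icc 0 π) (b : Fr d) :
    G (τ, b) = 0 := by
  have := hμ.prob
  have h4 := continuous_parametric_integral_of_continuous (μ := μ)
    (f := fun (τ : ℝ) (b : Fr d) => G (τ, b)) hG (s := univ) isCompact_univ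
  simp only [Measure.restrict_univ] at h4
  have h5 := zero_of_int h4 (fun τ => integral_nonneg fun b => h0 (τ, b)) h hτ
  exact hO d μ hμ (fun b => G (τ, b)) (hG.comp (Continuous.prodMk_right τ))
    (fun b => h0 (τ, b)) h5 b

lemma rhs_zero {μ : Measure (Fr d)} {R : ℝ} (hR : R ≤ π / 2) {m : Met d}
    (hz : ∀ s ∈ Ioo 0 R, mean μ m s = Real.cos s ^ d) {α : ℝ} (hα : α ∈ Ioo 0 R) :
    ∫ τ in (0 : ℝ)..π, 1 / C α τ ^ (d + 2) * (mean μ m (cl α (S α τ)) - C α τ ^ d) = 0 := by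
  have hα2 := mem_half hR hα
  rw [intervalIntegral.integral_of_le Real.pi_pos.le, integral_Ioc_eq_integral_Ioo]
  refine setIntegral_eq_zero_of_forall_eq_zero fun τ hτ => ?_
  have h3 := S_mem hα2 ⟨hτ.1.le, hτ.2.le⟩
  rw [cl_eq h3, hz (S α τ) ⟨S_pos hα2 hτ, h3.2.trans_lt hα.2⟩, cos_S, sub_self, mul_zero]

/-- The difference of the two sides of the pointwise inequality. -/
noncomputable def gap (m : Met d) (α : ℝ) (z : ℝ × Fr d) : ℝ :=
  UU m (cl α (S α z.1)) (qq α z.1) (C α z.1) z.2 - LL m (cl α (S α z.1)) (pp α z.1) (qq α z.1) z.2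

lemma gap_cont {R : ℝ} (hd : 2 ≤ d) (hR : R ≤ π / 2) {m : Met d} (hm : Good R m) {α : ℝ}
    (hα : α ∈ Ioo 0 R) : Continuous (gap m α) :=
  (UU_cont hm hR hd hα).sub (LL_cont hm hR hα)

lemma gap_int (hA : T_AVGE) {μ : Measure (Fr d)} (hμ : IsFrameMeasure d μ) (hd : 2 ≤ d) {R : ℝ}
    (hR : R ≤ π / 2) {m : Met d} (hm : Good R m) (hS : NonShort R m)
    (hz : ∀ s ∈ Ioo 0 R, mean μ m s = Real.cos s ^ d) {α : ℝ} (hα : α ∈ Ioo 0 R) :
    ∫ τ in Ioc 0 π, (∫ b, gap m α (τ, b) ∂μ) ≤ 0 := by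
  have h1 := deficit hA hμ hd hR hm hS hα
  rw [rhs_zero hR hz hα, mul_zero] at h1
  exact h1

lemma gap_zero (hP : T_PTW) (hA : T_AVGE) (hO : T_POS) {μ : Measure (Fr d)}
    (hμ : IsFrameMeasure d μ) (hd : 2 ≤ d) {R : ℝ} (hR : R ≤ π / 2) {m : Met d} (hm : Good R m)
    (hS : NonShort R m) (hz : ∀ s ∈ Ioo 0 R, mean μ m s = Real.cos s ^ d) {α : ℝ}
    (hα : α ∈ Ioo 0 R) {τ : ℝ} (hτ : τ ∈ Icc 0 π) (b : Fr d) : gap m α (τ, b) = 0 :=
  abs_zero hO hμ (gap_cont hd hR hm hα) (fun z => gap_nonneg hP hd hR hm hα z.1 z.2)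
    (gap_int hA hμ hd hR hm hS hz hα) hτ b

lemma frame_one (x : E d) (hx : ‖x‖ = 1) : ∃ b : Fr d, b.1 0 = x := by
  have hv : Orthonormal ℝ (({(0 : Fin (d + 1))} : Set (Fin (d + 1))).restrict fun _ => x) := by
    rw [orthonormal_iff_ite]
    intro i j
    have hij : i = j := Subtype.ext (by rw [i.2, j.2])
    rw [if_pos hij]
    change inner ℝ x x = 1
    rw [real_inner_self_eq_norm_sq, hx, one_pow]
  obtain ⟨b, hb⟩ := hv.exists_orthonormalBasis_extension_of_card_eq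
    (by simp)
  exact ⟨⟨b, b.orthonormal⟩, hb 0 rfl⟩

lemma frame_two (hd : 1 ≤ d) (x u : E d) (hx : ‖x‖ = 1) (hu : ‖u‖ = 1) (hxu : inner ℝ x u = 0) :
    ∃ b : Fr d, b.1 0 = x ∧ b.1 1 = u := by
  have h01 : (0 : Fin (d + 1)) ≠ 1 := by
    obtain ⟨k, rfl⟩ : ∃ k, d = k + 1 := ⟨d - 1, by omega⟩
    exact Fin.zero_ne_one
  have hv : Orthonormal ℝ (({(0 : Fin (d + 1)), 1} : Set (Fin (d + 1))).restrict
      fun i => if i = 0 then x else u) := by
    rw [orthonormal_iff_ite]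
    rintro ⟨i, hi⟩ ⟨j, hj⟩
    simp only [Subtype.mk.injEq]
    change inner ℝ (if i = 0 then x else u) (if j = 0 then x else u) = _
    have hux : inner ℝ u x = 0 := by rw [real_inner_comm]; exact hxu
    rcases hi with hi | hi <;> rcases hj with hj | hj <;> subst hi <;> subst hj
    · simp [hx]
    · simp [h01, h01.symm, hxu]
    · simp [h01.symm, hux]
    · simp [h01.symm, hu]
  obtain ⟨b, hb⟩ := hv.exists_orthonormalBasis_extension_of_card_eq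
    (by simp)
  refine ⟨⟨b, b.orthonormal⟩, ?_, ?_⟩
  · have := hb 0 (by simp)
    simpa using this
  · have := hb 1 (by simp)
    simpa [h01.symm] using this

lemma exists_angle {s α : ℝ} (hs : 0 < s) (hsα : s < α) (hα : α < π / 2) :
    ∃ τ ∈ Ioo 0 (π / 2), S α τ = s := by
  have h1 : 0 < Real.sin s := Real.sin_pos_of_pos_of_lt_pi hs (by linarith [Real.pi_pos])
  have h2 : Real.sin s < Real.sin α :=
    Real.sin_lt_sin_of_lt_of_le_pi_div_two (by linarith [Real.pi_pos]) hα.le hsα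
  have h3 : 0 < Real.sin α := h1.trans h2
  have h4 : Real.sin s / Real.sin α < 1 := (div_lt_one h3).2 h2
  have h5 : 0 < Real.sin s / Real.sin α := div_pos h1 h3
  refine ⟨Real.arcsin (Real.sin s / Real.sin α), ⟨Real.arcsin_pos.2 h5,
    Real.arcsin_lt_pi_div_two.2 h4⟩, ?_⟩
  unfold S
  rw [Real.sin_arcsin (by linarith) h4.le, mul_div_cancel₀ _ h3.ne']
  exact Real.arcsin_sin (by linarith [Real.pi_pos]) (by linarith)

lemma data_eq (hP : T_PTW) (hA : T_AVGE) (hO : T_POS) {μ : Measure (Fr d)}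
    (hμ : IsFrameMeasure d μ) (hd : 2 ≤ d) {R : ℝ} (hR : R ≤ π / 2) {m : Met d} (hm : Good R m)
    (hS : NonShort R m) (hz : ∀ s ∈ Ioo 0 R, mean μ m s = Real.cos s ^ d) {s : ℝ}
    (hs : s ∈ Ioo 0 R) {x u : E d} (hx : ‖x‖ = 1) (hu : ‖u‖ = 1) (hxu : inner ℝ x u = 0) :
    m.a s x = 1 ∧ inner ℝ (m.β s x) u = 0 ∧ quad (m.g s x) u = Real.cos s ^ 2 := by
  obtain ⟨α, hα1, hα2⟩ := exists_between hs.2
  have hα : α ∈ Ioo 0 R := ⟨hs.1.trans hα1, hα2⟩
  have hαh := mem_half hR hα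
  have hαm : α ∈ Ico 0 R := ⟨hα.1.le, hα.2⟩
  obtain ⟨τ, hτ, hSτ⟩ := exists_angle hs.1 hα1 hαh.2
  obtain ⟨b, hb0, hb1⟩ := frame_two (by omega) x u hx hu hxu
  have hτ2 : τ ∈ Icc 0 π := ⟨hτ.1.le, by linarith [hτ.2, Real.pi_pos]⟩
  have h0 : pp α τ ^ 2 + qq α τ ^ 2 * C α τ ^ 2 = 1 := unit_speed hαh τ
  have h1 := gap_zero hP hA hO hμ hd hR hm hS hz hα hτ2 b
  have h1' : UU m (cl α (S α τ)) (qq α τ) (C α τ) b -
      LL m (cl α (S α τ)) (pp α τ) (qq α τ) b = 0 := h1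
  have h2 := (ptw hP hd hm (cl_mem' hαm (S α τ)) (C_pos hαh τ) h0 b).2 (by linarith)
  have hCp := C_pos hαh τ
  have hp : pp α τ ≠ 0 := by
    unfold pp
    have e1 : 0 < Real.sin α :=
      Real.sin_pos_of_pos_of_lt_pi hα.1 (by linarith [hαh.2, Real.pi_pos])
    have e2 : 0 < Real.cos τ := Real.cos_pos_of_mem_Ioo ⟨by linarith [hτ.1, Real.pi_pos], hτ.2⟩
    positivity
  have hq : qq α τ ≠ 0 := by
    unfold qq
    have e2 : 0 < Real.cos α := Real.cos_pos_of_mem_Ioo ⟨by linarith [hα.1, Real.pi_pos], hαh.2⟩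
    positivity
  obtain ⟨h3, h4⟩ := h2 hp hq
  have h5 : cl α (S α τ) = s := by rw [hSτ]; exact cl_eq ⟨hs.1.le, hα1.le⟩
  have h6 : C α τ = Real.cos s := by rw [← cos_S, hSτ]
  have h7 := h4 ⟨0, by omega⟩
  have h8 : (⟨0, by omega⟩ : Fin d).succ = (1 : Fin (d + 1)) := by
    obtain ⟨k, rfl⟩ : ∃ k, d = k + 1 := ⟨d - 1, by omega⟩
    rfl
  have h9 : (vecF b 0 : E d) = x := hb0
  rw [h8, hb1] at h7
  rw [h5, h9] at h3 h7
  rw [h6] at h7
  exact ⟨h3, h7.1, h7.2⟩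

/-- Rigidity. -/
lemma isRound_of (hP : T_PTW) (hA : T_AVGE) (hO : T_POS) {μ : Measure (Fr d)}
    (hμ : IsFrameMeasure d μ) (hd : 2 ≤ d) {R : ℝ} (hR0 : 0 < R) (hR : R ≤ π / 2) {m : Met d}
    (hm : Good R m) (hS : NonShort R m)
    (hz : ∀ s ∈ Ioo 0 R, mean μ m s = Real.cos s ^ d) : IsRound R m := by
  have key : ∀ s ∈ Ioo 0 R, ∀ x ∈ sphere (0 : E d) 1, ∀ (p : ℝ) (v : E d), inner ℝ x v = 0 →
      m.sq s x p v = p ^ 2 + Real.cos s ^ 2 * ‖v‖ ^ 2 := by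
    intro s hs x hx p v hv
    have hx1 : ‖x‖ = 1 := mem_sphere_zero_iff_norm.1 hx
    obtain ⟨u, t, hu, hxu, rfl⟩ : ∃ (u : E d) (t : ℝ), ‖u‖ = 1 ∧ inner ℝ x u = 0 ∧ v = t • u := by
      by_cases hv0 : v = 0
      · obtain ⟨b, hb⟩ := frame_one x hx1
        have h01 : (0 : Fin (d + 1)) ≠ 1 := by
          obtain ⟨k, rfl⟩ : ∃ k, d = k + 1 := ⟨d - 1, by omega⟩
          exact Fin.zero_ne_one
        refine ⟨b.1 1, 0, b.2.norm_eq_one 1, ?_, by simp [hv0]⟩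
        rw [← hb]
        exact b.2.inner_eq_zero h01
      · have hn : ‖v‖ ≠ 0 := norm_ne_zero_iff.2 hv0
        refine ⟨‖v‖⁻¹ • v, ‖v‖, ?_, ?_, ?_⟩
        · rw [norm_smul, norm_inv, norm_norm, inv_mul_cancel₀ hn]
        · rw [inner_smul_right, hv, mul_zero]
        · rw [smul_smul, mul_inv_cancel₀ hn, one_smul]
    obtain ⟨h1, h2, h3⟩ := data_eq hP hA hO hμ hd hR hm hS hz hs hx1 hu hxu
    rw [Met.sq, Pool.Agent.Y249.HC.quad_smul, inner_smul_right, h1, h2, h3, norm_smul, hu,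
      Real.norm_eq_abs, mul_one, sq_abs]
    ring
  intro s hs x hx p v hv
  rcases hs.1.eq_or_lt with h0 | h0
  · subst h0
    have hxs : ∀ {Y : Type} [TopologicalSpace Y] {f : ℝ → E d → Y},
        ContinuousOn (fun p : ℝ × E d => f p.1 p.2) (Ico 0 R ×ˢ sphere 0 1) →
        ContinuousOn (fun s : ℝ => f s x) (Ico 0 R) := by
      intro Y _ f hf
      have h := hf.comp (f := fun s : ℝ => ((s, x) : ℝ × E d)) (s := Ico 0 R)
        (by fun_prop) (fun s hs => ⟨hs, hx⟩)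
      exact h
    have c1 := hxs hm.cont_a
    have c2 := hxs hm.cont_β
    have c3 := hxs hm.cont_g
    have c4 : ContinuousOn (fun s => quad (m.g s x) v) (Ico 0 R) := by
      unfold quad
      refine continuousOn_finset_sum _ fun i _ => continuousOn_finset_sum _ fun j _ => ?_
      have c5 : ContinuousOn (fun s => m.g s x i j) (Ico 0 R) :=
        continuousOn_pi.1 (continuousOn_pi.1 c3 i) j
      exact (c5.mul continuousOn_const).mul continuousOn_const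
    have c6 : ContinuousOn (fun s => m.sq s x p v) (Ico 0 R) := by
      unfold Met.sq
      exact ((c1.mul continuousOn_const).add
        (continuousOn_const.mul (c2.inner continuousOn_const))).add c4
    have t1 : Tendsto (fun s => m.sq s x p v) (𝓝[>] 0) (𝓝 (m.sq 0 x p v)) := by
      have := c6 0 hs
      exact this.tendsto.mono_left (nhdsWithin_le_of_mem
        (mem_of_superset (Ioo_mem_nhdsGT hR0) Ioo_subset_Ico_self))
    have t2 : Tendsto (fun s => p ^ 2 + Real.cos s ^ 2 * ‖v‖ ^ 2) (𝓝[>] (0 : ℝ))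
        (𝓝 (p ^ 2 + Real.cos 0 ^ 2 * ‖v‖ ^ 2)) := by
      have : Continuous (fun s : ℝ => p ^ 2 + Real.cos s ^ 2 * ‖v‖ ^ 2) := by fun_prop
      exact this.continuousAt.tendsto.mono_left nhdsWithin_le_nhds
    refine tendsto_nhds_unique (t1.congr' ?_) t2
    filter_upwards [Ioo_mem_nhdsGT hR0] with s hs' using key s hs' x hx p v hv
  · exact key s ⟨h0, hs.2⟩ x hx p v hv

end Pool.Agent.Y499.HR
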