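import Pool.Agent.Y499.HC.Stm

set_option autoImplicit false

open Real Set MeasureTheory Metric
open scoped ENNReal

namespace Pool.Agent.Y499.HC

theorem t_TAN : T_TAN := by
  intro d hd p q c y hc hy h
  have e : p ^ 2 + q ^ 2 * y = 1 + q ^ 2 * (y - c ^ 2) := by linear_combination h
  have hz : -1 ≤ q ^ 2 * (y - c ^ 2) := by
    have : 0 ≤ p ^ 2 + q ^ 2 * y := by positivity
    rw [e] at this
    linarith
  have h1 := Real.sqrt_one_add_le hz
  rw [e]
  refine h1.trans ?_
  have hd' : (2 : ℝ) ≤ d := by exact_mod_cast hd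
  have hB := one_add_mul_self_le_rpow_one_add (s := y / c ^ 2 - 1) (by
    have : 0 ≤ y / c ^ 2 := by positivity
    linarith) (p := (d : ℝ) / 2) (by rw [le_div_iff₀ (by norm_num)]; linarith)
  have h2 : 1 + (y / c ^ 2 - 1) = y / c ^ 2 := by ring
  have h3 : (y / c ^ 2) ^ ((d : ℝ) / 2) = y ^ ((d : ℝ) / 2) / c ^ d := by
    rw [Real.div_rpow hy (by positivity)]
    congr 1
    rw [← Real.rpow_natCast c 2, ← Real.rpow_mul hc.le, ← Real.rpow_natCast c d]
    congr 1
    push_cast
    ring
  rw [h2, h3, le_div_iff₀ (by positivity)] at hB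
  have hcd : c ^ d = c ^ (d - 2) * c ^ 2 := by rw [← pow_add]; congr 1; omega
  have h4 : (1 + (d : ℝ) / 2 * (y / c ^ 2 - 1)) * c ^ d =
      c ^ d + (d : ℝ) / 2 * (c ^ (d - 2) * (y - c ^ 2)) := by
    rw [hcd]
    field_simp
  rw [h4] at hB
  have hK : 0 < (d : ℝ) * c ^ (d - 2) := by positivity
  have h5 : q ^ 2 / (d * c ^ (d - 2)) * (y ^ ((d : ℝ) / 2) - c ^ d) -
      q ^ 2 * (y - c ^ 2) / 2 = q ^ 2 / (d * c ^ (d - 2)) *
        ((y ^ ((d : ℝ) / 2) - c ^ d) - (d : ℝ) / 2 * (c ^ (d - 2) * (y - c ^ 2))) := by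
    field_simp
  have h6 : 0 ≤ q ^ 2 / (d * c ^ (d - 2)) *
        ((y ^ ((d : ℝ) / 2) - c ^ d) - (d : ℝ) / 2 * (c ^ (d - 2) * (y - c ^ 2))) :=
    mul_nonneg (by positivity) (by linarith)
  linarith

lemma trTan_eq {d : ℕ} (g : Matrix (Fin (d + 1)) (Fin (d + 1)) ℝ) (x : E d) (hx : ‖x‖ = 1) :
    trTan g x = ∑ k, quad g (EuclideanSpace.single k (1 : ℝ) - x k • x) := by
  have hxs : ∑ k, x k * x k = 1 := by
    have := EuclideanSpace.real_norm_sq_eq x
    rw [hx] at this
    simp only [← pow_two]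
    rw [← this]; norm_num
  unfold trTan quad
  have h1 : ∀ k i : Fin (d + 1), (EuclideanSpace.single k (1 : ℝ) - x k • x : E d) i =
      (if i = k then 1 else 0) - x k * x i := by
    intro k i
    simp
  simp only [h1]
  have hR : ∑ k, ∑ i, ∑ j, g i j * ((if i = k then (1 : ℝ) else 0) - x k * x i) *
      ((if j = k then 1 else 0) - x k * x j) =
      ∑ i, ∑ j, ∑ k, g i j * ((if i = k then (1 : ℝ) else 0) - x k * x i) *
      ((if j = k then 1 else 0) - x k * x j) := by
    rw [Finset.sum_comm]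
    exact Finset.sum_congr rfl fun i _ => Finset.sum_comm
  rw [hR, ← Finset.sum_sub_distrib]
  refine Finset.sum_congr rfl fun i _ => ?_
  have h2 : ∀ j, ∑ k, g i j * ((if i = k then 1 else 0) - x k * x i) *
      ((if j = k then 1 else 0) - x k * x j) = g i j * ((if i = j then 1 else 0) - x i * x j) := by
    intro j
    have e : ∀ k, g i j * ((if i = k then 1 else 0) - x k * x i) *
        ((if j = k then 1 else 0) - x k * x j) = g i j * ((if i = k then (if j = k then 1 else 0)
          else 0) - (if i = k then x k * x j else 0) - (if j = k then x k * x i else 0) +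
          (x k * x k) * (x i * x j)) := by
      intro k
      split_ifs <;> ring
    simp only [e]
    rw [← Finset.mul_sum, Finset.sum_add_distrib, Finset.sum_sub_distrib, Finset.sum_sub_distrib,
      ← Finset.sum_mul, hxs]
    simp only [Finset.sum_ite_eq, Finset.mem_univ, if_true]
    congr 1
    by_cases h : i = j
    · subst h; simp
    · have h' : ¬ j = i := fun e => h e.symm
      simp [h, h']; ring
  rw [Finset.sum_congr rfl fun j _ => h2 j]
  have h3 : ∀ j, g i j * ((if i = j then 1 else 0) - x i * x j) =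
      (if i = j then g i j else 0) - g i j * x i * x j := by
    intro j
    split_ifs <;> ring
  rw [Finset.sum_congr rfl fun j _ => h3 j, Finset.sum_sub_distrib]
  congr 1
  simp

lemma inner_single_sub {d : ℕ} (x : E d) (hx : ‖x‖ = 1) (k : Fin (d + 1)) :
    inner ℝ x (EuclideanSpace.single k (1 : ℝ) - x k • x) = 0 := by
  rw [inner_sub_right, inner_smul_right, real_inner_self_eq_norm_sq, hx,
    EuclideanSpace.inner_single_right]
  simp

lemma trTan_nonneg {d : ℕ} {m : Met d} (hm : m.Good) {s : ℝ} (hs : s ∈ Ico 0 (π / 2)) (x : Sph d) :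
    0 ≤ trTan (m.g s x) x := by
  have hx : ‖(x : E d)‖ = 1 := mem_sphere_zero_iff_norm.1 x.2
  rw [trTan_eq _ _ hx]
  refine Finset.sum_nonneg fun k _ => ?_
  have := hm.nonneg s hs x x.2 0 _ (inner_single_sub (x : E d) hx k)
  simpa [Met.sq] using this

end Pool.Agent.Y499.HC
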